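import Pool.Agent.H72.QP.Words

/-! Inner faithfulness, abstract form. -/

namespace H72QP

open Finset Matrix
open scoped TensorProduct

section Fix2

variable {n : ℕ}

/-- words to tuples. -/
def toV (hn : 1 ≤ n) (k : ℕ) (l : List (Fin n)) : Fin k → Fin n :=
  fun i => l.getD i ⟨0, hn⟩

lemma ofFn_toV (hn : 1 ≤ n) (k : ℕ) (l : List (Fin n)) (hl : l.length = k) :
    List.ofFn (toV hn k l) = l := by
  subst hl
  apply List.ext_getElem
  · simp
  · intro i h1 h2
    simp [toV, List.getD_eq_getElem?_getD, List.getElem?_eq_getElem h2]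

lemma toV_ofFn (hn : 1 ≤ n) (k : ℕ) (v : Fin k → Fin n) : toV hn k (List.ofFn v) = v := by
  funext i
  simp [toV, List.getD_eq_getElem?_getD]

/-- generated functions give intertwiners of every magic matrix. -/
lemma gen_intertwine {A : Type*} [Ring A] [Algebra ℂ A] {u : Fin n → Fin n → A} (hu : Magic u)
    {k : ℕ} {t : List (Fin n) → ℂ} (ht : Gen ℂ (k + k) t) (f : A →ₗ[ℂ] ℂ)
    (a b : List (Fin n)) (ha : a.length = k) (hb : b.length = k) :
    S k (fun m => f (mw u b m) * t (a.reverse ++ m)) =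
      S k (fun m => f (mw u m a) * t (m.reverse ++ b)) := by
  have h1 := (fix_iff_mix hu k k t).1 (ht.fix hu) a b ha hb
  rw [act_eq_S, act_eq_S, ha, hb] at h1
  have h2 := congrArg f h1
  have h3 : ∀ (F : List (Fin n) → A), f (S k F) = S k (fun l => f (F l)) :=
    fun F => S_map f.toAddMonoidHom k F
  rw [h3, h3] at h2
  have h4 : ∀ (x : A) (c : ℂ), f (x * algebraMap ℂ A c) = f x * c := by
    intro x c
    rw [← Algebra.commutes, ← Algebra.smul_def, map_smul, smul_eq_mul, mul_comm]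
  simp only [h4, mw_swap] at h2
  exact h2

end Fix2

section Main

variable {n : ℕ}

lemma exists_generators (n : ℕ) : ∃ σ1 σ2 : Equiv.Perm (Fin n), σ1 * σ1 = 1 ∧
    Subgroup.closure {σ2, σ1} = ⊤ := by
  match n with
  | 0 => exact ⟨1, 1, by simp, Subsingleton.elim _ _⟩
  | 1 => exact ⟨1, 1, by simp, Subsingleton.elim _ _⟩
  | n + 2 =>
    refine ⟨Equiv.swap 0 (finRotate (n + 2) 0), finRotate (n + 2), Equiv.swap_mul_self _ _, ?_⟩
    exact Equiv.Perm.closure_cycle_adjacent_swap isCycle_finRotate support_finRotate 0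

/-- the commutant of the model consists of generated functions. -/
lemma commutant_gen (hn : 1 ≤ n) {M : Fin n → Fin n → Matrix (Fin 2) (Fin 2) ℝ} (hM : Magic M)
    (hGen : ∀ (k : ℕ) (h : List (Fin n) → ℝ), IsG M k h → Gen ℝ k h)
    {σ1 σ2 : Equiv.Perm (Fin n)} (hcl : Subgroup.closure {σ2, σ1} = ⊤)
    (k : ℕ) (T : Matrix (Fin k → Fin n) (Fin k → Fin n) ℂ)
    (hT0 : ∀ s t : Fin 2, T * Matrix.of (fun v w => ((mw M (List.ofFn v) (List.ofFn w) s t : ℝ) : ℂ))
      = Matrix.of (fun v w => ((mw M (List.ofFn v) (List.ofFn w) s t : ℝ) : ℂ)) * T)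
    (hT1 : T * Matrix.of (fun v w => mw (permM ℂ σ1) (List.ofFn v) (List.ofFn w))
      = Matrix.of (fun v w => mw (permM ℂ σ1) (List.ofFn v) (List.ofFn w)) * T)
    (hT2 : T * Matrix.of (fun v w => mw (permM ℂ σ2) (List.ofFn v) (List.ofFn w))
      = Matrix.of (fun v w => mw (permM ℂ σ2) (List.ofFn v) (List.ofFn w)) * T) :
    Gen ℂ (k + k) (fun l => T (toV hn k (l.drop k)) (toV hn k (l.take k).reverse)) := by
  obtain ⟨t, ht⟩ : ∃ t : List (Fin n) → ℂ,
    t = fun l => T (toV hn k (l.drop k)) (toV hn k (l.take k).reverse) := ⟨_, rfl⟩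
  rw [← ht]
  have ht' : ∀ a b : List (Fin n), a.length = k → b.length = k →
      t (a.reverse ++ b) = T (toV hn k b) (toV hn k a) := by
    intro a b ha hb
    have ha' : a.reverse.length = k := by simpa using ha
    rw [ht]
    simp only [List.take_left' ha', List.drop_left' ha', List.reverse_reverse]
  have hsum1 : ∀ (a b : List (Fin n)) (_ : a.length = k) (_ : b.length = k)
      (X : List (Fin n) → ℂ),
      S k (fun m => t (m.reverse ++ b) * X m) =
        ∑ x : Fin k → Fin n, T (toV hn k b) x * X (List.ofFn x) := by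
    intro a b ha hb X
    rw [S_ofFn]
    refine Finset.sum_congr rfl fun x _ => ?_
    rw [ht' _ _ (by simp) hb, toV_ofFn]
  have hsum2 : ∀ (a b : List (Fin n)) (_ : a.length = k) (_ : b.length = k)
      (X : List (Fin n) → ℂ),
      S k (fun m => X m * t (a.reverse ++ m)) =
        ∑ x : Fin k → Fin n, X (List.ofFn x) * T x (toV hn k a) := by
    intro a b ha hb X
    rw [S_ofFn]
    refine Finset.sum_congr rfl fun x _ => ?_
    rw [ht' _ _ ha (by simp), toV_ofFn]
  -- the model equations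
  have hmod : ∀ (a b : List (Fin n)) (_ : a.length = k) (_ : b.length = k) (s r : Fin 2),
      S k (fun m => t (m.reverse ++ b) * ((mw M m a s r : ℝ) : ℂ)) =
        S k (fun m => ((mw M b m s r : ℝ) : ℂ) * t (a.reverse ++ m)) := by
    intro a b ha hb s r
    rw [hsum1 a b ha hb, hsum2 a b ha hb]
    have := congrFun (congrFun (hT0 s r) (toV hn k b)) (toV hn k a)
    rw [Matrix.mul_apply, Matrix.mul_apply] at this
    simp only [Matrix.of_apply] at this
    rw [ofFn_toV hn k a ha, ofFn_toV hn k b hb] at this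
    exact this
  have hperm : ∀ σ : Equiv.Perm (Fin n), T * Matrix.of (fun v w => mw (permM ℂ σ) (List.ofFn v)
        (List.ofFn w)) =
      Matrix.of (fun v w => mw (permM ℂ σ) (List.ofFn v) (List.ofFn w)) * T →
      ∀ l, l.length = k + k → t (l.map σ) = t l := by
    intro σ hσ l hl
    obtain ⟨a0, b, rfl, ha0, hb⟩ := split0 hl
    obtain ⟨a, rfl⟩ : ∃ a, a0 = a.reverse := ⟨a0.reverse, by simp⟩
    have ha : a.length = k := by simpa using ha0
    have e : (a.reverse ++ b).map σ = (a.map σ).reverse ++ b.map σ := by simp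
    rw [e, ht' _ _ (by simpa using ha) (by simpa using hb), ht' _ _ ha hb]
    have := congrFun (congrFun hσ (toV hn k b)) (toV hn k (a.map σ))
    rw [Matrix.mul_apply, Matrix.mul_apply] at this
    simp only [Matrix.of_apply] at this
    rw [ofFn_toV hn k (a.map σ) (by simpa using ha), ofFn_toV hn k b hb] at this
    rw [Finset.sum_eq_single (toV hn k a), Finset.sum_eq_single (toV hn k (b.map σ))] at this
    · rw [ofFn_toV hn k a ha, ofFn_toV hn k (b.map σ) (by simpa using hb),
        mw_permM σ _ _ (by simp [hb]), mw_permM σ _ _ (by simp), if_pos rfl, if_pos rfl,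
        mul_one, one_mul] at this
      exact this.symm
    · intro x _ hx
      rw [mw_permM σ _ _ (by simp [hb]), if_neg, zero_mul]
      intro h
      apply hx
      rw [← h, toV_ofFn]
    · simp
    · intro x _ hx
      rw [mw_permM σ _ _ (by simp [ha]), if_neg, mul_zero]
      intro h
      apply hx
      have h2 : a = List.ofFn x := List.map_injective_iff.2 σ.injective h
      rw [h2, toV_ofFn]
    · simp
  have hperm' : ∀ σ : Equiv.Perm (Fin n), ∀ l, l.length = k + k → t (l.map σ) = t l := by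
    let H : Subgroup (Equiv.Perm (Fin n)) :=
      { carrier := {σ | ∀ l, l.length = k + k → t (l.map σ) = t l}
        mul_mem' := by
          intro x y hx hy l hl
          have e : l.map (x * y) = (l.map y).map x := by simp
          rw [e, hx _ (by simpa using hl), hy l hl]
        one_mem' := by
          intro l hl
          have e : l.map (1 : Equiv.Perm (Fin n)) = l := by simp
          rw [e]
        inv_mem' := by
          intro x hx l hl
          have := hx (l.map (x⁻¹ : Equiv.Perm (Fin n))) (by simpa using hl)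
          rw [← this]
          congr 1
          simp }
    have hle : Subgroup.closure {σ2, σ1} ≤ H := by
      rw [Subgroup.closure_le]
      rintro x (rfl | rfl)
      · exact hperm _ hT2
      · exact hperm _ hT1
    intro σ
    have : σ ∈ H := hle (by rw [hcl]; trivial)
    exact this
  -- real and imaginary parts
  have key : ∀ g : ℂ →+ ℝ, (∀ (z : ℂ) (r : ℝ), g (z * (r : ℂ)) = g z * r) →
      Gen ℝ (k + k) (fun l => g (t l)) := by
    intro g hg
    refine hGen (k + k) _ ⟨?_, ?_⟩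
    · rw [fix_iff_mix hM]
      intro a b ha hb
      rw [act_eq_S, act_eq_S, ha, hb]
      ext s r
      have h1 : ∀ F : List (Fin n) → Matrix (Fin 2) (Fin 2) ℝ,
          (S k F) s r = S k (fun l => (F l) s r) := by
        intro F
        exact S_map (Matrix.entryAddMonoidHom ℝ s r) k F
      rw [h1, h1]
      have h2 : ∀ (X : Matrix (Fin 2) (Fin 2) ℝ) (c : ℝ),
          (X * algebraMap ℝ (Matrix (Fin 2) (Fin 2) ℝ) c) s r = c * X s r := by
        intro X c
        rw [← Algebra.commutes, ← Algebra.smul_def]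
        rfl
      simp only [h2, mw_swap]
      have h3 := congrArg g (hmod a b ha hb s r)
      rw [S_map g, S_map g] at h3
      have h4 : ∀ m : List (Fin n), g (((mw M b m s r : ℝ) : ℂ) * t (a.reverse ++ m)) =
          g (t (a.reverse ++ m)) * mw M b m s r := by
        intro m
        rw [mul_comm, hg]
      simp only [h4, hg] at h3
      exact h3.symm
    · intro σ
      rw [fix_permM_iff]
      intro l hl
      rw [hperm' σ l hl]
  have hre := (key Complex.reAddGroupHom (fun z r => by simp)).map Complex.ofRealHom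
  have him := (key Complex.imAddGroupHom (fun z r => by simp)).map Complex.ofRealHom
  refine (hre.add (him.smul Complex.I)).congr fun l _ => ?_
  have := Complex.re_add_im (t l)
  simp only [Complex.coe_reAddGroupHom, Complex.coe_imAddGroupHom, Complex.ofRealHom_eq_coe]
  rw [mul_comm]
  exact this

/-- a word product lies in the span of longer word products. -/
lemma exists_span {A : Type*} [Ring A] [Algebra ℂ A] (hn : 1 ≤ n) {u : Fin n → Fin n → A}
    (hu : Magic u)
    (hgen : Algebra.adjoin ℂ (Set.range fun p : Fin n × Fin n => u p.1 p.2) = ⊤) (a : A) :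
    ∃ k, a ∈ Submodule.span ℂ
      {x : A | ∃ l l' : List (Fin n), l.length = k ∧ l'.length = k ∧ x = mw u l l'} := by
  obtain ⟨C, hC⟩ : ∃ C : ℕ → Submodule ℂ A, C = fun k => Submodule.span ℂ
      {x : A | ∃ l l' : List (Fin n), l.length = k ∧ l'.length = k ∧ x = mw u l l'} := ⟨_, rfl⟩
  have hstep : ∀ k, C k ≤ C (k + 1) := by
    intro k
    rw [hC]
    refine Submodule.span_le.2 ?_
    rintro x ⟨l, l', hl, hl', rfl⟩
    have h1 : mw u l l' = ∑ j, mw u (⟨0, hn⟩ :: l) (j :: l') := by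
      simp only [mw_cons]
      rw [← Finset.sum_mul, hu.rowsum, one_mul]
    rw [h1]
    exact Submodule.sum_mem _ fun j _ => Submodule.subset_span
      ⟨_, _, by simp [hl], by simp [hl'], rfl⟩
  have hmono : ∀ k d, C k ≤ C (k + d) := by
    intro k d
    induction d with
    | zero => exact le_refl _
    | succ d ih => exact ih.trans (hstep (k + d))
  have hmul : ∀ k k' x y, x ∈ C k → y ∈ C k' → x * y ∈ C (k + k') := by
    intro k k' x y hx hy
    rw [hC] at hx hy ⊢
    simp only at hx hy ⊢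
    refine Submodule.span_induction ?_ ?_ ?_ ?_ hx
    · rintro x ⟨l, l', hl, hl', rfl⟩
      refine Submodule.span_induction ?_ ?_ ?_ ?_ hy
      · rintro y ⟨m, m', hm, hm', rfl⟩
        rw [← mw_append _ _ _ _ _ (by omega)]
        exact Submodule.subset_span ⟨_, _, by simp; omega, by simp; omega, rfl⟩
      · rw [mul_zero]; exact Submodule.zero_mem _
      · intro y z _ _ h1 h2
        rw [mul_add]; exact Submodule.add_mem _ h1 h2
      · intro c y _ h1
        rw [mul_smul_comm]; exact Submodule.smul_mem _ _ h1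
    · rw [zero_mul]; exact Submodule.zero_mem _
    · intro y z _ _ h1 h2
      rw [add_mul]; exact Submodule.add_mem _ h1 h2
    · intro c y _ h1
      rw [smul_mul_assoc]; exact Submodule.smul_mem _ _ h1
  have hall : ∃ k, a ∈ C k := by
    have ha : a ∈ Algebra.adjoin ℂ (Set.range fun p : Fin n × Fin n => u p.1 p.2) := by
      rw [hgen]; trivial
    refine Algebra.adjoin_induction (p := fun a _ => ∃ k, a ∈ C k) ?_ ?_ ?_ ?_ ha
    · rintro x ⟨⟨i, j⟩, rfl⟩
      refine ⟨1, ?_⟩
      rw [hC]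
      exact Submodule.subset_span ⟨[i], [j], rfl, rfl, by simp⟩
    · intro r
      refine ⟨0, ?_⟩
      rw [hC, Algebra.algebraMap_eq_smul_one]
      exact Submodule.smul_mem _ _ (Submodule.subset_span ⟨[], [], rfl, rfl, by simp⟩)
    · rintro x y _ _ ⟨k, hk⟩ ⟨k', hk'⟩
      refine ⟨k + k', Submodule.add_mem _ (hmono k k' hk) ?_⟩
      rw [add_comm]
      exact hmono k' k hk'
    · rintro x y _ _ ⟨k, hk⟩ ⟨k', hk'⟩
      exact ⟨k + k', hmul k k' x y hk hk'⟩
  rw [hC] at hall
  exact hall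

lemma comul_mw {A B T : Type*} [Ring A] [Algebra ℂ A] [Ring B] [Algebra ℂ B] [Ring T]
    [Algebra ℂ T] {u : Fin n → Fin n → A} (q : A →ₐ[ℂ] B) (j : B ⊗[ℂ] B →ₐ[ℂ] T)
    (Δ : B →ₐ[ℂ] T)
    (hΔ : ∀ i k, Δ (q (u i k)) = j (∑ a, q (u i a) ⊗ₜ[ℂ] q (u a k))) (l l' : List (Fin n))
    (hl : l.length = l'.length) :
    Δ (q (mw u l l')) = j (S l.length (fun m => q (mw u l m) ⊗ₜ[ℂ] q (mw u m l'))) := by
  induction l generalizing l' with
  | nil =>
    have : l' = [] := by simpa using hl.symm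
    subst this
    simp [Algebra.TensorProduct.one_def.symm]
  | cons i l ih =>
    match l', hl with
    | k :: l', hl =>
      rw [mw_cons, map_mul, map_mul, hΔ, ih l' (by simpa using hl), ← map_mul,
        List.length_cons, S_succ, Finset.sum_mul]
      congr 1
      refine Finset.sum_congr rfl fun a _ => ?_
      rw [← S_mul_left]
      refine S_congr _ fun m _ => ?_
      simp [Algebra.TensorProduct.tmul_mul_tmul]

/-- permutation matrices on words. -/
noncomputable def Pm (k : ℕ) (σ : Equiv.Perm (Fin n)) :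
    Matrix (Fin k → Fin n) (Fin k → Fin n) ℂ :=
  Matrix.of fun v w => mw (permM ℂ σ) (List.ofFn v) (List.ofFn w)

lemma Pm_apply (k : ℕ) (σ : Equiv.Perm (Fin n)) (v w : Fin k → Fin n) :
    Pm k σ v w = if w = σ ∘ v then 1 else 0 := by
  rw [Pm, Matrix.of_apply, mw_permM σ _ _ (by simp), List.map_ofFn]
  simp only [List.ofFn_inj]

lemma Pm_mul (k : ℕ) (σ τ : Equiv.Perm (Fin n)) : Pm k σ * Pm k τ = Pm k (τ * σ) := by
  ext v w
  rw [Matrix.mul_apply, Finset.sum_eq_single (σ ∘ v)]
  · rw [Pm_apply, Pm_apply, Pm_apply, if_pos rfl, one_mul]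
    congr 1
  · intro x _ hx
    rw [Pm_apply, if_neg hx, zero_mul]
  · simp

lemma Pm_one (k : ℕ) : Pm k (1 : Equiv.Perm (Fin n)) = 1 := by
  ext v w
  rw [Pm_apply, Matrix.one_apply]
  congr 1
  simp [eq_comm, Function.comp_def]

lemma Pm_pow (k : ℕ) (σ : Equiv.Perm (Fin n)) (j : ℕ) : (Pm k σ) ^ j = Pm k (σ ^ j) := by
  induction j with
  | zero => rw [pow_zero, pow_zero, Pm_one]
  | succ j ih => rw [pow_succ, ih, Pm_mul, ← pow_succ']

lemma Pm_star (k : ℕ) (σ : Equiv.Perm (Fin n)) : (Pm k σ)ᴴ = Pm k σ⁻¹ := by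
  ext v w
  rw [Matrix.conjTranspose_apply, Pm_apply, Pm_apply]
  have : (v = σ ∘ w) ↔ (w = (σ⁻¹ : Equiv.Perm (Fin n)) ∘ v) := by
    constructor
    · rintro rfl; funext x; simp
    · rintro rfl; funext x; simp
  by_cases h : v = σ ∘ w
  · rw [if_pos h, if_pos (this.1 h), star_one]
  · rw [if_neg h, if_neg (fun h' => h (this.2 h')), star_zero]

/-- the coefficient matrices of the model. -/
noncomputable def Xm (M : Fin n → Fin n → Matrix (Fin 2) (Fin 2) ℝ) (k : ℕ) (s t : Fin 2) :
    Matrix (Fin k → Fin n) (Fin k → Fin n) ℂ :=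
  Matrix.of (fun v w => ((mw M (List.ofFn v) (List.ofFn w) s t : ℝ) : ℂ))

/-- the generating matrices. -/
def gens (M : Fin n → Fin n → Matrix (Fin 2) (Fin 2) ℝ) (σ1 σ2 : Equiv.Perm (Fin n)) (k : ℕ) :
    Set (Matrix (Fin k → Fin n) (Fin k → Fin n) ℂ) :=
  {X | (∃ s t, X = Xm M k s t) ∨ X = Pm k σ1 ∨ X = Pm k σ2}

lemma adjoin_star {M : Fin n → Fin n → Matrix (Fin 2) (Fin 2) ℝ} (hMs : ∀ i j, M i j = M j i)
    {σ1 σ2 : Equiv.Perm (Fin n)} (hσ : σ1 * σ1 = 1) (k : ℕ)
    (X : Matrix (Fin k → Fin n) (Fin k → Fin n) ℂ)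
    (hX : X ∈ Algebra.adjoin ℂ (gens M σ1 σ2 k)) :
    Xᴴ ∈ Algebra.adjoin ℂ (gens M σ1 σ2 k) := by
  refine Algebra.adjoin_induction (p := fun X _ => Xᴴ ∈ Algebra.adjoin ℂ (gens M σ1 σ2 k))
    ?_ ?_ ?_ ?_ hX
  · rintro X (⟨s, t, rfl⟩ | rfl | rfl)
    · have : (Xm M k s t)ᴴ = Xm M k s t := by
        ext v w
        simp only [Xm, Matrix.conjTranspose_apply, Matrix.of_apply]
        rw [← mw_swap M (List.ofFn v)]
        have e : (fun i j => M j i) = M := by funext i j; exact hMs j i
        rw [e]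
        exact Complex.conj_ofReal _
      rw [this]
      have h1 : Xm M k s t ∈ gens M σ1 σ2 k := Or.inl ⟨s, t, rfl⟩
      exact Algebra.subset_adjoin h1
    · rw [Pm_star]
      have : σ1⁻¹ = σ1 := inv_eq_of_mul_eq_one_left hσ
      rw [this]
      have h1 : Pm k σ1 ∈ gens M σ1 σ2 k := Or.inr (Or.inl rfl)
      exact Algebra.subset_adjoin h1
    · rw [Pm_star]
      have : σ2⁻¹ = σ2 ^ (orderOf σ2 - 1) := by
        rw [inv_eq_iff_mul_eq_one, ← pow_succ', Nat.sub_add_cancel (orderOf_pos σ2),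
          pow_orderOf_eq_one]
      rw [this, ← Pm_pow]
      have h1 : Pm k σ2 ∈ gens M σ1 σ2 k := Or.inr (Or.inr rfl)
      exact Subalgebra.pow_mem _ (Algebra.subset_adjoin h1) _
  · intro c
    rw [Algebra.algebraMap_eq_smul_one, Matrix.conjTranspose_smul, Matrix.conjTranspose_one]
    exact Subalgebra.smul_mem _ (Subalgebra.one_mem _) _
  · intro X Y _ _ h1 h2
    rw [Matrix.conjTranspose_add]
    exact Subalgebra.add_mem _ h1 h2
  · intro X Y _ _ h1 h2
    rw [Matrix.conjTranspose_mul]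
    exact Subalgebra.mul_mem _ h2 h1

/-- Inner faithfulness, abstract form. -/
theorem abstract_faithful (hn : 1 ≤ n) {M : Fin n → Fin n → Matrix (Fin 2) (Fin 2) ℝ}
    (hM : Magic M) (hMs : ∀ i j, M i j = M j i)
    (hGen : ∀ (k : ℕ) (h : List (Fin n) → ℝ), IsG M k h → Gen ℝ k h)
    {σ1 σ2 : Equiv.Perm (Fin n)} (hσ : σ1 * σ1 = 1) (hcl : Subgroup.closure {σ2, σ1} = ⊤)
    {A B T : Type*} [Ring A] [Algebra ℂ A] [Ring B] [Algebra ℂ B] [Ring T]
    [Algebra ℂ T] (u : Fin n → Fin n → A) (hu : Magic u)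
    (hgenA : Algebra.adjoin ℂ (Set.range fun p : Fin n × Fin n => u p.1 p.2) = ⊤)
    (q : A →ₐ[ℂ] B) (j : B ⊗[ℂ] B →ₐ[ℂ] T) (hj : Function.Injective j)
    (Δ : B →ₐ[ℂ] T)
    (hΔ : ∀ i k, Δ (q (u i k)) = j (∑ a, q (u i a) ⊗ₜ[ℂ] q (u a k)))
    (ρ : B →ₐ[ℂ] Matrix (Fin 4) (Fin 4) ℂ) (hρ : ∀ i k, ρ (q (u i k)) = m4 M σ1 σ2 i k) :
    Function.Injective q := by
  rw [injective_iff_map_eq_zero]
  intro a ha
  rw [← Module.forall_dual_apply_eq_zero_iff ℂ]
  intro f
  obtain ⟨k, hk⟩ := exists_span hn hu hgenA a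
  -- values of ρ on words
  have hρw : ∀ l l', ρ (q (mw u l l')) = mw (m4 M σ1 σ2) l l' := by
    intro l l'
    have h1 : ρ (q (mw u l l')) = (ρ.comp q) (mw u l l') := rfl
    rw [h1, mw_map (ρ.comp q)]
    congr 1
    funext i k
    exact hρ i k
  -- the retraction
  obtain ⟨J, hJ⟩ := LinearMap.exists_leftInverse_of_injective j.toLinearMap
    (LinearMap.ker_eq_bot.2 hj)
  have hJ' : ∀ x, J (j x) = x := fun x => LinearMap.congr_fun hJ x
  -- coefficient matrices of `B`
  obtain ⟨QQ, hQQ⟩ : ∃ QQ : Matrix (Fin k → Fin n) (Fin k → Fin n) ℂ → Prop,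
    QQ = fun X => ∃ g : B →ₗ[ℂ] ℂ, ∀ v w, X v w = g (q (mw u (List.ofFn v) (List.ofFn w))) :=
    ⟨_, rfl⟩
  have hmul : ∀ X Y, QQ X → QQ Y → QQ (X * Y) := by
    intro X Y hX hY
    rw [hQQ] at hX hY ⊢
    obtain ⟨g1, h1⟩ := hX
    obtain ⟨g2, h2⟩ := hY
    refine ⟨(LinearMap.mul' ℂ ℂ) ∘ₗ (TensorProduct.map g1 g2) ∘ₗ J ∘ₗ Δ.toLinearMap, ?_⟩
    intro v w
    simp only [LinearMap.comp_apply, AlgHom.toLinearMap_apply]
    rw [comul_mw q j Δ hΔ _ _ (by simp), hJ']
    have h3 : ∀ F : List (Fin n) → B ⊗[ℂ] B, (LinearMap.mul' ℂ ℂ)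
        ((TensorProduct.map g1 g2) (S k F)) =
        S k (fun l => (LinearMap.mul' ℂ ℂ) ((TensorProduct.map g1 g2) (F l))) := by
      intro F
      exact S_map ((LinearMap.mul' ℂ ℂ) ∘ₗ (TensorProduct.map g1 g2)).toAddMonoidHom k F
    rw [List.length_ofFn, h3, S_ofFn, Matrix.mul_apply]
    refine Finset.sum_congr rfl fun x _ => ?_
    rw [h1, h2]
    simp
  have hadd : ∀ X Y, QQ X → QQ Y → QQ (X + Y) := by
    intro X Y hX hY
    rw [hQQ] at hX hY ⊢
    obtain ⟨g1, h1⟩ := hX
    obtain ⟨g2, h2⟩ := hY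
    exact ⟨g1 + g2, fun v w => by simp [h1, h2]⟩
  have hsmul : ∀ (c : ℂ) X, QQ X → QQ (c • X) := by
    intro c X hX
    rw [hQQ] at hX ⊢
    obtain ⟨g1, h1⟩ := hX
    exact ⟨c • g1, fun v w => by simp [h1]⟩
  -- the slices
  have hslice : ∀ x y : Fin 4, QQ (Matrix.of fun v w =>
      mw (m4 M σ1 σ2) (List.ofFn v) (List.ofFn w) x y) := by
    intro x y
    rw [hQQ]
    refine ⟨{ toFun := fun b => ρ b x y
              map_add' := fun b b' => by rw [map_add]; rfl
              map_smul' := fun c b => by rw [map_smul]; rfl }, fun v w => ?_⟩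
    simp only [LinearMap.coe_mk, AddHom.coe_mk, Matrix.of_apply]
    rw [hρw]
  have hX : ∀ s t, QQ (Xm M k s t) := by
    intro s t
    have := hslice (e4 (s, 0)) (e4 (t, 0))
    simp only [m4_entry0] at this
    exact this
  have hP1 : QQ (Pm k σ1) := by
    have := hslice (e4 (0, 1)) (e4 (0, 1))
    simp only [m4_entry1, if_true] at this
    exact this
  have hP2 : QQ (Pm k σ2) := by
    have := hslice (e4 (1, 1)) (e4 (1, 1))
    simp only [m4_entry1, one_ne_zero, if_false] at this
    exact this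
  have hone : QQ 1 := by
    have := hmul _ _ hP1 hP1
    rwa [Pm_mul, hσ, Pm_one] at this
  let BB : Subalgebra ℂ (Matrix (Fin k → Fin n) (Fin k → Fin n) ℂ) :=
    { carrier := {X | QQ X}
      mul_mem' := fun {X Y} hX hY => hmul X Y hX hY
      add_mem' := fun {X Y} hX hY => hadd X Y hX hY
      algebraMap_mem' := fun c => by
        have := hsmul c 1 hone
        rw [← Algebra.algebraMap_eq_smul_one] at this
        exact this }
  have hle : Algebra.adjoin ℂ (gens M σ1 σ2 k) ≤ BB := by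
    rw [Algebra.adjoin_le_iff]
    rintro X (⟨s, t, rfl⟩ | rfl | rfl)
    · exact hX s t
    · exact hP1
    · exact hP2
  -- the matrix of the functional `f`
  have hF : (Matrix.of fun v w : Fin k → Fin n => f (mw u (List.ofFn v) (List.ofFn w))) ∈
      Algebra.adjoin ℂ (gens M σ1 σ2 k) := by
    refine bicomm _ (fun X hX => adjoin_star hMs hσ k X hX) _ ?_
    intro Tm hT
    have hg := commutant_gen hn hM hGen hcl k Tm
      (fun s t => hT _ (Algebra.subset_adjoin (Or.inl ⟨s, t, rfl⟩)))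
      (hT _ (Algebra.subset_adjoin (Or.inr (Or.inl rfl))))
      (hT _ (Algebra.subset_adjoin (Or.inr (Or.inr rfl))))
    ext v w
    have h1 := gen_intertwine hu hg f (List.ofFn w) (List.ofFn v) (by simp) (by simp)
    rw [S_ofFn, S_ofFn] at h1
    have hw : (List.ofFn w).reverse.length = k := by simp
    simp only [List.take_left' hw, List.drop_left' hw, List.reverse_reverse, toV_ofFn] at h1
    have h2 : ∀ x : Fin k → Fin n, (List.ofFn x).reverse.length = k := fun x => by simp
    simp only [List.take_left' (h2 _), List.drop_left' (h2 _), List.reverse_reverse,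
      toV_ofFn] at h1
    rw [Matrix.mul_apply, Matrix.mul_apply]
    simp only [Matrix.of_apply]
    rw [h1]
    exact Finset.sum_congr rfl fun x _ => mul_comm _ _
  have hF' : QQ (Matrix.of fun v w : Fin k → Fin n => f (mw u (List.ofFn v) (List.ofFn w))) :=
    hle hF
  rw [hQQ] at hF'
  obtain ⟨g, hg⟩ := hF'
  have h5 : ∀ x ∈ Submodule.span ℂ
      {x : A | ∃ l l' : List (Fin n), l.length = k ∧ l'.length = k ∧ x = mw u l l'},
      f x = g (q x) := by
    intro x hx
    refine Submodule.span_induction ?_ ?_ ?_ ?_ hx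
    · rintro x ⟨l, l', hl, hl', rfl⟩
      have := hg (toV hn k l) (toV hn k l')
      rw [ofFn_toV hn k l hl, ofFn_toV hn k l' hl'] at this
      rw [← this, Matrix.of_apply, ofFn_toV hn k l hl, ofFn_toV hn k l' hl']
    · simp
    · intro x y _ _ h1 h2
      simp [h1, h2]
    · intro c x _ h1
      simp [h1]
  rw [h5 a hk, ha, map_zero]

end Main

end H72QP
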