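import Mathlib

/-! Basic calculus of functions on words over a finite alphabet: iterated sums, the action of a
magic matrix on words, fixed functions. -/

namespace H72QP

open Finset

section Sums

variable {ι : Type*} [Fintype ι]

/-- the sum of `F` over all words of length `k`. -/
def S {R : Type*} [AddCommMonoid R] : ℕ → (List ι → R) → R
  | 0, F => F []
  | k + 1, F => ∑ c, S k (fun l => F (c :: l))

@[simp] lemma S_zero' {R : Type*} [AddCommMonoid R] (F : List ι → R) : S 0 F = F [] := rfl

lemma S_succ {R : Type*} [AddCommMonoid R] (k : ℕ) (F : List ι → R) :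
    S (k + 1) F = ∑ c, S k (fun l => F (c :: l)) := rfl

lemma S_congr {R : Type*} [AddCommMonoid R] (k : ℕ) {F G : List ι → R}
    (h : ∀ l, l.length = k → F l = G l) : S k F = S k G := by
  induction k generalizing F G with
  | zero => exact h [] rfl
  | succ k ih =>
    simp only [S_succ]
    refine Finset.sum_congr rfl fun c _ => ih fun l hl => h _ (by simp [hl])

lemma S_const_zero {R : Type*} [AddCommMonoid R] (k : ℕ) : S (ι := ι) k (fun _ => (0 : R)) = 0 := by
  induction k with
  | zero => rfl
  | succ k ih => simp [S_succ, ih]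

lemma S_eq_zero {R : Type*} [AddCommMonoid R] (k : ℕ) {F : List ι → R}
    (h : ∀ l, l.length = k → F l = 0) : S k F = 0 := by
  rw [S_congr k h, S_const_zero]

lemma S_add {R : Type*} [AddCommMonoid R] (k : ℕ) (F G : List ι → R) :
    S k (fun l => F l + G l) = S k F + S k G := by
  induction k generalizing F G with
  | zero => rfl
  | succ k ih => simp [S_succ, ih, Finset.sum_add_distrib]

lemma S_sum {R : Type*} [AddCommMonoid R] {κ : Type*} (s : Finset κ) (k : ℕ)
    (F : κ → List ι → R) :
    S k (fun l => ∑ i ∈ s, F i l) = ∑ i ∈ s, S k (F i) := by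
  induction k generalizing F with
  | zero => rfl
  | succ k ih =>
    simp only [S_succ, ih]
    rw [Finset.sum_comm]

lemma S_mul_left {R : Type*} [NonUnitalNonAssocSemiring R] (k : ℕ) (r : R) (F : List ι → R) :
    S k (fun l => r * F l) = r * S k F := by
  induction k generalizing F with
  | zero => rfl
  | succ k ih => simp [S_succ, ih, Finset.mul_sum]

lemma S_mul_right {R : Type*} [NonUnitalNonAssocSemiring R] (k : ℕ) (r : R) (F : List ι → R) :
    S k (fun l => F l * r) = S k F * r := by
  induction k generalizing F with
  | zero => rfl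
  | succ k ih => simp [S_succ, ih, Finset.sum_mul]

lemma S_map {R R' : Type*} [AddCommMonoid R] [AddCommMonoid R'] (φ : R →+ R') (k : ℕ)
    (F : List ι → R) : φ (S k F) = S k (fun l => φ (F l)) := by
  induction k generalizing F with
  | zero => rfl
  | succ k ih => simp [S_succ, ih]

lemma S_split {R : Type*} [AddCommMonoid R] (i j : ℕ) (F : List ι → R) :
    S (i + j) F = S i (fun a => S j (fun b => F (a ++ b))) := by
  induction i generalizing F with
  | zero => simp
  | succ i ih =>
    rw [show i + 1 + j = (i + j) + 1 by ring]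
    simp only [S_succ, ih, List.cons_append]

lemma S_comm {R : Type*} [AddCommMonoid R] (i j : ℕ) (F : List ι → List ι → R) :
    S i (fun a => S j (fun b => F a b)) = S j (fun b => S i (fun a => F a b)) := by
  induction i generalizing F with
  | zero => rfl
  | succ i ih =>
    simp only [S_succ, ih]
    rw [S_sum]

lemma S_snoc {R : Type*} [AddCommMonoid R] (k : ℕ) (F : List ι → R) :
    S (k + 1) F = ∑ c, S k (fun l => F (l ++ [c])) := by
  rw [S_split]
  simp only [S_succ, S_zero']
  rw [S_sum]

lemma S_reverse {R : Type*} [AddCommMonoid R] (k : ℕ) (F : List ι → R) :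
    S k (fun l => F l.reverse) = S k F := by
  induction k generalizing F with
  | zero => rfl
  | succ k ih =>
    rw [S_succ, S_snoc]
    refine Finset.sum_congr rfl fun c _ => ?_
    simp only [List.reverse_cons]
    exact ih (fun l => F (l ++ [c]))

lemma S_perm {R : Type*} [AddCommMonoid R] (σ : Equiv.Perm ι) (k : ℕ) (F : List ι → R) :
    S k (fun l => F (l.map σ)) = S k F := by
  induction k generalizing F with
  | zero => rfl
  | succ k ih =>
    simp only [S_succ, List.map_cons]
    rw [← Equiv.sum_comp σ (fun c => S k fun l => F (c :: l))]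
    refine Finset.sum_congr rfl fun c _ => ?_
    exact ih (fun l => F (σ c :: l))

lemma S_nonneg (k : ℕ) {F : List ι → ℝ} (h : ∀ l, l.length = k → 0 ≤ F l) : 0 ≤ S k F := by
  induction k generalizing F with
  | zero => exact h [] rfl
  | succ k ih =>
    rw [S_succ]
    exact Finset.sum_nonneg fun c _ => ih fun l hl => h _ (by simp [hl])

lemma S_eq_zero_iff_of_nonneg (k : ℕ) {F : List ι → ℝ} (h : ∀ l, l.length = k → 0 ≤ F l)
    (h0 : S k F = 0) : ∀ l, l.length = k → F l = 0 := by
  induction k generalizing F with
  | zero =>
    intro l hl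
    rw [List.length_eq_zero_iff] at hl
    subst hl
    exact h0
  | succ k ih =>
    rw [S_succ, Finset.sum_eq_zero_iff_of_nonneg
      (fun c _ => S_nonneg k fun l hl => h _ (by simp [hl]))] at h0
    intro l hl
    match l, hl with
    | c :: l, hl =>
      exact ih (F := fun l => F (c :: l)) (fun l hl => h _ (by simp [hl])) (h0 c (by simp)) l
        (by simpa using hl)

lemma S_ofFn {R : Type*} [AddCommMonoid R] (k : ℕ) (F : List ι → R) :
    S k F = ∑ v : Fin k → ι, F (List.ofFn v) := by
  induction k generalizing F with
  | zero => simp [S]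
  | succ k ih =>
    rw [S_succ, ← (Fin.consEquiv (fun _ : Fin (k + 1) => ι)).sum_comp, Fintype.sum_prod_type]
    refine Finset.sum_congr rfl fun c _ => ?_
    rw [ih]
    refine Finset.sum_congr rfl fun v _ => ?_
    simp [Fin.consEquiv, List.ofFn_succ]

end Sums

section Action

variable {ι : Type*} [Fintype ι] {R : Type*} [Semiring R]

/-- `act M l h = ∑ M_{l₁l'₁} ⋯ M_{l_kl'_k} h l'`, the sum over all words `l'` as long as `l`. -/
def act (M : ι → ι → R) : List ι → (List ι → R) → R
  | [], h => h []
  | i :: l, h => ∑ j, M i j * act M l (fun l' => h (j :: l'))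

@[simp] lemma act_nil (M : ι → ι → R) (h : List ι → R) : act M [] h = h [] := rfl

lemma act_cons (M : ι → ι → R) (i : ι) (l : List ι) (h : List ι → R) :
    act M (i :: l) h = ∑ j, M i j * act M l (fun l' => h (j :: l')) := rfl

lemma act_congr (M : ι → ι → R) (l : List ι) {h h' : List ι → R}
    (e : ∀ l', l'.length = l.length → h l' = h' l') : act M l h = act M l h' := by
  induction l generalizing h h' with
  | nil => exact e [] rfl
  | cons i l ih =>
    simp only [act_cons]
    refine Finset.sum_congr rfl fun j _ => ?_
    rw [ih]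
    intro l' hl'
    exact e _ (by simp [hl'])

lemma act_append (M : ι → ι → R) (a b : List ι) (h : List ι → R) :
    act M (a ++ b) h = act M a (fun a' => act M b (fun b' => h (a' ++ b'))) := by
  induction a generalizing h with
  | nil => simp
  | cons i a ih =>
    simp only [List.cons_append, act_cons, ih]

lemma act_zero (M : ι → ι → R) (l : List ι) : act M l (fun _ => 0) = 0 := by
  induction l with
  | nil => rfl
  | cons i l ih => simp [act_cons, ih]

lemma act_add (M : ι → ι → R) (l : List ι) (h h' : List ι → R) :
    act M l (fun x => h x + h' x) = act M l h + act M l h' := by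
  induction l generalizing h h' with
  | nil => rfl
  | cons i l ih => simp [act_cons, ih, mul_add, Finset.sum_add_distrib]

lemma act_sum (M : ι → ι → R) (l : List ι) {κ : Type*} (s : Finset κ) (h : κ → List ι → R) :
    act M l (fun x => ∑ i ∈ s, h i x) = ∑ i ∈ s, act M l (h i) := by
  induction l generalizing h with
  | nil => rfl
  | cons i l ih =>
    simp only [act_cons, ih, Finset.mul_sum]
    rw [Finset.sum_comm]

lemma act_mul_right (M : ι → ι → R) (l : List ι) (h : List ι → R) (r : R) :
    act M l (fun x => h x * r) = act M l h * r := by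
  induction l generalizing h with
  | nil => rfl
  | cons i l ih => simp [act_cons, ih, Finset.sum_mul, mul_assoc]

lemma act_mul_left (M : ι → ι → R) (l : List ι) (h : List ι → R) (r : R)
    (hr : ∀ x, r * x = x * r) :
    act M l (fun x => r * h x) = r * act M l h := by
  induction l generalizing h with
  | nil => rfl
  | cons i l ih =>
    simp only [act_cons, ih, Finset.mul_sum]
    refine Finset.sum_congr rfl fun j _ => ?_
    rw [← mul_assoc, ← hr, mul_assoc]

lemma act_S (M : ι → ι → R) (l : List ι) (k : ℕ) (h : List ι → List ι → R) :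
    act M l (fun x => S k (fun y => h y x)) = S k (fun y => act M l (h y)) := by
  induction k generalizing h with
  | zero => rfl
  | succ k ih => simp only [S_succ, act_sum, ih]

end Action

section Fixed

variable {ι : Type*} [Fintype ι] [DecidableEq ι]

/-- a magic matrix: entries idempotent, orthogonal in rows and columns, with row and column
sums `1`. -/
structure Magic {R : Type*} [Semiring R] (M : ι → ι → R) : Prop where
  row : ∀ i j k, M i j * M i k = if j = k then M i j else 0
  col : ∀ i j k, M j i * M k i = if j = k then M j i else 0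
  rowsum : ∀ i, ∑ j, M i j = 1
  colsum : ∀ j, ∑ i, M i j = 1

variable {K : Type*} [CommRing K] {R : Type*} [Ring R] [Algebra K R]

/-- `h` is fixed by the `k`-th tensor power of `M`. -/
def Fix (M : ι → ι → R) (k : ℕ) (h : List ι → K) : Prop :=
  ∀ l, l.length = k → act M l (fun l' => algebraMap K R (h l')) = algebraMap K R (h l)

lemma Fix.congr {M : ι → ι → R} {k : ℕ} {h h' : List ι → K} (hf : Fix M k h)
    (e : ∀ l, l.length = k → h l = h' l) : Fix M k h' := by
  intro l hl
  rw [← e l hl, ← hf l hl]
  exact act_congr _ _ fun l' hl' => by rw [e l' (by omega)]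

lemma Fix.add {M : ι → ι → R} {k : ℕ} {h h' : List ι → K} (hf : Fix M k h)
    (hf' : Fix M k h') : Fix M k (fun l => h l + h' l) := by
  intro l hl
  simp only [map_add, act_add, hf l hl, hf' l hl]

lemma Fix.smul {M : ι → ι → R} {k : ℕ} {h : List ι → K} (hf : Fix M k h) (c : K) :
    Fix M k (fun l => c * h l) := by
  intro l hl
  simp only [map_mul]
  rw [act_mul_left _ _ _ _ (fun x => Algebra.commutes c x), hf l hl]

/-- merging: `h` is fixed, then `h(..cc..)` is fixed. -/
lemma Fix.merge {M : ι → ι → R} (hM : Magic M) {i j : ℕ} {h : List ι → K}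
    (hf : Fix M (i + j + 2) h) {h' : List ι → K}
    (e : ∀ a c b, a.length = i → b.length = j → h' (a ++ c :: b) = h (a ++ c :: c :: b)) :
    Fix M (i + j + 1) h' := by
  intro l hl
  obtain ⟨a, c, b, rfl, ha, hb⟩ : ∃ a c b, l = a ++ c :: b ∧ a.length = i ∧ b.length = j := by
    refine ⟨l.take i, l[i]'(by omega), l.drop (i + 1), ?_, ?_, ?_⟩
    · rw [← List.drop_eq_getElem_cons, List.take_append_drop]
    · simp; omega
    · simp; omega
  rw [e a c b ha hb, ← hf (a ++ c :: c :: b) (by simp; omega), act_append, act_append]
  refine act_congr _ _ fun a' ha' => ?_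
  simp only [act_cons, Finset.mul_sum]
  refine Finset.sum_congr rfl fun j _ => ?_
  rw [Finset.sum_eq_single j]
  · rw [← mul_assoc, hM.row, if_pos rfl]
    congr 1
    refine act_congr _ _ fun b' hb' => ?_
    rw [e _ _ _ (by omega) (by omega)]
  · intro j' _ hj'
    rw [← mul_assoc, hM.row, if_neg (Ne.symm hj'), zero_mul]
  · simp

/-- summing out a letter. -/
lemma Fix.cap {M : ι → ι → R} (hM : Magic M) {i j : ℕ} {h : List ι → K}
    (hf : Fix M (i + j + 1) h) {h' : List ι → K}
    (e : ∀ a b, a.length = i → b.length = j → h' (a ++ b) = ∑ c, h (a ++ c :: b)) :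
    Fix M (i + j) h' := by
  intro l hl
  obtain ⟨a, b, rfl, ha, hb⟩ : ∃ a b, l = a ++ b ∧ a.length = i ∧ b.length = j := by
    refine ⟨l.take i, l.drop i, ?_, ?_, ?_⟩
    · rw [List.take_append_drop]
    · simp; omega
    · simp; omega
  rw [e a b ha hb, map_sum]
  have : ∀ c, act M (a ++ c :: b) (fun l' => algebraMap K R (h l'))
      = algebraMap K R (h (a ++ c :: b)) := fun c => hf _ (by simp; omega)
  rw [← Finset.sum_congr rfl fun c _ => this c]
  simp only [act_append, act_cons]
  rw [← act_sum]
  refine act_congr _ _ fun a' ha' => ?_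
  rw [Finset.sum_comm]
  simp only [← Finset.sum_mul, hM.colsum, one_mul]
  rw [← act_sum]
  refine act_congr _ _ fun b' hb' => ?_
  rw [e _ _ (by omega) (by omega), map_sum]

end Fixed

end H72QP
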