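import Mathlib

/-! The bicommutant theorem for self-adjoint matrix algebras. -/

namespace H72QP

open Matrix

variable {ι : Type*} [Fintype ι] [DecidableEq ι]

/-- matrices as vectors. -/
noncomputable def mv : Matrix ι ι ℂ →ₗ[ℂ] EuclideanSpace ℂ (ι × ι) where
  toFun X := WithLp.toLp 2 (fun p => X p.1 p.2)
  map_add' X Y := by ext p; simp
  map_smul' c X := by ext p; simp

/-- vectors as matrices. -/
noncomputable def vm : EuclideanSpace ℂ (ι × ι) →ₗ[ℂ] Matrix ι ι ℂ where
  toFun v := Matrix.of fun i j => v (i, j)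
  map_add' X Y := by ext i j; simp
  map_smul' c X := by ext i j; simp

lemma vm_mv (X : Matrix ι ι ℂ) : vm (mv X) = X := rfl

lemma mv_vm (v : EuclideanSpace ℂ (ι × ι)) : mv (vm v) = v := rfl

lemma inner_mv (X Y : Matrix ι ι ℂ) : inner ℂ (mv X) (mv Y) = (Xᴴ * Y).trace := by
  rw [PiLp.inner_apply, Fintype.sum_prod_type, Finset.sum_comm]
  simp only [Matrix.trace, Matrix.diag, Matrix.mul_apply, Matrix.conjTranspose_apply]
  refine Finset.sum_congr rfl fun j _ => Finset.sum_congr rfl fun i _ => ?_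
  simp [mv, mul_comm]

theorem bicomm (𝔅 : Subalgebra ℂ (Matrix ι ι ℂ)) (hstar : ∀ X ∈ 𝔅, Xᴴ ∈ 𝔅) (F : Matrix ι ι ℂ)
    (hF : ∀ T : Matrix ι ι ℂ, (∀ X ∈ 𝔅, T * X = X * T) → T * F = F * T) : F ∈ 𝔅 := by
  let W : Submodule ℂ (EuclideanSpace ℂ (ι × ι)) := (Subalgebra.toSubmodule 𝔅).map mv
  let P : Matrix ι ι ℂ →ₗ[ℂ] Matrix ι ι ℂ :=
    vm ∘ₗ (W.starProjection : EuclideanSpace ℂ (ι × ι) →ₗ[ℂ] EuclideanSpace ℂ (ι × ι)) ∘ₗ mv
  have hPmem : ∀ X, P X ∈ 𝔅 := by
    intro X
    have h1 : W.starProjection (mv X) ∈ W := Submodule.starProjection_apply_mem _ _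
    obtain ⟨Z, hZ, hZ'⟩ := h1
    have h2 : P X = Z := by
      change vm (W.starProjection (mv X)) = Z
      rw [← hZ', vm_mv]
    rw [h2]
    exact hZ
  have hPort : ∀ X, ∀ Z ∈ 𝔅, inner ℂ (mv Z) (mv (X - P X)) = 0 := by
    intro X Z hZ
    have h1 : mv X - W.starProjection (mv X) ∈ Wᗮ := Submodule.sub_starProjection_mem_orthogonal _
    have h2 : mv (X - P X) = mv X - W.starProjection (mv X) := by
      rw [map_sub]; rfl
    rw [h2]
    exact h1 _ ⟨Z, hZ, rfl⟩
  have huniq : ∀ X Z, Z ∈ 𝔅 → (∀ Z' ∈ 𝔅, inner ℂ (mv Z') (mv (X - Z)) = 0) → P X = Z := by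
    intro X Z hZ hort
    have h1 : ∀ Z' ∈ 𝔅, inner ℂ (mv Z') (mv (P X - Z)) = 0 := by
      intro Z' hZ'
      have h2 : mv (P X - Z) = mv (X - Z) - mv (X - P X) := by
        rw [← map_sub]; congr 1; abel
      rw [h2, inner_sub_right, hort Z' hZ', hPort X Z' hZ', sub_zero]
    have h3 := h1 (P X - Z) (𝔅.sub_mem (hPmem X) hZ)
    have h4 : mv (P X - Z) = 0 := by
      exact inner_self_eq_zero.1 h3
    have h5 : P X - Z = 0 := by
      have := congrArg vm h4
      rwa [vm_mv, map_zero] at this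
    exact sub_eq_zero.1 h5
  have hPid : ∀ X ∈ 𝔅, P X = X := fun X hX => huniq X X hX fun Z' _ => by simp
  have hPmul : ∀ A ∈ 𝔅, ∀ X, P (A * X) = A * P X := by
    intro A hA X
    refine huniq _ _ (𝔅.mul_mem hA (hPmem X)) fun Z' hZ' => ?_
    rw [← mul_sub, inner_mv]
    have h1 : Z'ᴴ * (A * (X - P X)) = (Aᴴ * Z')ᴴ * (X - P X) := by
      rw [conjTranspose_mul, conjTranspose_conjTranspose, mul_assoc]
    rw [h1, ← inner_mv]
    exact hPort X _ (𝔅.mul_mem (hstar A hA) hZ')
  -- the commuting matrices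
  have hcomm : ∀ i j : ι, ∀ X ∈ 𝔅,
      (Matrix.of fun x y => P (Matrix.single y i 1) x j) * X =
        X * (Matrix.of fun x y => P (Matrix.single y i 1) x j) := by
    intro i j X hX
    ext x z
    have e1 : ((Matrix.of fun x y => P (Matrix.single y i 1) x j) * X) x z =
        P (X * Matrix.single z i 1) x j := by
      have h1 : X * Matrix.single z i 1 = ∑ y, X y z • Matrix.single y i (1 : ℂ) := by
        ext a b
        rw [Matrix.sum_apply]
        simp only [Matrix.smul_apply, Matrix.single, Matrix.of_apply, Matrix.mul_apply]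
        by_cases hib : i = b
        · subst hib
          simp
        · simp [hib]
      rw [h1, map_sum, Matrix.sum_apply, Matrix.mul_apply]
      refine Finset.sum_congr rfl fun y _ => ?_
      rw [map_smul, Matrix.smul_apply, Matrix.of_apply, smul_eq_mul, mul_comm]
    rw [e1, hPmul X hX, Matrix.mul_apply, Matrix.mul_apply]
    rfl
  have key : P F = F := by
    ext x j
    have h1 : F = ∑ i, ∑ y, F y i • Matrix.single y i (1 : ℂ) := by
      ext a b
      simp only [Matrix.sum_apply, Matrix.smul_apply, Matrix.single, Matrix.of_apply]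
      simp [Finset.sum_ite_eq, ite_and]
    have h2 : P F x j = ∑ i, ((Matrix.of fun x y => P (Matrix.single y i 1) x j) * F) x i := by
      conv_lhs => rw [h1]
      simp only [map_sum, Matrix.sum_apply, map_smul, Matrix.smul_apply, Matrix.mul_apply,
        Matrix.of_apply, smul_eq_mul]
      exact Finset.sum_congr rfl fun i _ => Finset.sum_congr rfl fun y _ => mul_comm _ _
    rw [h2]
    have h3 : ∀ i, ((Matrix.of fun x y => P (Matrix.single y i 1) x j) * F) x i =
        ∑ y, F x y * P (Matrix.single i i 1) y j := by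
      intro i
      rw [hF _ (hcomm i j), Matrix.mul_apply]
      rfl
    simp only [h3]
    rw [Finset.sum_comm]
    have h4 : ∀ y, ∑ i, F x y * P (Matrix.single i i 1) y j = F x y * (1 : Matrix ι ι ℂ) y j := by
      intro y
      rw [← Finset.mul_sum]
      congr 1
      have h5 : (1 : Matrix ι ι ℂ) = ∑ i, Matrix.single i i (1 : ℂ) := by
        ext a b
        simp only [Matrix.sum_apply, Matrix.single, Matrix.of_apply, Matrix.one_apply]
        simp [ite_and]
      conv_rhs => rw [← hPid 1 𝔅.one_mem]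
      rw [h5, map_sum, Matrix.sum_apply]
    simp only [h4]
    rw [← Matrix.mul_apply, mul_one]
  rw [← key]
  exact hPmem F

end H72QP
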