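import Pool.Agent.H72.QP.Odd3

/-! Uncappable functions: closure properties; the odd case closed by irreducibility. -/

namespace H72QP

open Finset

section Closure

variable {ι : Type*} [Fintype ι]

lemma V.add {p q : ℕ} {f g : List ι → ℝ} (hf : V p q f) (hg : V p q g) :
    V p q (fun l => f l + g l) := by
  constructor
  · intro a b hab
    rw [Finset.sum_add_distrib, hf.cap a b hab, hg.cap a b hab, add_zero]
  · intro a c b hab hne
    rw [hf.mrg a c b hab hne, hg.mrg a c b hab hne, add_zero]

lemma V.smul {p q : ℕ} {f : List ι → ℝ} (hf : V p q f) (r : ℝ) :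
    V p q (fun l => r * f l) := by
  constructor
  · intro a b hab
    rw [← Finset.mul_sum, hf.cap a b hab, mul_zero]
  · intro a c b hab hne
    rw [hf.mrg a c b hab hne, mul_zero]

lemma V.smul' {p q : ℕ} {f : List ι → ℝ} (hf : V p q f) (r : ℝ) :
    V p q (fun l => f l * r) := by
  constructor
  · intro a b hab
    rw [← Finset.sum_mul, hf.cap a b hab, zero_mul]
  · intro a c b hab hne
    rw [hf.mrg a c b hab hne, zero_mul]

lemma V.zero' {p q : ℕ} : V (ι := ι) p q (fun _ => 0) :=
  ⟨fun _ _ _ => by simp, fun _ _ _ _ _ => rfl⟩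

lemma V.congr {p q : ℕ} {f g : List ι → ℝ} (hf : V p q f)
    (e : ∀ l, l.length = p + q → f l = g l) : V p q g := by
  constructor
  · intro a b hab
    rw [← hf.cap a b hab]
    exact Finset.sum_congr rfl fun c _ => (e _ (by simp; omega)).symm
  · intro a c b hab hne
    rw [← hf.mrg a c b hab hne]
    exact (e _ (by simp; omega)).symm

lemma V.S {p q : ℕ} (k : ℕ) {f : List ι → List ι → ℝ} (hf : ∀ a, a.length = k → V p q (f a)) :
    V p q (fun l => S k (fun a => f a l)) := by
  constructor
  · intro a b hab
    rw [← S_sum]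
    exact S_eq_zero k fun x hx => (hf x hx).cap a b hab
  · intro a c b hab hne
    exact S_eq_zero k fun x hx => (hf x hx).mrg a c b hab hne

/-- a function of two words, uncappable in each of them. -/
lemma V_of_split {p q : ℕ} {y : List ι → ℝ} {Z : List ι → List ι → ℝ}
    (e : ∀ a b, a.length = p → b.length = q → y (a ++ b) = Z a b)
    (h1 : ∀ b, b.length = q → V 0 p (fun a => Z a b))
    (h2 : ∀ a, a.length = p → V 0 q (fun b => Z a b)) : V p q y := by
  constructor
  · intro a b hab
    rcases Nat.lt_or_ge a.length p with hlt | hge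
    · obtain ⟨b1, b2, rfl, hb1, hb2⟩ := split0 (l := b) (i := p - a.length - 1) (j := q) (by omega)
      have : ∀ d, y (a ++ d :: (b1 ++ b2)) = Z (a ++ d :: b1) b2 := by
        intro d
        have := e (a ++ d :: b1) b2 (by simp; omega) hb2
        simpa using this
      simp only [this]
      exact (h1 b2 hb2).cap a b1 (by omega)
    · obtain ⟨a1, a2, rfl, ha1, ha2⟩ := split0 (l := a) (i := p) (j := a.length - p) (by omega)
      have : ∀ d, y ((a1 ++ a2) ++ d :: b) = Z a1 (a2 ++ d :: b) := by
        intro d
        have := e a1 (a2 ++ d :: b) ha1 (by simp at hab ⊢; omega)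
        simpa using this
      simp only [this]
      exact (h2 a1 ha1).cap a2 b (by simp at hab; omega)
  · intro a c b hab hne
    rcases Nat.lt_or_ge a.length p with hlt | hge
    · obtain ⟨b1, b2, rfl, hb1, hb2⟩ := split0 (l := b) (i := p - a.length - 2) (j := q) (by omega)
      have := e (a ++ c :: c :: b1) b2 (by simp; omega) hb2
      have e2 : a ++ c :: c :: (b1 ++ b2) = (a ++ c :: c :: b1) ++ b2 := by simp
      rw [e2, this]
      exact (h1 b2 hb2).mrg a c b1 (by omega) (by omega)
    · obtain ⟨a1, a2, rfl, ha1, ha2⟩ := split0 (l := a) (i := p) (j := a.length - p) (by omega)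
      have := e a1 (a2 ++ c :: c :: b) ha1 (by simp at hab ⊢; omega)
      rw [List.append_assoc, this]
      exact (h2 a1 ha1).mrg a2 c b (by simp at hab; omega) (by omega)

lemma V.left {p q : ℕ} {h : List ι → ℝ} (hV : V 0 (p + q) h) (b : List ι) (hb : b.length = q) :
    V 0 p (fun a => h (a ++ b)) := by
  constructor
  · intro a1 a2 ha
    have := hV.cap a1 (a2 ++ b) (by simp; omega)
    simpa using this
  · intro a1 c a2 ha _
    have := hV.mrg a1 c (a2 ++ b) (by simp; omega) (by omega)
    simpa using this

lemma V.right {p q : ℕ} {h : List ι → ℝ} (hV : V 0 (p + q) h) (a : List ι) (ha : a.length = p) :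
    V 0 q (fun b => h (a ++ b)) := by
  constructor
  · intro b1 b2 hb
    have := hV.cap (a ++ b1) b2 (by simp; omega)
    simpa using this
  · intro b1 c b2 hb _
    have := hV.mrg (a ++ b1) c b2 (by simp; omega) (by omega)
    simpa using this

lemma V.rev {p : ℕ} {h : List ι → ℝ} (hV : V 0 p h) : V 0 p (fun a => h a.reverse) := by
  constructor
  · intro a b hab
    have := hV.cap b.reverse a.reverse (by simp; omega)
    simpa using this
  · intro a c b hab _
    have := hV.mrg b.reverse c a.reverse (by simp; omega) (by omega)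
    simpa using this

end Closure

section Tens

variable {N : ℕ}

/-- pure tensors as functions. -/
def tens {ι : Type*} : List (ι → ℝ) → List ι → ℝ
  | x :: xs, i :: l => x i * tens xs l
  | _, _ => 1

lemma ext_eq_S {ι : Type*} [Fintype ι] (xs : List (ι → ℝ)) (h : List ι → ℝ) :
    ext xs h = S xs.length (fun l => tens xs l * h l) := by
  induction xs generalizing h with
  | nil => simp [tens, ext]
  | cons x xs ih =>
    rw [ext_cons, List.length_cons, S_succ]
    refine Finset.sum_congr rfl fun i _ => ?_
    rw [ih, smul_eq_mul, ← S_mul_left]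
    exact S_congr _ fun l _ => by simp [tens, mul_assoc]

lemma tens_append {ι : Type*} (xs ys : List (ι → ℝ)) (a b : List ι) (h : a.length = xs.length) :
    tens (xs ++ ys) (a ++ b) = tens xs a * tens ys b := by
  induction xs generalizing a with
  | nil =>
    have : a = [] := by simpa using h
    subst this
    simp [tens]
  | cons x xs ih =>
    match a, h with
    | i :: a, h =>
      simp only [List.cons_append, tens]
      rw [ih a (by simpa using h), mul_assoc]

lemma sum_yv (b : Bool) : ∑ i : I N, yv b i = 0 := by
  rw [sum_I]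
  cases b <;> simp [yv]

lemma sum_yv_sq (b : Bool) : ∑ i : I N, yv b i * yv b i = 2 := by
  rw [sum_I]
  cases b <;> simp [yv] <;> norm_num

lemma yv_mul_not (b : Bool) (i : I N) : yv b i * yv (!b) i = 0 := by
  unfold yv
  match i with
  | Sum.inl (b', s) => cases b <;> cases b' <;> cases s <;> simp
  | Sum.inr c => simp

lemma V_tens (i q : ℕ) : V 0 q (tens (Y (N := N) i q)) := by
  constructor
  · intro a b hab
    have e : Y (N := N) i q = Y i a.length ++ yv (L (i + a.length)) ::
        Y (i + a.length + 1) b.length := by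
      rw [show q = a.length + (b.length + 1) by omega, Y_append, Y_succ]
    rw [e]
    have : ∀ c, tens (Y i a.length ++ yv (L (i + a.length)) ::
        Y (i + a.length + 1) b.length) (a ++ c :: b) =
        yv (N := N) (L (i + a.length)) c *
          (tens (Y i a.length) a * tens (Y (i + a.length + 1) b.length) b) := by
      intro c
      rw [tens_append _ _ _ _ (by simp)]
      simp only [tens]
      ring
    simp only [this]
    rw [← Finset.sum_mul, sum_yv, zero_mul]
  · intro a c b hab _
    have e : Y (N := N) i q = Y i a.length ++ yv (L (i + a.length)) ::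
        yv (L (i + a.length + 1)) :: Y (i + a.length + 1 + 1) b.length := by
      rw [show q = a.length + (b.length + 1 + 1) by omega, Y_append, Y_succ, Y_succ]
    rw [e, tens_append _ _ _ _ (by simp)]
    simp only [tens]
    rw [← mul_assoc (yv (L (i + a.length)) c), L_succ, yv_mul_not]
    ring

lemma S_tens_sq (i q : ℕ) :
    S q (fun l => tens (Y (N := N) i q) l * tens (Y (N := N) i q) l) = 2 ^ q := by
  induction q generalizing i with
  | zero => simp [Y, tens]
  | succ q ih =>
    rw [S_succ, Y_succ]
    have : ∀ c, S q (fun l => tens (yv (L i) :: Y (N := N) (i + 1) q) (c :: l) *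
        tens (yv (L i) :: Y (N := N) (i + 1) q) (c :: l)) = (yv (L i) c * yv (L i) c) * 2 ^ q := by
      intro c
      rw [← ih (i + 1), ← S_mul_left]
      refine S_congr q fun l _ => ?_
      simp only [tens]
      ring
    simp only [this]
    rw [← Finset.sum_mul, sum_yv_sq, pow_succ]
    ring

end Tens

section Contract

variable {ι : Type*} [Fintype ι] [DecidableEq ι] {R : Type*} [Ring R] [Algebra ℝ R]

/-- the kernel `T^t T`. -/
def ker2 (p q : ℕ) (h : List ι → ℝ) : List ι → ℝ := fun l =>
  S q (fun b => h (l.take p ++ b) * h ((l.drop p).reverse ++ b))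

omit [DecidableEq ι] in
lemma ker2_eq (p q : ℕ) (h : List ι → ℝ) (a b : List ι) (ha : a.length = p) :
    ker2 p q h (a ++ b) = S q (fun x => h (a ++ x) * h (b.reverse ++ x)) := by
  unfold ker2
  rw [List.take_left' ha, List.drop_left' ha]

omit [DecidableEq ι] in
lemma ker2_V {p q : ℕ} {h : List ι → ℝ} (hV : V 0 (p + q) h) : V p p (ker2 p q h) := by
  refine V_of_split (fun a b ha _ => ker2_eq p q h a b ha) ?_ ?_
  · intro b _
    exact V.S q fun x hx => (hV.left x hx).smul' _
  · intro a _
    exact V.S q fun x hx => ((hV.left x hx).rev).smul _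

lemma ker2_isG {M : ι → ι → R} (hM : Magic M) (hs : ∀ i j, M i j = M j i) {p q : ℕ}
    {h : List ι → ℝ} (hh : IsG M (p + q) h) : IsG M (p + p) (ker2 p q h) := by
  constructor
  · rw [fix_iff_mix hM]
    refine (Mix.contract hs ((fix_iff_mix hM p q h).1 hh.fix)).congr ?_
    intro l l' hl hl'
    rw [ker2_eq p q h _ _ (by simpa using hl)]
  · intro σ
    rw [fix_permM_iff]
    intro l hl
    unfold ker2
    rw [← S_perm σ q (fun b => h ((l.map σ).take p ++ b) * h (((l.map σ).drop p).reverse ++ b))]
    refine S_congr q fun b hb => ?_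
    have e1 : (l.map σ).take p ++ b.map σ = (l.take p ++ b).map σ := by
      simp [List.map_take]
    have e2 : ((l.map σ).drop p).reverse ++ b.map σ = ((l.drop p).reverse ++ b).map σ := by
      simp [List.map_drop]
    rw [e1, e2, hh.perm σ _ (by simp; omega), hh.perm σ _ (by simp; omega)]

end Contract

section Step2

variable {N : ℕ}

theorem step2 {m q : ℕ} {h : List (I N) → ℝ} (hh : IsG (U (N := N)) (m + q) h)
    (hV : V 0 (m + q) h)
    (prev : ∀ x : List (I N) → ℝ, IsG (U (N := N)) (m + m) x → Gen ℝ (m + m) x)
    (hT : ∀ l', l'.length = q → S m (fun l => tens (Y (N := N) 0 m) l * h (l.reverse ++ l')) = 0) :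
    ∀ l, l.length = m + q → h l = 0 := by
  set x := ker2 m q h with hx
  have hxV : V m m x := ker2_V hV
  have hxG : Gen ℝ (m + m) x := prev x (ker2_isG magic_U U_symm hh)
  obtain ⟨c, -, hc⟩ := (irr hxG).1 m m rfl
  set w := tens (Y (N := N) 0 m) with hw
  -- the test function
  set y : List (I N) → ℝ := fun l => w (l.take m).reverse * w (l.drop m) with hy
  have ey : ∀ a b : List (I N), a.length = m → b.length = m → y (a ++ b) = w a.reverse * w b := by
    intro a b ha _
    simp only [hy, List.take_left' ha, List.drop_left' ha]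
  have hyV : V m m y := by
    refine V_of_split ey ?_ ?_
    · intro b _
      exact ((V_tens 0 m).rev).smul' _
    · intro a _
      exact (V_tens 0 m).smul _
  have h1 := hc y hyV
  have h2 : S (m + m) (fun l => x l * y l) = 0 := by
    rw [S_two]
    have e1 : ∀ a b : List (I N), a.length = m → b.length = m →
        x (a.reverse ++ b) * y (a.reverse ++ b) =
        S q (fun z => (w a * h (a.reverse ++ z)) * (w b * h (b.reverse ++ z))) := by
      intro a b ha hb
      rw [hx, ker2_eq m q h _ _ (by simpa using ha), ey _ _ (by simpa using ha) hb,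
        List.reverse_reverse, ← S_mul_right]
      exact S_congr q fun z _ => by ring
    rw [S_congr m fun a ha => S_congr m fun b hb => e1 a b ha hb]
    rw [S_congr m fun a _ => S_comm m q _, S_comm]
    refine S_eq_zero q fun z hz => ?_
    have e2 : ∀ a, S m (fun b => w a * h (a.reverse ++ z) * (w b * h (b.reverse ++ z))) =
        (w a * h (a.reverse ++ z)) * S m (fun b => w b * h (b.reverse ++ z)) := by
      intro a
      rw [← S_mul_left]
    simp only [e2, hT z hz, mul_zero]
    exact S_const_zero m
  have h3 : S m (fun a => y (a.reverse ++ a)) = 2 ^ m := by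
    rw [← S_tens_sq (N := N) 0 m]
    refine S_congr m fun a ha => ?_
    rw [ey _ _ (by simpa using ha) ha, List.reverse_reverse]
  rw [h2, h3] at h1
  have hc0 : c = 0 := by
    rcases mul_eq_zero.1 h1.symm with h4 | h4
    · exact h4
    · exact absurd h4 (by positivity)
  have h4 := hc x hxV
  rw [hc0, zero_mul] at h4
  have h5 := S_eq_zero_iff_of_nonneg (m + m) (fun l _ => mul_self_nonneg (x l)) h4
  intro l hl
  obtain ⟨a, b, rfl, ha, hb⟩ := split0 hl
  have h6 := h5 (a ++ a.reverse) (by simp [ha])
  have h7 : x (a ++ a.reverse) = 0 := by simpa using h6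
  rw [hx, ker2_eq m q h _ _ ha, List.reverse_reverse] at h7
  have h8 := S_eq_zero_iff_of_nonneg q (fun z _ => mul_self_nonneg _) h7 b hb
  simpa using h8

lemma fun_zero_of_ext {k : ℕ} {H : List (I N) → ℝ}
    (hH : ∀ zs : List (I N → ℝ), zs.length = k → ext zs H = 0) (l : List (I N))
    (hl : l.length = k) : H l = 0 := by
  have key : ∀ (l : List (I N)) (H : List (I N) → ℝ),
      ext (l.map (fun c i => if i = c then (1 : ℝ) else 0)) H = H l := by
    intro l
    induction l with
    | nil => intro H; rfl
    | cons c l ih =>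
      intro H
      rw [List.map_cons, ext_cons]
      simp only [ih]
      simp
  rw [← key l H]
  exact hH _ (by simpa using hl)

/-- the odd case. -/
theorem main_odd (m : ℕ) {h : List (I N) → ℝ} (hh : IsG (U (N := N)) (m + (m + 1)) h)
    (hV : V 0 (m + (m + 1)) h)
    (prev : ∀ x : List (I N) → ℝ, IsG (U (N := N)) (m + m) x → Gen ℝ (m + m) x) :
    ∀ l, l.length = m + (m + 1) → h l = 0 := by
  refine step2 hh hV prev fun l' hl' => ?_
  have h1 := fun_zero_of_ext (Hw_zero hh hV) l' hl'
  rw [Hw, ext_eq_S, Y_length] at h1
  exact h1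

end Step2

end H72QP
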