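import Pool.Agent.H72.QP.Close

/-! The even case, part one: the identity. -/

namespace H72QP

open Finset

variable {N : ℕ}

lemma ext_cap {k : ℕ} {h : List (I N) → ℝ} (hV : V 0 k h) (P R : List (I N → ℝ))
    (hl : P.length + R.length + 1 = k) : ext (P ++ (fun _ => 1) :: R) h = 0 := by
  rw [ext_mid]
  simp only [one_smul]
  rw [← ext_sum]
  refine ext_eq_zero P fun l hl1 => ?_
  rw [← ext_sum]
  refine ext_eq_zero R fun l' hl2 => ?_
  exact hV.cap l l' (by omega)

lemma ext_merge {k : ℕ} {h : List (I N) → ℝ} (hV : V 0 k h) (P R : List (I N → ℝ))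
    (hl : P.length + R.length + 2 = k) (u v u' v' : I N → ℝ)
    (huv : ∀ i j, i ≠ j → u i * v j + u' i * v' j = 0) :
    ext (P ++ u :: v :: R) h + ext (P ++ u' :: v' :: R) h = 0 := by
  rw [ext_two, ext_two, ← Finset.sum_add_distrib]
  refine Finset.sum_eq_zero fun i _ => ?_
  rw [← Finset.sum_add_distrib]
  refine Finset.sum_eq_zero fun j _ => ?_
  rw [← add_smul]
  by_cases hij : i = j
  · subst hij
    rw [ext_eq_zero P fun l hl1 => ext_eq_zero R fun l' hl2 =>
      hV.mrg l i l' (by omega) (by omega), smul_zero]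
  · rw [huv i j hij, zero_smul]

section Ident

variable {s : ℕ} {h : List (I N) → ℝ}

/-- the two middle slots. -/
def Q (s : ℕ) (h : List (I N) → ℝ) (x x' : I N → ℝ) : ℝ :=
  ext ((Y 1 s).reverse ++ x :: x' :: Y 1 s) h

lemma Q_eq (s : ℕ) (h : List (I N) → ℝ) (x x' : I N → ℝ) :
    Q s h x x' = E2 h (x :: Y 1 s) (x' :: Y 1 s) := by
  rw [E2_eq, Q]; simp

lemma Q_add_left (x y x' : I N → ℝ) : Q s h (x + y) x' = Q s h x x' + Q s h y x' :=
  ext_mid_add _ _ _ _ _

lemma Q_smul_left (c : ℝ) (x x' : I N → ℝ) : Q s h (c • x) x' = c * Q s h x x' :=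
  ext_mid_smul _ _ _ _ _

lemma Q_sum_left {κ : Type*} (t : Finset κ) (x : κ → I N → ℝ) (x' : I N → ℝ) :
    Q s h (∑ c ∈ t, x c) x' = ∑ c ∈ t, Q s h (x c) x' := ext_mid_sum _ _ _ _ _

lemma Q_right (x x' : I N → ℝ) :
    Q s h x x' = ext (((Y 1 s).reverse ++ [x]) ++ x' :: Y 1 s) h := by
  rw [Q]; simp

lemma Q_add_right (x y x' : I N → ℝ) : Q s h x (x' + y) = Q s h x x' + Q s h x y := by
  simp only [Q_right]
  exact ext_mid_add _ _ _ _ _

lemma Q_sum_right {κ : Type*} (t : Finset κ) (x : κ → I N → ℝ) (x' : I N → ℝ) :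
    Q s h x' (∑ c ∈ t, x c) = ∑ c ∈ t, Q s h x' (x c) := by
  simp only [Q_right]
  exact ext_mid_sum _ _ _ _ _

lemma Only_Y (hf : Fix (U (N := N)) ((s + 1) + (s + 1)) h) :
    Only (seg 0 (s + 1)) (fun l' => ext (Y 0 (s + 1)) (fun l => h (l.reverse ++ l'))) := by
  intro xs τ hx hl hne
  rw [ext_comm]
  refine E2_vanish hf (forall_Y 0 (s + 1)) hx (by simp at hl ⊢; omega) ?_
  intro hW
  exact hne (eq_of_W_eq (alt_seg 0 (s + 1)) (by rw [← hx.length_eq, hl]) hW.symm)

lemma E2_Y (hf : Fix (U (N := N)) ((s + 1) + (s + 1)) h) (zs : List (I N → ℝ))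
    (hl : zs.length = s + 1) :
    E2 h (Y 0 (s + 1)) zs = prodc (seg 0 (s + 1)) zs * E2 h (Y 0 (s + 1)) (Y 0 (s + 1)) := by
  have := E1 (Only_Y hf) zs (by simpa using hl)
  rw [ext_comm] at this
  unfold E2
  rw [this, ext_comm]
  rfl

lemma Q_th (hh : IsG (U (N := N)) ((s + 1) + (s + 1)) h) (c : Fin N) (x : I N → ℝ)
    (hx : HasTy x none) :
    Q s h (th (L 0) c) x = cf (L 0) (fun i => x (gs (L 0) c i)) * Q s h (yv (L 0)) (yv (L 0)) := by
  set b := L 0 with hb
  set σ := gs b c with hσdef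
  have hσ : ∀ i, σ (σ i) = i := gs_gs b c
  have hpos := prodc_pos σ (fun b' => cf_gs_pos b b' c)
  have hYs : yv b :: Y 1 s = Y (N := N) 0 (s + 1) := by rw [Y_succ]
  have hseg : seg 0 (s + 1) = b :: seg 1 s := seg_succ 0 s
  -- right side
  have e1 : E2 h (gact σ (Y 0 (s + 1))) (x :: Y 1 s) =
      cf b (fun i => x (σ i)) * prodc (seg 1 s) (gact σ (Y 1 s)) *
        E2 h (Y 0 (s + 1)) (Y 0 (s + 1)) := by
    rw [← E2_gact_left hh σ hσ _ _ (by simp), E2_Y hh.fix _ (by simp), hseg, gact_cons,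
      prodc_cons]
  -- left side
  have e2 : E2 h (gact σ (Y 0 (s + 1))) (x :: Y 1 s) =
      prodc (seg 1 s) (gact σ (Y 1 s)) * E2 h (th b c :: Y 1 s) (x :: Y 1 s) := by
    obtain ⟨G, hG⟩ : ∃ G : List (I N) → ℝ,
      G = fun l => ext (x :: Y 1 s) fun l' => h (l.reverse ++ l') := ⟨_, rfl⟩
    have hE : ∀ zs, E2 h zs (x :: Y 1 s) = ext zs G := fun zs => by rw [hG]; rfl
    rw [← hYs, gact_cons, hE, hE]
    have h1 := ext_comp [] (gact σ (Y 1 s)) (fun i => yv b (σ i)) G b
    simp only [List.nil_append] at h1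
    rw [h1, comp0_gs]
    have h3' : ext (yv b :: gact σ (Y 1 s)) G = 0 := by
      rw [ext_cons']
      refine E0 s _ (fun xs τ hxs hl => ?_) _ (by simp)
      rw [← ext_cons', ← hE]
      refine E2_vanish hh.fix (List.Forall₂.cons (hasTy_yv b) hxs)
        (List.Forall₂.cons hx (forall_Y 1 s)) (by simp [hl]) ?_
      intro hW
      rw [W_cons, W_cons] at hW
      simp only [wt, one_mul] at hW
      have h2 : W τ = W ((seg 0 (s + 1)).map some) := by
        rw [hseg, List.map_cons, W_cons, ← hW, ← mul_assoc]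
        simp only [wt]
        rw [refl_sq, one_mul]
      exact W_ne_of_lt (alt_seg 0 (s + 1)) (by rw [← hxs.length_eq]; simp; omega) h2
    rw [h3', cf_gs_not, mul_zero, zero_mul, add_zero, add_zero]
    rw [ext_cons', ext_cons' (th b c) (Y 1 s)]
    refine E1 (ω := seg 1 s) ?_ _ (by simp)
    intro xs τ hxs hl hne
    rw [← ext_cons', ← hE]
    refine E2_vanish hh.fix (List.Forall₂.cons (hasTy_th b c) hxs)
          (List.Forall₂.cons hx (forall_Y 1 s)) (by simp at hl; simp [hl]) ?_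
    intro hW
    rw [W_cons, W_cons] at hW
    simp only [wt, one_mul] at hW
    exact hne (eq_of_W_eq (alt_seg 1 s) (by rw [← hxs.length_eq, hl]) hW)
  have hκ := hpos (seg 1 s)
  change 0 < prodc (seg 1 s) (gact σ (Y 1 s)) at hκ
  rw [e1] at e2
  rw [Q_eq, Q_eq, hYs]
  have h4 : prodc (seg 1 s) (gact σ (Y 1 s)) *
      (E2 h (th b c :: Y 1 s) (x :: Y 1 s) -
        cf b (fun i => x (σ i)) * E2 h (Y 0 (s + 1)) (Y 0 (s + 1))) = 0 := by
    linarith
  rcases mul_eq_zero.1 h4 with h5 | h5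
  · exact absurd h5 hκ.ne'
  · linarith

lemma yy_oo (b : Bool) (i j : I N) (hij : i ≠ j) :
    yv b i * yv b j + onev b i * onev b j = 0 := by
  unfold yv onev
  by_cases h1 : i = Sum.inl (b, false) <;> by_cases h2 : i = Sum.inl (b, true) <;>
    by_cases h3 : j = Sum.inl (b, false) <;> by_cases h4 : j = Sum.inl (b, true) <;>
    simp_all

lemma one_eq' (b : Bool) : (fun _ => 1 : I N → ℝ) = onev b + onev (!b) + ∑ c, ev c := by
  rw [one_eq]
  cases b
  · simp only [Bool.not_false]; abel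
  · simp only [Bool.not_true]

theorem ident (hh : IsG (U (N := N)) ((s + 1) + (s + 1)) h) (hV : V 0 ((s + 1) + (s + 1)) h) :
    Q s h (yv (!L 0)) (yv (!L 0)) = ((N + 1) * (N + 2) / 2) * Q s h (yv (L 0)) (yv (L 0)) := by
  set b := L 0 with hb
  obtain ⟨K, hK⟩ : ∃ K, K = Q s h (yv b) (yv b) := ⟨_, rfl⟩
  have hm : ∀ u v u' v' : I N → ℝ, (∀ i j, i ≠ j → u i * v j + u' i * v' j = 0) →
      Q s h u v + Q s h u' v' = 0 := fun u v u' v' huv =>
    ext_merge hV _ _ (by simp; omega) u v u' v' huv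
  have h1 : ∀ b', Q s h (onev b') (onev b') = - Q s h (yv b') (yv b') := by
    intro b'
    have := hm _ _ _ _ (yy_oo b')
    linarith
  have h2 : ∀ c : Fin N, Q s h (ev c) (ev c) = 0 := by
    intro c
    have := hm (ev c) (ev c) 0 0 (fun i j hij => by
      by_cases h1 : i = Sum.inr c
      · have h2 : j ≠ Sum.inr c := fun h2 => hij (h1.trans h2.symm)
        simp [ev, h2]
      · simp [ev, h1])
    have h0 : Q s h 0 0 = 0 := by
      have := Q_smul_left (s := s) (h := h) 0 0 0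
      simpa using this
    linarith
  have hc1 : ∀ x : I N → ℝ, Q s h (fun _ => 1) x = 0 := fun x =>
    ext_cap hV _ _ (by simp; omega)
  have hc2 : ∀ x : I N → ℝ, Q s h x (fun _ => 1) = 0 := fun x => by
    rw [Q_right]; exact ext_cap hV _ _ (by simp; omega)
  -- the relation with a further letter
  have h3 : ∀ (c : Fin N) (x : I N → ℝ), HasTy x none → Q s h (ev c) x =
      (1/2) * Q s h (onev b) x + cf b (fun i => x (gs b c i)) * K := by
    intro c x hx
    have := Q_th hh c x hx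
    rw [th, Q_add_left, Q_smul_left, ← hb, ← hK] at this
    linarith
  have hev : ∀ c : Fin N, HasTy (ev c) none := fun c => hasTy_triv fun b => cf_ev b c
  have hone : ∀ b', HasTy (onev (N := N) b') none := fun b' =>
    hasTy_triv fun b => cf_onev b b'
  have h4 : ∀ c : Fin N, Q s h (onev b) (ev c) = - K := by
    intro c
    have := h3 c (ev c) (hev c)
    rw [h2] at this
    have e : cf b (fun i => ev c (gs b c i)) = 1 / 2 := by
      simp [cf, ev, gs, Equiv.swap_apply_def]
    rw [e] at this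
    linarith
  have h5 : Q s h (onev b) (onev (!b)) = (N + 1) * K := by
    have := hc2 (onev b)
    rw [one_eq' b, Q_add_right, Q_add_right, Q_sum_right, h1, ← hK] at this
    simp only [h4, Finset.sum_const, Finset.card_univ, Fintype.card_fin, nsmul_eq_mul] at this
    linarith
  have h6 : ∀ c : Fin N, Q s h (ev c) (onev (!b)) = (1/2) * ((N + 1) * K) := by
    intro c
    have := h3 c (onev (!b)) (hone _)
    rw [h5] at this
    have e : cf b (fun i => onev (!b) (gs b c i)) = 0 := by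
      cases b <;> simp [cf, onev, gs, Equiv.swap_apply_def]
    rw [e] at this
    linarith
  have h7 : Q s h (onev (!b)) (onev (!b)) = - ((N + 1) * (N + 2) / 2 * K) := by
    have := hc1 (onev (!b))
    rw [one_eq' b, Q_add_left, Q_add_left, Q_sum_left, h5] at this
    simp only [h6, Finset.sum_const, Finset.card_univ, Fintype.card_fin, nsmul_eq_mul] at this
    linarith
  rw [← hK]
  have := h1 (!b)
  rw [h7] at this
  linarith

end Ident

end H72QP
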