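import Pool.Agent.H72.QP.Even

/-! The even case: conclusion. -/

namespace H72QP

open Finset

variable {N : ℕ}

section Pair

variable {ι : Type*} [Fintype ι]

/-- the pairing of `h` with `v ⊗ v'`. -/
def B (r : ℕ) (h v v' : List ι → ℝ) : ℝ :=
  S r (fun a => S r (fun b => v a * v' b * h (a.reverse ++ b)))

/-- the operator attached to `h`. -/
def T (r : ℕ) (h v : List ι → ℝ) : List ι → ℝ := fun b => S r (fun a => v a * h (a.reverse ++ b))

lemma B_eq_T (r : ℕ) (h v v' : List ι → ℝ) : B r h v v' = S r (fun b => v' b * T r h v b) := by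
  unfold B T
  rw [S_comm]
  refine S_congr r fun b _ => ?_
  rw [← S_mul_left]
  exact S_congr r fun a _ => by ring

lemma exists_pureT (r : ℕ) {v : List ι → ℝ} (hv : V 0 r v) : ∃ y : List ι → ℝ, V r r y ∧
    (∀ f : List ι → ℝ, S (r + r) (fun l => f l * y l) = B r f v v) ∧
    S r (fun a => y (a.reverse ++ a)) = S r (fun a => v a * v a) := by
  refine ⟨fun l => v (l.take r).reverse * v (l.drop r), ?_, ?_, ?_⟩
  · refine V_of_split (Z := fun a b => v a.reverse * v b) ?_ ?_ ?_
    · intro a b ha _
      simp only [List.take_left' ha, List.drop_left' ha]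
    · intro b _
      exact (hv.rev).smul' _
    · intro a _
      exact hv.smul _
  · intro f
    rw [S_two]
    refine S_congr r fun a ha => S_congr r fun b hb => ?_
    have ha' : a.reverse.length = r := by simpa using ha
    simp only [List.take_left' ha', List.drop_left' ha', List.reverse_reverse]
    ring
  · refine S_congr r fun a ha => ?_
    have ha' : a.reverse.length = r := by simpa using ha
    simp only [List.take_left' ha', List.drop_left' ha', List.reverse_reverse]

lemma B_ker2 (r : ℕ) (h v : List ι → ℝ) :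
    B r (ker2 r r h) v v = S r (fun b => T r h v b * T r h v b) := by
  unfold B
  have e1 : ∀ a b : List ι, a.length = r → b.length = r →
      v a * v b * ker2 r r h (a.reverse ++ b) =
      S r (fun x => (v a * h (a.reverse ++ x)) * (v b * h (b.reverse ++ x))) := by
    intro a b ha hb
    rw [ker2_eq r r h _ _ (by simpa using ha), ← S_mul_left]
    exact S_congr r fun x _ => by ring
  rw [S_congr r fun a ha => S_congr r fun b hb => e1 a b ha hb]
  rw [S_congr r fun a _ => S_comm r r _, S_comm]
  refine S_congr r fun x _ => ?_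
  have e2 : ∀ a, S r (fun b => v a * h (a.reverse ++ x) * (v b * h (b.reverse ++ x))) =
      (v a * h (a.reverse ++ x)) * T r h v x := fun a => by
    unfold T
    rw [← S_mul_left]
  simp only [e2]
  rw [S_mul_right]
  rfl

lemma exists_delta [DecidableEq ι] (r : ℕ) (b0 : List ι) (hb0 : b0.length = r) :
    ∃ f : List ι → ℝ, V 0 r f ∧ ∀ Φ : List ι → ℝ, V 0 r Φ → S r (fun a => f a * Φ a) = Φ b0 := by
  obtain ⟨f, g, hf, hfg, hg⟩ := exists_proj r (V 0 r) V.zero' (fun _ _ h1 h2 => h1.add h2)
    (fun c _ h1 => h1.smul c) (fun _ _ h1 e => h1.congr fun l hl => e l (by omega))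
    (fun l => if l = b0 then 1 else 0)
  refine ⟨f, hf, fun Φ hΦ => ?_⟩
  have h1 := hg Φ hΦ
  have h2 : S r (fun l => Φ l * (if l = b0 then 1 else 0)) = Φ b0 := by
    have key : ∀ (r : ℕ) (b0 : List ι) (Φ : List ι → ℝ), b0.length = r →
        S r (fun l => Φ l * (if l = b0 then 1 else 0)) = Φ b0 := by
      intro r
      induction r with
      | zero =>
        intro b0 Φ hb
        rw [List.length_eq_zero_iff] at hb
        subst hb
        simp
      | succ r ih =>
        intro b0 Φ hb
        match b0, hb with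
        | i :: b0, hb =>
          rw [S_succ, Finset.sum_eq_single i]
          · have := ih b0 (fun l => Φ (i :: l)) (by simpa using hb)
            rw [← this]
            refine S_congr r fun l _ => ?_
            simp
          · intro j _ hj
            refine S_eq_zero r fun l _ => ?_
            rw [if_neg, mul_zero]
            intro h
            injection h with h1 _
            exact hj h1
          · simp
    exact key r b0 Φ hb0
  rw [← h2]
  have h3 : S r (fun l => Φ l * (if l = b0 then 1 else 0)) =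
      S r (fun l => f l * Φ l) + S r (fun l => Φ l * g l) := by
    rw [← S_add]
    refine S_congr r fun l hl => ?_
    rw [hfg l hl]; ring
  rw [h3, h1, add_zero]

end Pair

section Main

lemma E2_eq_B (r : ℕ) (h : List (I N) → ℝ) (xs zs : List (I N → ℝ)) (hx : xs.length = r)
    (hz : zs.length = r) : E2 h xs zs = B r h (tens xs) (tens zs) := by
  unfold E2 B
  rw [ext_eq_S, hx]
  refine S_congr r fun a _ => ?_
  rw [ext_eq_S, hz, ← S_mul_left]
  exact S_congr r fun b _ => by ring

lemma sum_mul_yv (z : I N → ℝ) (b : Bool) : ∑ i, z i * yv b i = 2 * cf b z := by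
  rw [sum_I]
  cases b <;> simp [yv, cf] <;> ring

lemma ext_tens_Y (i q : ℕ) (zs : List (I N → ℝ)) (hz : zs.length = q) :
    ext zs (tens (Y (N := N) i q)) = 2 ^ q * prodc (seg i q) zs := by
  induction q generalizing i zs with
  | zero =>
    have : zs = [] := by simpa using hz
    subst this
    simp [Y, tens]
  | succ q ih =>
    match zs, hz with
    | z :: zs, hz =>
      have hz' : zs.length = q := by simpa using hz
      rw [ext_cons, Y_succ, seg_succ, prodc_cons]
      have : ∀ c, ext zs (fun l => tens (yv (L i) :: Y (N := N) (i + 1) q) (c :: l)) =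
          yv (L i) c * (2 ^ q * prodc (seg (i + 1) q) zs) := by
        intro c
        rw [← ih (i + 1) zs hz', ← smul_eq_mul, ← ext_smul]
        exact ext_congr _ fun l _ => by simp [tens]
      simp only [this, smul_eq_mul]
      simp only [← mul_assoc]
      rw [← Finset.sum_mul, ← Finset.sum_mul, sum_mul_yv, pow_succ]
      ring

lemma S_tens_yv_cons (b : Bool) (s : ℕ) :
    S (s + 1) (fun l => tens (yv b :: Y (N := N) 1 s) l * tens (yv b :: Y (N := N) 1 s) l) =
      2 ^ (s + 1) := by
  rw [S_succ]
  have : ∀ c, S s (fun l => tens (yv b :: Y (N := N) 1 s) (c :: l) *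
      tens (yv b :: Y (N := N) 1 s) (c :: l)) = (yv b c * yv b c) * 2 ^ s := by
    intro c
    rw [← S_tens_sq (N := N) 1 s, ← S_mul_left]
    refine S_congr s fun l _ => ?_
    simp only [tens]
    ring
  simp only [this]
  rw [← Finset.sum_mul, sum_yv_sq, pow_succ]
  ring

lemma tens_Y_one (i q : ℕ) : ∃ l : List (I N), l.length = q ∧ tens (Y (N := N) i q) l = 1 := by
  induction q generalizing i with
  | zero => exact ⟨[], rfl, by simp [Y, tens]⟩
  | succ q ih =>
    obtain ⟨l, hl, h1⟩ := ih (i + 1)
    refine ⟨Sum.inl (L i, false) :: l, by simp [hl], ?_⟩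
    rw [Y_succ]
    simp only [tens, h1, mul_one]
    simp [yv]

/-- the even case with at least four letters. -/
theorem main_even (s : ℕ) (hs : 1 ≤ s) {h : List (I N) → ℝ}
    (hh : IsG (U (N := N)) ((s + 1) + (s + 1)) h) (hV : V 0 ((s + 1) + (s + 1)) h)
    (prev : ∀ x : List (I N) → ℝ, IsG (U (N := N)) (s + (s + 1)) x → Gen ℝ (s + (s + 1)) x) :
    ∀ l, l.length = (s + 1) + (s + 1) → h l = 0 := by
  obtain ⟨r, hr⟩ : ∃ r, r = s + 1 := ⟨_, rfl⟩
  rw [← hr] at hh hV ⊢
  obtain ⟨ξ, hξ⟩ : ∃ ξ, ξ = tens (Y (N := N) 0 r) := ⟨_, rfl⟩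
  have hξV : V 0 r ξ := by rw [hξ]; exact V_tens 0 r
  have hξ2 : S r (fun l => ξ l * ξ l) = 2 ^ r := by rw [hξ]; exact S_tens_sq 0 r
  obtain ⟨c, hc⟩ : ∃ c, c = B r h ξ ξ / 2 ^ r := ⟨_, rfl⟩
  have h2r : (0 : ℝ) < 2 ^ r := by positivity
  have hcK : B r h ξ ξ = c * 2 ^ r := by rw [hc]; field_simp
  -- T ξ = c ξ
  have hTξ : ∀ b, b.length = r → T r h ξ b = c * ξ b := by
    intro b hb
    have key : ∀ zs : List (I N → ℝ), zs.length = r →
        ext zs (fun b => T r h ξ b + (-c) * ξ b) = 0 := by
      intro zs hzs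
      rw [ext_add]
      have e1 : ext zs (fun b => (-c) * ξ b) = (-c) * (2 ^ r * prodc (seg 0 r) zs) := by
        rw [← ext_tens_Y (N := N) 0 r zs hzs, ← hξ]
        exact ext_smul zs (-c) ξ
      have e2 : ext zs (fun b => T r h ξ b) = prodc (seg 0 r) zs * B r h ξ ξ := by
        have e3 : ext zs (fun b => T r h ξ b) = E2 h (Y 0 r) zs := by
          rw [E2_eq_B r h _ _ (by simp) hzs, ← hξ, B_eq_T, ext_eq_S, hzs]
        rw [e3, hr, E2_Y (hr ▸ hh.fix) zs (by omega), ← hr, E2_eq_B r h _ _ (by simp) (by simp),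
          ← hξ]
      rw [e1, e2, hcK]
      ring
    have := fun_zero_of_ext key b hb
    linarith
  -- the function x
  obtain ⟨x, hx⟩ : ∃ x : List (I N) → ℝ, x = fun l => ker2 r r h l + (-(2 * c)) * h l := ⟨_, rfl⟩
  have hxG : IsG (U (N := N)) (r + r) x := by
    rw [hx]; exact (ker2_isG magic_U U_symm hh).add (hh.smul _)
  obtain ⟨f, h', hf, hh', hV', hfh⟩ : ∃ f g : List (I N) → ℝ, Gen ℝ (r + r) f ∧
      IsG (U (N := N)) (r + r) g ∧ V 0 (r + r) g ∧ ∀ l, l.length = r + r → x l = f l + g l := by
    have e : r + r = (s + (s + 1)) + 1 := by omega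
    rw [e] at hxG ⊢
    exact decomp magic_U _ prev x hxG
  obtain ⟨lam, -, hlam⟩ := (irr hf).1 r r rfl
  obtain ⟨μ, hμ⟩ : ∃ μ, μ = lam + c ^ 2 := ⟨_, rfl⟩
  -- main quadratic identity
  have quad : ∀ v : List (I N) → ℝ, V 0 r v →
      S r (fun b => (T r h v b - c * v b) * (T r h v b - c * v b)) =
        μ * S r (fun b => v b * v b) + B r h' v v := by
    intro v hv
    obtain ⟨y, hyV, hy1, hy2⟩ := exists_pureT r hv
    have e1 : B r f v v = lam * S r (fun a => v a * v a) := by
      rw [← hy1, hlam y hyV, hy2]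
    have e2 : B r x v v = B r f v v + B r h' v v := by
      rw [← hy1, ← hy1, ← hy1, ← S_add]
      exact S_congr _ fun l hl => by rw [hfh l hl]; ring
    have e3 : B r x v v = S r (fun b => T r h v b * T r h v b) - 2 * c * B r h v v := by
      have e5 : S (r + r) (fun l => x l * y l) =
          S (r + r) (fun l => ker2 r r h l * y l) + (-(2 * c)) * S (r + r) (fun l => h l * y l) := by
        rw [← S_mul_left, ← S_add]
        exact S_congr _ fun l _ => by rw [hx]; ring
      rw [hy1, hy1, hy1, B_ker2] at e5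
      rw [e5]
      ring
    have e4 : S r (fun b => (T r h v b - c * v b) * (T r h v b - c * v b)) =
        S r (fun b => T r h v b * T r h v b) + (-(2 * c)) * B r h v v +
          c ^ 2 * S r (fun b => v b * v b) := by
      rw [B_eq_T, ← S_mul_left, ← S_mul_left, ← S_add, ← S_add]
      exact S_congr _ fun l hl => by ring
    rw [e4, hμ]
    linarith
  -- evaluation at ξ
  have hK' : B r h' ξ ξ = -(μ * 2 ^ r) := by
    have h1 := quad ξ hξV
    rw [hξ2] at h1
    have h2 : S r (fun b => (T r h ξ b - c * ξ b) * (T r h ξ b - c * ξ b)) = 0 := by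
      refine S_eq_zero r fun b hb => ?_
      rw [hTξ b hb]; ring
    rw [h2] at h1
    linarith
  -- the vector η
  obtain ⟨η, hη⟩ : ∃ η, η = tens (yv (!L 0) :: Y (N := N) 1 s) := ⟨_, rfl⟩
  have hη2 : S r (fun l => η l * η l) = 2 ^ r := by
    rw [hη, hr]; exact S_tens_yv_cons _ s
  have hBη : B r h' η η = ((N + 1) * (N + 2) / 2) * B r h' ξ ξ := by
    have h1 := ident (s := s) (hr ▸ hh') (hr ▸ hV')
    rw [Q_eq, Q_eq, E2_eq_B r _ _ _ (by simp [hr]) (by simp [hr]),
      E2_eq_B r _ _ _ (by simp [hr]) (by simp [hr]), ← Y_succ, ← hr] at h1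
    rw [hη, hξ]
    exact h1
  obtain ⟨v, v', hv, hvv, hort⟩ := exists_proj r (V 0 r) V.zero' (fun _ _ h1 h2 => h1.add h2)
    (fun c _ h1 => h1.smul c) (fun _ _ h1 e => h1.congr fun l hl => e l (by omega)) η
  have hVr : ∀ a : List (I N), a.length = r → V 0 r (fun b => h' (a.reverse ++ b)) := fun a ha =>
    hV'.right a.reverse (by simpa using ha)
  have hVl : ∀ b : List (I N), b.length = r → V 0 r (fun a => h' (a.reverse ++ b)) := fun b hb =>
    (hV'.left b hb).rev
  have hBv : B r h' η η = B r h' v v := by
    have e1 : B r h' η η = B r h' η v := by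
      unfold B
      refine S_congr r fun a ha => ?_
      have e2 : S r (fun b => η a * η b * h' (a.reverse ++ b)) =
          S r (fun b => η a * v b * h' (a.reverse ++ b)) +
            η a * S r (fun b => h' (a.reverse ++ b) * v' b) := by
        rw [← S_mul_left, ← S_add]
        refine S_congr r fun b hb => ?_
        rw [hvv b hb]; ring
      rw [e2, hort _ (hVr a ha), mul_zero, add_zero]
    rw [e1]
    unfold B
    rw [S_comm, S_comm r r (fun a b => v a * v b * h' (a.reverse ++ b))]
    refine S_congr r fun b hb => ?_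
    have e2 : S r (fun a => η a * v b * h' (a.reverse ++ b)) =
        S r (fun a => v a * v b * h' (a.reverse ++ b)) +
          v b * S r (fun a => h' (a.reverse ++ b) * v' a) := by
      rw [← S_mul_left, ← S_add]
      refine S_congr r fun a ha => ?_
      rw [hvv a ha]; ring
    rw [e2, hort _ (hVl b hb), mul_zero, add_zero]
  -- norms
  have hnorm : S r (fun b => η b * η b) =
      S r (fun b => v b * v b) + S r (fun b => v' b * v' b) := by
    have e1 : S r (fun b => η b * η b) = S r (fun b => v b * v b) + S r (fun b => v' b * v' b) +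
        2 * S r (fun b => v b * v' b) := by
      rw [← S_mul_left, ← S_add, ← S_add]
      refine S_congr r fun b hb => ?_
      rw [hvv b hb]; ring
    rw [e1, hort v hv, mul_zero, add_zero]
  have hv'pos : 0 < S r (fun b => v' b * v' b) := by
    rcases (S_nonneg r (F := fun b => v' b * v' b) fun l _ => mul_self_nonneg _).lt_or_eq with h1 | h1
    · exact h1
    · exfalso
      have h2 := S_eq_zero_iff_of_nonneg r (fun l _ => mul_self_nonneg (v' l)) h1.symm
      have hηV : V 0 r η := hv.congr fun l hl => by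
        have h3 : v' l = 0 := by
          have := h2 l (by omega)
          simpa using this
        rw [hvv l (by omega), h3, add_zero]
      obtain ⟨t, ht⟩ : ∃ t, s = t + 1 := ⟨s - 1, by omega⟩
      obtain ⟨l, hl, hl1⟩ := tens_Y_one (N := N) 2 t
      have h4 := hηV.mrg [] (Sum.inl (L 1, false)) l (by simp; omega) (by simp)
      rw [hη, ht, Y_succ] at h4
      simp only [List.nil_append, tens] at h4
      rw [hl1, L_succ 0] at h4
      simp [yv] at h4
  have hμ0 : μ ≤ 0 := by
    have h1 := quad v hv
    have h2 : 0 ≤ S r (fun b => (T r h v b - c * v b) * (T r h v b - c * v b)) :=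
      S_nonneg r fun l _ => mul_self_nonneg _
    rw [h1, ← hBv, hBη, hK'] at h2
    by_contra hneg
    push Not at hneg
    have h3 : S r (fun b => v b * v b) < 2 ^ r := by linarith
    have hN : (0 : ℝ) ≤ N := Nat.cast_nonneg N
    have h4 : (1 : ℝ) ≤ (N + 1) * (N + 2) / 2 := by nlinarith
    have h5 : μ * S r (fun b => v b * v b) < μ * 2 ^ r := by
      exact mul_lt_mul_of_pos_left h3 hneg
    have h6 : μ * 2 ^ r ≤ ((N + 1) * (N + 2) / 2) * (μ * 2 ^ r) := by
      have : 0 ≤ μ * 2 ^ r := by positivity
      nlinarith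
    linarith
  -- reproducing vectors
  have hdiag : ∀ (g : List (I N) → ℝ), V 0 (r + r) g → ∀ (f : List (I N) → ℝ) (b0 : List (I N)),
      b0.length = r → V 0 r f →
      (∀ Φ : List (I N) → ℝ, V 0 r Φ → S r (fun a => f a * Φ a) = Φ b0) → B r g f f = 0 := by
    intro g hg f b0 hb0 hfV hfrep
    rw [B_eq_T]
    have e1 : ∀ b, b.length = r → T r g f b = g (b0.reverse ++ b) := by
      intro b hb
      exact hfrep (fun a => g (a.reverse ++ b)) (hg.left b hb).rev
    rw [S_congr r fun b hb => by rw [e1 b hb]]
    rw [hfrep (fun b => g (b0.reverse ++ b)) (hg.right b0.reverse (by simpa using hb0))]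
    match b0, hb0 with
    | i :: b1, hb0 =>
      have hb1 : b1.length = s := by simp at hb0; omega
      have := hg.mrg b1.reverse i b1 (by simp; omega) (by omega)
      simpa using this
    | [], hb0 => simp at hb0; omega
  have hrep : ∀ b0 : List (I N), b0.length = r → ∃ f : List (I N) → ℝ, V 0 r f ∧
      (∀ Φ : List (I N) → ℝ, V 0 r Φ → S r (fun a => f a * Φ a) = Φ b0) ∧
      (∀ b, b.length = r → T r h f b = c * f b) ∧ c * S r (fun b => f b * f b) = 0 := by
    intro b0 hb0
    obtain ⟨f, hfV, hfrep⟩ := exists_delta r b0 hb0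
    have h1 := quad f hfV
    rw [hdiag h' hV' f b0 hb0 hfV hfrep, add_zero] at h1
    have h2 : 0 ≤ S r (fun b => (T r h f b - c * f b) * (T r h f b - c * f b)) :=
      S_nonneg r fun l _ => mul_self_nonneg _
    have h3 : 0 ≤ S r (fun b => f b * f b) := S_nonneg r fun l _ => mul_self_nonneg _
    have h4 : μ * S r (fun b => f b * f b) ≤ 0 := mul_nonpos_of_nonpos_of_nonneg hμ0 h3
    have h5 : S r (fun b => (T r h f b - c * f b) * (T r h f b - c * f b)) = 0 := by linarith
    have h6 := S_eq_zero_iff_of_nonneg r (fun l _ => mul_self_nonneg _) h5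
    have h7 : ∀ b, b.length = r → T r h f b = c * f b := by
      intro b hb
      have := h6 b hb
      have h8 : T r h f b - c * f b = 0 := by simpa using this
      linarith
    refine ⟨f, hfV, hfrep, h7, ?_⟩
    have h8 := hdiag h hV f b0 hb0 hfV hfrep
    rw [B_eq_T] at h8
    rw [← h8, ← S_mul_left]
    exact S_congr r fun b hb => by rw [h7 b hb]; ring
  have hc0 : c = 0 := by
    by_contra hne
    have h1 : ∀ b0, b0.length = r → ξ b0 = 0 := by
      intro b0 hb0
      obtain ⟨f, hfV, hfrep, -, h3⟩ := hrep b0 hb0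
      have h4 : S r (fun b => f b * f b) = 0 := by
        rcases mul_eq_zero.1 h3 with h5 | h5
        · exact absurd h5 hne
        · exact h5
      have h5 := S_eq_zero_iff_of_nonneg r (fun l _ => mul_self_nonneg (f l)) h4
      rw [← hfrep ξ hξV]
      refine S_eq_zero r fun b hb => ?_
      have : f b = 0 := by simpa using h5 b hb
      rw [this, zero_mul]
    have h2 : S r (fun l => ξ l * ξ l) = 0 := S_eq_zero r fun b hb => by rw [h1 b hb, zero_mul]
    rw [hξ2] at h2
    exact h2r.ne' h2
  intro l hl
  obtain ⟨a, b, rfl, ha, hb⟩ := split0 hl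
  obtain ⟨f, hfV, hfrep, h3, -⟩ := hrep a.reverse (by simpa using ha)
  have h4 := h3 b hb
  rw [hc0, zero_mul] at h4
  have h5 := hfrep (fun a => h (a.reverse ++ b)) (hV.left b hb).rev
  have h6 : T r h f b = h (a ++ b) := by
    unfold T
    rw [h5, List.reverse_reverse]
  rw [← h6, h4]

end Main

/-- the case of two letters. -/
theorem main_two {ι : Type*} [Fintype ι] [DecidableEq ι] {R : Type*} [Ring R] [Algebra ℝ R]
    {M : ι → ι → R} {h : List ι → ℝ} (hh : IsG M 2 h) (hV : V 0 2 h) (hcard : 2 ≤ Fintype.card ι) :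
    ∀ l, l.length = 2 → h l = 0 := by
  intro l hl
  match l, hl with
  | [i, j], _ =>
    by_cases hij : i = j
    · subst hij
      exact hV.mrg [] i [] rfl (by simp)
    · have h1 := hV.cap [i] [] rfl
      have h2 : ∀ k, k ≠ i → h [i, k] = h [i, j] := by
        intro k hk
        have := hh.perm (Equiv.swap j k) [i, j] rfl
        rw [← this]
        have e : Equiv.swap j k i = i := Equiv.swap_apply_of_ne_of_ne hij (Ne.symm hk)
        simp [e]
      have h3 : ∀ k, h ([i] ++ [k]) = if k = i then 0 else h [i, j] := by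
        intro k
        split_ifs with hk
        · subst hk
          exact hV.mrg [] k [] rfl (by simp)
        · exact h2 k hk
      simp only [h3] at h1
      rw [Finset.sum_ite, Finset.sum_const_zero, zero_add, Finset.sum_const, nsmul_eq_mul] at h1
      rcases mul_eq_zero.1 h1 with h4 | h4
      · exfalso
        have h5 : (Finset.univ.filter fun k => ¬ k = i).card = 0 := by exact_mod_cast h4
        rw [Finset.card_eq_zero] at h5
        have : j ∈ (Finset.univ.filter fun k => ¬ k = i) := by
          simp [Ne.symm hij]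
        rw [h5] at this
        simp at this
      · exact h4

end H72QP
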