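import Pool.Agent.H72.QP.Model

/-! Expansion in eigenvectors. -/

namespace H72QP

open Finset

variable {N : ℕ}

lemma ext_act {xs : List (I N → ℝ)} {τs : List Ty} (h : List.Forall₂ HasTy xs τs)
    (F : List (I N) → Matrix (Fin 2) (Fin 2) ℝ) :
    ext xs (fun l => act U l F) = W τs * ext xs F := by
  induction h generalizing F with
  | nil => simp
  | @cons x t xs τs hx _ ih =>
    have h1 : ∀ i, ext xs (fun l => act U (i :: l) F) =
        ∑ j, U i j * (W τs * ext xs (fun l => F (j :: l))) := by
      intro i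
      simp only [act_cons]
      rw [ext_sum]
      refine Finset.sum_congr rfl fun j _ => ?_
      have := ext_map (LinearMap.mulLeft ℝ (U i j)) xs (fun l => act U l fun l' => F (j :: l'))
      simp only [LinearMap.mulLeft_apply] at this
      rw [← this, ih]
    rw [ext_cons]
    simp only [h1, Finset.smul_sum]
    rw [Finset.sum_comm, ext_cons, W_cons, Finset.mul_sum]
    refine Finset.sum_congr rfl fun j _ => ?_
    simp only [← smul_mul_assoc]
    rw [← Finset.sum_mul, hx j, smul_mul_assoc, mul_smul_comm, mul_assoc]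

lemma typed_vanish {k : ℕ} {h : List (I N) → ℝ} (hf : Fix (U (N := N)) k h)
    {xs : List (I N → ℝ)} {τs : List Ty} (hx : List.Forall₂ HasTy xs τs)
    (hl : xs.length = k) (hW : W τs ≠ 1) : ext xs h = 0 := by
  by_contra hne
  have h1 := ext_act hx (fun l => algebraMap ℝ (Matrix (Fin 2) (Fin 2) ℝ) (h l))
  have h2 : ext xs (fun l => act U l fun l => algebraMap ℝ (Matrix (Fin 2) (Fin 2) ℝ) (h l)) =
      ext xs (fun l => algebraMap ℝ (Matrix (Fin 2) (Fin 2) ℝ) (h l)) :=
    ext_congr xs fun l hl' => hf l (by omega)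
  have h3 := ext_map (Algebra.linearMap ℝ (Matrix (Fin 2) (Fin 2) ℝ)) xs h
  simp only [Algebra.linearMap_apply] at h3
  rw [h2, ← h3, Algebra.algebraMap_eq_smul_one, mul_smul_comm, mul_one] at h1
  exact hW (smul_right_injective _ hne h1).symm

/-- two-sided contraction. -/
def E2 (h : List (I N) → ℝ) (xs zs : List (I N → ℝ)) : ℝ :=
  ext xs (fun l => ext zs (fun l' => h (l.reverse ++ l')))

lemma E2_eq (h : List (I N) → ℝ) (xs zs : List (I N → ℝ)) :
    E2 h xs zs = ext (xs.reverse ++ zs) h := by
  rw [ext_append, ext_reverse]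
  rfl

lemma E2_vanish {k : ℕ} {h : List (I N) → ℝ} (hf : Fix (U (N := N)) k h)
    {xs zs : List (I N → ℝ)} {σs τs : List Ty} (hx : List.Forall₂ HasTy xs σs)
    (hz : List.Forall₂ HasTy zs τs) (hl : xs.length + zs.length = k) (hW : W σs ≠ W τs) :
    E2 h xs zs = 0 := by
  rw [E2_eq]
  refine typed_vanish hf (τs := σs.reverse ++ τs) ?_ (by simpa using hl) ?_
  · exact List.rel_append (List.forall₂_reverse_iff.2 hx) hz
  · intro h1
    apply hW
    rw [W_append] at h1
    have h2 := congrArg (fun Z => W σs * Z) h1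
    simp only [mul_one, ← mul_assoc, W_mul_reverse, one_mul] at h2
    exact h2.symm

/-- components. -/
noncomputable def comp0 (x : I N → ℝ) : I N → ℝ :=
  x + ((-(cf true x)) • yv true + (-(cf false x)) • yv false)

lemma cf_yv (b b' : Bool) : cf b (yv (N := N) b') = if b = b' then 1 else 0 := by
  cases b <;> cases b' <;> simp [cf, yv]
  all_goals norm_num

lemma cf_add (b : Bool) (x x' : I N → ℝ) : cf b (x + x') = cf b x + cf b x' := by
  simp [cf]; ring

lemma cf_smul (b : Bool) (r : ℝ) (x : I N → ℝ) : cf b (r • x) = r * cf b x := by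
  simp [cf]; ring

lemma cf_comp0 (b : Bool) (x : I N → ℝ) : cf b (comp0 x) = 0 := by
  rw [comp0]
  simp only [cf_add, cf_smul, cf_yv]
  cases b <;> simp

lemma hasTy_comp0 (x : I N → ℝ) : HasTy (comp0 x) none := hasTy_triv fun b => cf_comp0 b x

lemma ext_comp (P Q : List (I N → ℝ)) (z : I N → ℝ) (H : List (I N) → ℝ) (b : Bool) :
    ext (P ++ z :: Q) H = ext (P ++ comp0 z :: Q) H + cf b z * ext (P ++ yv b :: Q) H +
      cf (!b) z * ext (P ++ yv (!b) :: Q) H := by
  rw [comp0, ext_mid_add, ext_mid_add, ext_mid_smul, ext_mid_smul]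
  cases b <;> simp <;> ring

theorem E0 (m : ℕ) (H : List (I N) → ℝ)
    (hH : ∀ xs τs, List.Forall₂ HasTy xs τs → xs.length = m → ext xs H = 0) :
    ∀ zs : List (I N → ℝ), zs.length = m → ext zs H = 0 := by
  induction m generalizing H with
  | zero =>
    intro zs hzs
    rw [List.length_eq_zero_iff] at hzs
    subst hzs
    exact hH [] [] List.Forall₂.nil rfl
  | succ m ih =>
    intro zs hzs
    match zs, hzs with
    | z :: zs, hzs =>
      have key : ∀ (x : I N → ℝ) (t : Ty), HasTy x t → ext (x :: zs) H = 0 := by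
        intro x t hx
        rw [ext_cons']
        refine ih _ (fun xs τs hxs hl => ?_) zs (by simpa using hzs)
        rw [← ext_cons']
        exact hH (x :: xs) (t :: τs) (List.Forall₂.cons hx hxs) (by simp [hl])
      have := ext_comp [] zs z H true
      simp only [List.nil_append] at this
      rw [this, key _ _ (hasTy_comp0 z), key _ _ (hasTy_yv _), key _ _ (hasTy_yv _)]
      simp

/-- the only type with a nonzero contraction is `ω`. -/
def Only (ω : List Bool) (H : List (I N) → ℝ) : Prop :=
  ∀ xs τs, List.Forall₂ HasTy xs τs → xs.length = ω.length → τs ≠ ω.map some → ext xs H = 0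

/-- product of coefficients. -/
noncomputable def prodc : List Bool → List (I N → ℝ) → ℝ
  | b :: ω, z :: zs => cf b z * prodc ω zs
  | _, _ => 1

@[simp] lemma prodc_nil (zs : List (I N → ℝ)) : prodc [] zs = 1 := by cases zs <;> rfl

@[simp] lemma prodc_cons (b : Bool) (ω : List Bool) (z : I N → ℝ) (zs : List (I N → ℝ)) :
    prodc (b :: ω) (z :: zs) = cf b z * prodc ω zs := rfl

lemma prodc_append (ω ω' : List Bool) (zs zs' : List (I N → ℝ)) (h : zs.length = ω.length) :
    prodc (ω ++ ω') (zs ++ zs') = prodc ω zs * prodc ω' zs' := by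
  induction ω generalizing zs with
  | nil =>
    have : zs = [] := by simpa using h
    subst this
    simp
  | cons b ω ih =>
    match zs, h with
    | z :: zs, h =>
      simp only [List.cons_append, prodc_cons]
      rw [ih zs (by simpa using h), mul_assoc]

theorem E1 {ω : List Bool} {H : List (I N) → ℝ} (h : Only ω H) (zs : List (I N → ℝ))
    (hl : zs.length = ω.length) : ext zs H = prodc ω zs * ext (ω.map yv) H := by
  induction ω generalizing H zs with
  | nil =>
    have : zs = [] := by simpa using hl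
    subst this
    simp
  | cons b ω ih =>
    match zs, hl with
    | z :: zs, hl =>
      have hl' : zs.length = ω.length := by simpa using hl
      have key : ∀ (x : I N → ℝ) (t : Ty), HasTy x t → t ≠ some b → ext (x :: zs) H = 0 := by
        intro x t hx ht
        rw [ext_cons']
        refine E0 zs.length _ (fun xs τs hxs hl2 => ?_) zs rfl
        rw [← ext_cons']
        refine h (x :: xs) (t :: τs) (List.Forall₂.cons hx hxs) (by simp [hl2, hl']) ?_
        simp [ht]
      have h1 := ext_comp [] zs z H b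
      simp only [List.nil_append] at h1
      rw [h1, key _ _ (hasTy_comp0 z) (by simp), key _ _ (hasTy_yv (!b)) (by simp)]
      have h2 : ext (yv b :: zs) H = prodc ω zs * ext ((b :: ω).map yv) H := by
        rw [ext_cons', List.map_cons, ext_cons' (yv b) (ω.map yv)]
        refine ih ?_ zs hl'
        intro xs τs hxs hl2 hne
        rw [← ext_cons']
        refine h (yv b :: xs) (some b :: τs) (List.Forall₂.cons (hasTy_yv b) hxs)
          (by simp [hl2]) ?_
        simpa using hne
      rw [h2, prodc_cons]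
      ring

/-- the letter at position `j`. -/
def L (j : ℕ) : Bool := j.bodd

lemma L_succ (j : ℕ) : L (j + 1) = !L j := Nat.bodd_succ j

/-- alternating segments. -/
def seg (i q : ℕ) : List Bool := (List.range' i q).map L

@[simp] lemma seg_zero (i : ℕ) : seg i 0 = [] := rfl

lemma seg_succ (i q : ℕ) : seg i (q + 1) = L i :: seg (i + 1) q := by
  simp [seg, List.range'_succ]

@[simp] lemma seg_length (i q : ℕ) : (seg i q).length = q := by simp [seg]

lemma seg_append (i p q : ℕ) : seg i (p + q) = seg i p ++ seg (i + p) q := by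
  rw [seg, seg, seg, ← List.map_append]
  congr 1
  have := List.range'_append_1 (s := i) (m := p) (n := q)
  exact this.symm

lemma alt_seg (i q : ℕ) : Alt (seg i q) := by
  induction q generalizing i with
  | zero => trivial
  | succ q ih =>
    rw [seg_succ]
    match q with
    | 0 => trivial
    | q + 1 =>
      rw [seg_succ]
      refine ⟨?_, ?_⟩
      · rw [L_succ]; simp
      · have := ih (i + 1)
        rwa [seg_succ] at this

lemma alt_not_seg (i q : ℕ) : Alt ((!L i) :: seg i q) := by
  match q with
  | 0 => trivial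
  | q + 1 =>
    have := alt_seg i (q + 1)
    rw [seg_succ] at this ⊢
    exact ⟨by simp, this⟩

lemma forall_yv (ω : List Bool) : List.Forall₂ HasTy (ω.map (yv (N := N))) (ω.map some) := by
  induction ω with
  | nil => exact List.Forall₂.nil
  | cons b ω ih => exact List.Forall₂.cons (hasTy_yv b) ih

/-- the alternating tensor. -/
def Y (i q : ℕ) : List (I N → ℝ) := (seg i q).map yv

@[simp] lemma Y_length (i q : ℕ) : (Y (N := N) i q).length = q := by simp [Y]

lemma Y_succ (i q : ℕ) : Y (N := N) i (q + 1) = yv (L i) :: Y (i + 1) q := by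
  rw [Y, seg_succ]; rfl

lemma Y_append (i p q : ℕ) : Y (N := N) i (p + q) = Y i p ++ Y (i + p) q := by
  rw [Y, seg_append, List.map_append]; rfl

lemma Y_snoc (i p : ℕ) : Y (N := N) i (p + 1) = Y i p ++ [yv (L (i + p))] := by
  rw [Y_append, Y_succ]; rfl

lemma forall_Y (i q : ℕ) : List.Forall₂ HasTy (Y (N := N) i q) ((seg i q).map some) :=
  forall_yv _

/-- applying a permutation to vectors. -/
def gact (σ : Equiv.Perm (I N)) (xs : List (I N → ℝ)) : List (I N → ℝ) :=
  xs.map (fun x i => x (σ i))

@[simp] lemma gact_length (σ : Equiv.Perm (I N)) (xs : List (I N → ℝ)) :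
    (gact σ xs).length = xs.length := by simp [gact]

@[simp] lemma gact_cons (σ : Equiv.Perm (I N)) (x : I N → ℝ) (xs : List (I N → ℝ)) :
    gact σ (x :: xs) = (fun i => x (σ i)) :: gact σ xs := rfl

@[simp] lemma gact_nil (σ : Equiv.Perm (I N)) : gact σ [] = [] := rfl

lemma gact_append (σ : Equiv.Perm (I N)) (xs ys : List (I N → ℝ)) :
    gact σ (xs ++ ys) = gact σ xs ++ gact σ ys := by simp [gact]

lemma gact_gact (σ : Equiv.Perm (I N)) (hσ : ∀ i, σ (σ i) = i) (xs : List (I N → ℝ)) :
    gact σ (gact σ xs) = xs := by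
  simp [gact, Function.comp_def, hσ]

lemma ext_gact {k : ℕ} {h : List (I N) → ℝ} {M : I N → I N → Matrix (Fin 2) (Fin 2) ℝ}
    (hh : IsG M k h) (σ : Equiv.Perm (I N))
    (xs : List (I N → ℝ)) (hl : xs.length = k) : ext (gact σ xs) h = ext xs h := by
  rw [gact, ext_perm]
  exact ext_congr xs fun l hl' => hh.perm _ _ (by omega)

lemma E2_gact {k : ℕ} {h : List (I N) → ℝ} {M : I N → I N → Matrix (Fin 2) (Fin 2) ℝ}
    (hh : IsG M k h) (σ : Equiv.Perm (I N))
    (xs zs : List (I N → ℝ)) (hl : xs.length + zs.length = k) :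
    E2 h (gact σ xs) (gact σ zs) = E2 h xs zs := by
  rw [E2_eq, E2_eq]
  have : (gact σ xs).reverse ++ gact σ zs = gact σ (xs.reverse ++ zs) := by
    simp [gact]
  rw [this, ext_gact hh σ _ (by simpa using hl)]

lemma E2_gact_left {k : ℕ} {h : List (I N) → ℝ} {M : I N → I N → Matrix (Fin 2) (Fin 2) ℝ}
    (hh : IsG M k h) (σ : Equiv.Perm (I N)) (hσ : ∀ i, σ (σ i) = i)
    (xs zs : List (I N → ℝ)) (hl : xs.length + zs.length = k) :
    E2 h xs (gact σ zs) = E2 h (gact σ xs) zs := by
  have := E2_gact hh σ xs (gact σ zs) (by simpa using hl)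
  rw [gact_gact σ hσ] at this
  exact this.symm

end H72QP
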