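import Pool.Agent.H72.QP.Basic

/-! Generated functions, and rotation of legs. -/

namespace H72QP

open Finset

section Split

variable {ι : Type*}

lemma split0 {l : List ι} {i j : ℕ} (hl : l.length = i + j) :
    ∃ a b, l = a ++ b ∧ a.length = i ∧ b.length = j :=
  ⟨l.take i, l.drop i, by rw [List.take_append_drop], by simp; omega, by simp; omega⟩

lemma split1 {l : List ι} {i j : ℕ} (hl : l.length = i + j + 1) :
    ∃ a c b, l = a ++ c :: b ∧ a.length = i ∧ b.length = j := by
  obtain ⟨a, b, rfl, ha, hb⟩ := split0 (i := i) (j := j + 1) (l := l) (by omega)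
  match b, hb with
  | c :: b, hb => exact ⟨a, c, b, rfl, ha, by simpa using hb⟩

lemma split2 {l : List ι} {i j : ℕ} (hl : l.length = i + j + 2) :
    ∃ a c d b, l = a ++ c :: d :: b ∧ a.length = i ∧ b.length = j := by
  obtain ⟨a, b, rfl, ha, hb⟩ := split0 (i := i) (j := j + 2) (l := l) (by omega)
  match b, hb with
  | c :: d :: b, hb => exact ⟨a, c, d, b, rfl, ha, by simpa using hb⟩

end Split

section Gen

variable {ι : Type*} [DecidableEq ι]

/-- the functions of `k` letters generated from the constant `1` by inserting a free letter and
by doubling a letter. -/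
inductive Gen (K : Type*) [CommRing K] : ℕ → (List ι → K) → Prop
  | one {f : List ι → K} : Gen K 0 f
  | zero {k : ℕ} {f : List ι → K} (h : ∀ l, l.length = k → f l = 0) : Gen K k f
  | add {k : ℕ} {f g : List ι → K} : Gen K k f → Gen K k g → Gen K k (fun l => f l + g l)
  | smul {k : ℕ} {f : List ι → K} (c : K) : Gen K k f → Gen K k (fun l => c * f l)
  | ins (i j : ℕ) {f f' : List ι → K} : Gen K (i + j) f →
      (∀ a c b, a.length = i → b.length = j → f' (a ++ c :: b) = f (a ++ b)) →
      Gen K (i + j + 1) f'
  | dup (i j : ℕ) {f f' : List ι → K} : Gen K (i + j + 1) f →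
      (∀ a c d b, a.length = i → b.length = j →
        f' (a ++ c :: d :: b) = if c = d then f (a ++ d :: b) else 0) →
      Gen K (i + j + 2) f'
  | congr {k : ℕ} {f g : List ι → K} : Gen K k f → (∀ l, l.length = k → f l = g l) → Gen K k g

variable {K : Type*} [CommRing K]

lemma Gen.map {K' : Type*} [CommRing K'] (φ : K →+* K') {k : ℕ} {f : List ι → K}
    (h : Gen K k f) : Gen K' k (fun l => φ (f l)) := by
  induction h with
  | one => exact Gen.one
  | zero h => exact Gen.zero fun l hl => by rw [h l hl, map_zero]
  | add _ _ ih1 ih2 => simpa using Gen.add ih1 ih2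
  | smul c _ ih => simpa using Gen.smul (φ c) ih
  | ins i j _ e ih => exact Gen.ins i j ih fun a c b ha hb => by rw [e a c b ha hb]
  | dup i j _ e ih =>
    refine Gen.dup i j ih fun a c d b ha hb => ?_
    rw [e a c d b ha hb]
    split_ifs <;> simp
  | congr _ e ih => exact Gen.congr ih fun l hl => by rw [e l hl]

variable [Fintype ι] {R : Type*} [Ring R] [Algebra K R]

lemma fix_zero (M : ι → ι → R) (h : List ι → K) : Fix M 0 h := by
  intro l hl
  rw [List.length_eq_zero_iff] at hl
  subst hl
  rfl

lemma Gen.fix {M : ι → ι → R} (hM : Magic M) {k : ℕ} {f : List ι → K}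
    (h : Gen K k f) : Fix M k f := by
  induction h with
  | one => exact fix_zero M _
  | zero h =>
    intro l hl
    rw [h l hl, map_zero, act_congr (h' := fun _ => 0), act_zero]
    intro l' hl'
    rw [h l' (by omega), map_zero]
  | add _ _ ih1 ih2 => exact ih1.add ih2
  | smul c _ ih => exact ih.smul c
  | congr _ e ih => exact ih.congr e
  | @ins i j f f' _ e ih =>
    intro l hl
    obtain ⟨a, c, b, rfl, ha, hb⟩ := split1 hl
    rw [e a c b ha hb, ← ih (a ++ b) (by simp; omega), act_append, act_append]
    refine act_congr _ _ fun a' ha' => ?_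
    rw [act_cons]
    have : ∀ j, act M b (fun l' => (algebraMap K R) (f' (a' ++ j :: l')))
        = act M b (fun b' => (algebraMap K R) (f (a' ++ b'))) := fun j =>
      act_congr _ _ fun b' hb' => by rw [e _ _ _ (by omega) (by omega)]
    simp only [this, ← Finset.sum_mul, hM.rowsum, one_mul]
  | @dup i j f f' _ e ih =>
    intro l hl
    obtain ⟨a, c, d, b, rfl, ha, hb⟩ := split2 hl
    have key : act M (a ++ c :: d :: b) (fun l' => (algebraMap K R) (f' l')) =
        act M a (fun a' => ∑ x, M c x * (M d x *
          act M b (fun b' => (algebraMap K R) (f (a' ++ x :: b'))))) := by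
      rw [act_append]
      refine act_congr _ _ fun a' ha' => ?_
      simp only [act_cons]
      refine Finset.sum_congr rfl fun x _ => ?_
      congr 1
      rw [Finset.sum_eq_single x]
      · congr 1
        exact act_congr _ _ fun b' hb' => by
          rw [e _ _ _ _ (by omega) (by omega), if_pos rfl]
      · intro y _ hy
        rw [act_congr (h' := fun _ => 0), act_zero, mul_zero]
        intro b' hb'
        rw [e _ _ _ _ (by omega) (by omega), if_neg (Ne.symm hy), map_zero]
      · simp
    rw [key, e a c d b ha hb]
    simp only [← mul_assoc, hM.col]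
    split_ifs with hcd
    · subst hcd
      rw [← ih (a ++ c :: b) (by simp; omega), act_append]
      rfl
    · simp [act_zero]

end Gen

section Rot

variable {ι : Type*} [Fintype ι] [DecidableEq ι]
variable {K : Type*} [CommRing K] {R : Type*} [Ring R] [Algebra K R]

/-- the mixed intertwining property. -/
def Mix (M : ι → ι → R) (p q : ℕ) (H : List ι → List ι → K) : Prop :=
  ∀ l l', l.length = p → l'.length = q →
    act M l' (fun m' => algebraMap K R (H l m')) =
      act (fun i j => M j i) l (fun m => algebraMap K R (H m l'))

lemma Mix.congr {M : ι → ι → R} {p q : ℕ} {H H' : List ι → List ι → K} (h : Mix M p q H)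
    (e : ∀ l l', l.length = p → l'.length = q → H l l' = H' l l') : Mix M p q H' := by
  intro l l' hl hl'
  rw [act_congr (h' := fun m' => algebraMap K R (H l m')), h l l' hl hl']
  · exact act_congr _ _ fun m hm => by rw [e _ _ (by omega) hl']
  · exact fun m hm => by rw [e _ _ hl (by omega)]

lemma Magic.sum_col {M : ι → ι → R} (hM : Magic M) (a b : ι) :
    ∑ c, M c a * M c b = if a = b then 1 else 0 := by
  simp only [hM.row]
  split_ifs with h
  · exact hM.colsum a
  · simp

lemma Magic.sum_row {M : ι → ι → R} (hM : Magic M) (a b : ι) :
    ∑ c, M a c * M b c = if a = b then 1 else 0 := by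
  simp only [hM.col]
  split_ifs with h
  · exact hM.rowsum a
  · simp

lemma mix_step {M : ι → ι → R} (hM : Magic M) (p q : ℕ) (H : List ι → List ι → K)
    (hH : ∀ d l l', H (d :: l) l' = H l (d :: l')) :
    Mix M (p + 1) q H ↔ Mix M p (q + 1) H := by
  constructor
  · intro h l l' hl hl'
    match l', hl' with
    | c' :: l'', hl' =>
      have hl'' : l''.length = q := by simpa using hl'
      rw [act_cons]
      have h1 : ∀ c, act M l'' (fun l' => algebraMap K R (H l (c :: l'))) =
          ∑ d, M d c * act (fun i j => M j i) l (fun m => algebraMap K R (H (d :: m) l'')) := by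
        intro c
        have := h (c :: l) l'' (by simp [hl]) hl''
        rw [act_cons] at this
        rw [← this]
        exact act_congr _ _ fun m _ => by rw [hH]
      simp only [h1, Finset.mul_sum]
      rw [Finset.sum_comm]
      simp only [← mul_assoc, ← Finset.sum_mul, hM.sum_row]
      simp only [ite_mul, one_mul, zero_mul, Finset.sum_ite_eq, Finset.mem_univ, if_true]
      exact act_congr _ _ fun m _ => by rw [hH]
  · intro h l l' hl hl'
    match l, hl with
    | c' :: l0, hl =>
      have hl0 : l0.length = p := by simpa using hl
      rw [act_cons]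
      have h1 : ∀ c, act (fun i j => M j i) l0 (fun m => algebraMap K R (H (c :: m) l')) =
          ∑ d, M c d * act M l' (fun m => algebraMap K R (H l0 (d :: m))) := by
        intro c
        have := h l0 (c :: l') hl0 (by simp [hl'])
        rw [act_cons] at this
        rw [this]
        exact act_congr _ _ fun m _ => by rw [hH]
      simp only [h1, Finset.mul_sum]
      rw [Finset.sum_comm]
      simp only [← mul_assoc, ← Finset.sum_mul, hM.sum_col]
      simp only [ite_mul, one_mul, zero_mul, Finset.sum_ite_eq, Finset.mem_univ, if_true]
      exact act_congr _ _ fun m _ => by rw [hH]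

lemma fix_iff_mix {M : ι → ι → R} (hM : Magic M) (p q : ℕ) (h : List ι → K) :
    Fix M (p + q) h ↔ Mix M p q (fun l l' => h (l.reverse ++ l')) := by
  induction p generalizing q with
  | zero =>
    constructor
    · intro hf l l' hl hl'
      rw [List.length_eq_zero_iff] at hl
      subst hl
      simpa using hf l' (by omega)
    · intro hf l hl
      simpa using hf [] l rfl (by omega)
  | succ p ih =>
    rw [show p + 1 + q = p + (q + 1) by ring, ih (q + 1), mix_step hM]
    intro d l l'
    simp

/-- the contraction adjunction. -/
lemma S_act_comm (M : ι → ι → R) (q : ℕ) (f g : List ι → K) :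
    S q (fun b => algebraMap K R (f b) * act M b (fun b' => algebraMap K R (g b'))) =
    S q (fun b => algebraMap K R (g b) *
      act (fun i j => M j i) b (fun b' => algebraMap K R (f b'))) := by
  induction q generalizing f g with
  | zero => exact Algebra.commutes _ _
  | succ q ih =>
    simp only [S_succ, act_cons, Finset.mul_sum]
    simp only [S_sum]
    rw [Finset.sum_comm]
    refine Finset.sum_congr rfl fun c' _ => ?_
    refine Finset.sum_congr rfl fun c _ => ?_
    have h1 : ∀ (x y : R) (r : K), algebraMap K R r * (x * y) = x * (algebraMap K R r * y) := by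
      intro x y r
      rw [← mul_assoc, Algebra.commutes r x, mul_assoc]
    rw [S_congr q fun l _ => h1 _ _ _, S_mul_left]
    symm
    rw [S_congr q fun l _ => h1 _ _ _, S_mul_left, ih]

lemma Mix.contract {M : ι → ι → R} (hs : ∀ i j, M i j = M j i) {p q : ℕ}
    {H : List ι → List ι → K} (h : Mix M p q H) :
    Mix M p p (fun a a' => S q (fun b => H a b * H a' b)) := by
  have hMt : (fun i j => M j i) = M := by
    funext i j; exact hs j i
  have h' : ∀ l l', l.length = p → l'.length = q →
      act M l' (fun m' => algebraMap K R (H l m')) =
      act M l (fun m => algebraMap K R (H m l')) := by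
    intro l l' hl hl'
    rw [h l l' hl hl', hMt]
  have key : ∀ a a', a.length = p → a'.length = p →
      act M a' (fun m' => algebraMap K R (S q (fun b => H a b * H m' b))) =
      S q (fun b => algebraMap K R (H a b) * act M b (fun b' => algebraMap K R (H a' b'))) := by
    intro a a' ha ha'
    have e1 : ∀ m', algebraMap K R (S q (fun b => H a b * H m' b)) =
        S q (fun b => algebraMap K R (H a b) * algebraMap K R (H m' b)) := by
      intro m'
      have := S_map (algebraMap K R).toAddMonoidHom q (fun b => H a b * H m' b)
      simpa using this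
    simp only [e1]
    rw [act_S]
    refine S_congr q fun b hb => ?_
    rw [act_mul_left _ _ _ _ (fun x => Algebra.commutes _ x), h' a' b ha' hb]
  intro a a' ha ha'
  rw [key a a' ha ha', hMt]
  have := key a' a ha' ha
  have e2 : (fun m => algebraMap K R (S q (fun b => H m b * H a' b))) =
      (fun m => algebraMap K R (S q (fun b => H a' b * H m b))) := by
    funext m
    congr 2
    funext b
    ring
  rw [e2, this, S_act_comm, hMt]

end Rot

end H72QP
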