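import Pool.Agent.H72.QP.Even2

/-! All fixed functions are generated. -/

namespace H72QP

open Finset

theorem gen_all (N : ℕ) : ∀ (k : ℕ) (h : List (I N) → ℝ), IsG (U (N := N)) k h → Gen ℝ k h := by
  intro k
  induction k using Nat.strong_induction_on with
  | _ k ih =>
    match k, ih with
    | 0, _ => exact fun h _ => Gen.one
    | k + 1, ih =>
      refine gen_step magic_U k (ih k (by omega)) fun h hh hV => ?_
      rcases Nat.even_or_odd k with ⟨m, hm⟩ | ⟨s, hs⟩
      · have e : k + 1 = m + (m + 1) := by omega
        rw [e] at hh hV ⊢
        exact main_odd m hh hV (ih (m + m) (by omega))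
      · rcases Nat.eq_zero_or_pos s with h0 | h0
        · subst h0
          have e : k + 1 = 2 := by omega
          rw [e] at hh hV ⊢
          exact main_two hh hV (by simp; omega)
        · have e : k + 1 = (s + 1) + (s + 1) := by omega
          rw [e] at hh hV ⊢
          exact main_even s h0 hh hV (ih (s + (s + 1)) (by omega))

section Small

variable {ι : Type*} [Fintype ι] [DecidableEq ι] {R : Type*} [Ring R] [Algebra ℝ R]
  {M : ι → ι → R}

lemma main_one {h : List ι → ℝ} (hh : IsG M 1 h) (hV : V 0 1 h) :
    ∀ l, l.length = 1 → h l = 0 := by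
  intro l hl
  match l, hl with
  | [i], _ =>
    have h1 := hV.cap [] [] rfl
    have h2 : ∀ k, h ([] ++ [k]) = h [i] := by
      intro k
      have := hh.perm (Equiv.swap i k) [i] rfl
      rw [← this]
      simp
    simp only [h2] at h1
    rw [Finset.sum_const, nsmul_eq_mul] at h1
    rcases mul_eq_zero.1 h1 with h4 | h4
    · exfalso
      have h5 : (Finset.univ : Finset ι).card = 0 := by exact_mod_cast h4
      rw [Finset.card_eq_zero] at h5
      have : i ∈ (Finset.univ : Finset ι) := Finset.mem_univ i
      rw [h5] at this
      simp at this
    · exact h4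

lemma main_small (hcard : Fintype.card ι ≤ 3) (k : ℕ) {h : List ι → ℝ}
    (hh : IsG M (k + 1) h) (hV : V 0 (k + 1) h) : ∀ l, l.length = k + 1 → h l = 0 := by
  match k, hh, hV with
  | 0, hh, hV => exact main_one hh hV
  | 1, hh, hV =>
    intro l hl
    by_cases h2 : 2 ≤ Fintype.card ι
    · exact main_two hh hV h2 l hl
    · have : Subsingleton ι := Fintype.card_le_one_iff_subsingleton.1 (by omega)
      match l, hl with
      | [i, j], _ =>
        obtain rfl : i = j := Subsingleton.elim i j
        exact hV.mrg [] i [] rfl (by simp)
  | k + 2, hh, hV =>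
    have h1 : ∀ (i : ι) (l : List ι), l.length = k + 1 → h (i :: i :: l) = 0 := fun i l hl =>
      hV.mrg [] i l (by simp; omega) (by simp)
    have h2 : ∀ (i j : ι) (l : List ι), l.length = k → h (i :: j :: j :: l) = 0 :=
      fun i j l hl => hV.mrg [i] j l (by simp; omega) (by simp)
    have h3 : ∀ (i j t : ι) (l : List ι), l.length = k → i ≠ t → h (i :: j :: t :: l) = 0 := by
      intro i j t l hl hit
      by_cases hij : i = j
      · subst hij; exact h1 i (t :: l) (by simp [hl])
      · by_cases hjt : j = t
        · subst hjt; exact h2 i j l hl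
        · have hall : ∀ c : ι, c = i ∨ c = t ∨ c = j := by
            intro c
            by_contra hc
            push Not at hc
            have h4 : ({c, i, t, j} : Finset ι).card = 4 := by
              rw [Finset.card_insert_of_notMem, Finset.card_insert_of_notMem,
                Finset.card_insert_of_notMem, Finset.card_singleton]
              · simp [Ne.symm hjt]
              · simp [hit, hij]
              · simp [hc.1, hc.2.1, hc.2.2]
            have := Finset.card_le_univ ({c, i, t, j} : Finset ι)
            omega
          have h5 := hV.cap [i] (t :: l) (by simp; omega)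
          rw [Finset.sum_eq_single j] at h5
          · simpa using h5
          · intro c _ hcj
            rcases hall c with rfl | rfl | rfl
            · exact h1 c (t :: l) (by simp [hl])
            · exact h2 i c l hl
            · exact absurd rfl hcj
          · simp
    intro l hl
    match l, hl with
    | i :: j :: t :: l, hl =>
      have hl' : l.length = k := by simpa using hl
      by_cases hit : i = t
      · subst hit
        by_cases hij : i = j
        · subst hij; exact h1 i (i :: l) (by simp [hl'])
        · have h5 := hV.cap [] (j :: i :: l) (by simp; omega)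
          rw [Finset.sum_eq_single i] at h5
          · simpa using h5
          · intro c _ hci
            exact h3 c j i l hl' hci
          · simp
      · exact h3 i j t l hl' hit

theorem gen_small (hM : Magic M) (hcard : Fintype.card ι ≤ 3) :
    ∀ (k : ℕ) (h : List ι → ℝ), IsG M k h → Gen ℝ k h := by
  intro k
  induction k with
  | zero => exact fun h _ => Gen.one
  | succ k ih => exact gen_step hM k ih fun h hh hV => main_small hcard k hh hV

end Small

section Transfer

variable {ι κ : Type*} [DecidableEq ι] [DecidableEq κ]

lemma Gen.equiv {K : Type*} [CommRing K] (e : ι ≃ κ) {k : ℕ} {f : List κ → K} (h : Gen K k f) :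
    Gen K k (fun l : List ι => f (l.map e)) := by
  induction h with
  | one => exact Gen.one
  | zero h => exact Gen.zero fun l hl => h _ (by simpa using hl)
  | add _ _ ih1 ih2 => exact Gen.add ih1 ih2
  | smul c _ ih => exact Gen.smul c ih
  | ins i j _ e' ih =>
    refine Gen.ins i j ih fun a c b ha hb => ?_
    rw [List.map_append, List.map_cons, e' _ _ _ (by simpa using ha) (by simpa using hb),
      List.map_append]
  | dup i j _ e' ih =>
    refine Gen.dup i j ih fun a c d b ha hb => ?_
    rw [List.map_append, List.map_cons, List.map_cons,
      e' _ _ _ _ (by simpa using ha) (by simpa using hb), List.map_append, List.map_cons]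
    simp only [EmbeddingLike.apply_eq_iff_eq]
  | congr _ e' ih => exact Gen.congr ih fun l hl => e' _ (by simpa using hl)

variable [Fintype ι] [Fintype κ]

lemma act_equiv {R : Type*} [Semiring R] (e : ι ≃ κ) (M : κ → κ → R) (l : List ι)
    (F : List κ → R) :
    act M (l.map e) F = act (fun i j => M (e i) (e j)) l (fun l' => F (l'.map e)) := by
  induction l generalizing F with
  | nil => rfl
  | cons i l ih =>
    rw [List.map_cons, act_cons, act_cons, ← Equiv.sum_comp e]
    exact Finset.sum_congr rfl fun j _ => by rw [ih]; rfl

lemma IsG.equiv {R : Type*} [Ring R] [Algebra ℝ R] (e : ι ≃ κ) {M : κ → κ → R} {k : ℕ}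
    {h : List ι → ℝ} (hh : IsG (fun i j => M (e i) (e j)) k h) :
    IsG M k (fun l => h (l.map e.symm)) := by
  have hmap : ∀ l : List κ, (l.map e.symm).map e = l := by
    intro l; simp
  have hmap' : ∀ l : List ι, (l.map e).map e.symm = l := by
    intro l; simp
  constructor
  · intro l hl
    have h1 := hh.fix (l.map e.symm) (by simpa using hl)
    rw [← h1]
    conv_lhs => rw [← hmap l]
    rw [act_equiv]
    refine act_congr _ _ fun l' _ => ?_
    show (algebraMap ℝ R) (h (List.map e.symm (List.map e l'))) = _
    rw [hmap']
  · intro σ
    rw [fix_permM_iff]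
    intro l hl
    have h1 := hh.perm ((e.trans σ).trans e.symm) (l.map e.symm) (by simpa using hl)
    rw [← h1]
    congr 1
    simp

lemma Magic.equiv {R : Type*} [Semiring R] (e : ι ≃ κ) {M : κ → κ → R} (hM : Magic M) :
    Magic (fun i j => M (e i) (e j)) := by
  constructor
  · intro i j k
    rw [hM.row]
    simp
  · intro i j k
    rw [hM.col]
    simp
  · intro i
    rw [← hM.rowsum (e i), ← Equiv.sum_comp e]
  · intro j
    rw [← hM.colsum (e j), ← Equiv.sum_comp e]

end Transfer

theorem exists_model (n : ℕ) : ∃ M : Fin n → Fin n → Matrix (Fin 2) (Fin 2) ℝ,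
    Magic M ∧ (∀ i j, M i j = M j i) ∧ (∀ i j, (M i j).transpose = M i j) ∧
      ∀ (k : ℕ) (h : List (Fin n) → ℝ), IsG M k h → Gen ℝ k h := by
  by_cases hn : n ≤ 3
  · refine ⟨fun i j => if i = j then 1 else 0, ?_, ?_, ?_, ?_⟩
    · constructor
      · intro i j k
        by_cases h1 : i = j
        · subst h1; simp
        · simp [h1]
      · intro i j k
        by_cases h1 : j = i
        · subst h1
          by_cases h2 : k = j
          · subst h2; simp
          · simp [h2, Ne.symm h2]
        · simp [h1]
      · intro i; simp
      · intro j; simp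
    · intro i j
      by_cases h1 : i = j
      · subst h1; rfl
      · simp [h1, Ne.symm h1]
    · intro i j
      by_cases h1 : i = j <;> simp [h1]
    · intro k h hh
      refine gen_small (M := permM ℝ (Equiv.refl (Fin n))) (magic_permM _) (by simpa using hn) k h
        ⟨hh.inv _, hh.inv⟩
  · obtain ⟨N, rfl⟩ : ∃ N, n = N + 4 := ⟨n - 4, by omega⟩
    have e : Fin (N + 4) ≃ I N := Fintype.equivOfCardEq (by simp; ring)
    refine ⟨fun i j => U (e i) (e j), magic_U.equiv e, fun i j => U_symm _ _,
      fun i j => U_transpose _ _, ?_⟩
    intro k h hh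
    have h1 := gen_all N k _ (IsG.equiv e hh)
    refine (h1.equiv e).congr fun l _ => ?_
    simp

end H72QP
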