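import Pool.Agent.H72.QP.Gen

/-! The irreducibility lemma: a generated function of `p + q` letters pairs with functions that are
uncappable inside both halves like a multiple of the total contraction. -/

namespace H72QP

open Finset

variable {ι : Type*} [Fintype ι]

/-- uncappable inside both halves. -/
structure V (p q : ℕ) (y : List ι → ℝ) : Prop where
  cap : ∀ a b : List ι, a.length + b.length + 1 = p + q → ∑ c, y (a ++ c :: b) = 0
  mrg : ∀ (a : List ι) (c : ι) (b : List ι), a.length + b.length + 2 = p + q →
    a.length + 1 ≠ p → y (a ++ c :: c :: b) = 0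

/-- uncappable with a distinguished middle letter. -/
structure V' (p q : ℕ) (y : List ι → ℝ) : Prop where
  cap : ∀ a b : List ι, a.length + b.length + 1 = p + 1 + q → a.length ≠ p →
    ∑ c, y (a ++ c :: b) = 0
  mrg : ∀ (a : List ι) (c : ι) (b : List ι), a.length + b.length + 2 = p + 1 + q →
    y (a ++ c :: c :: b) = 0

lemma V'.toV {p q : ℕ} {y y' : List ι → ℝ} (h : V' p q y)
    (e : ∀ a b, a.length = p → b.length = q → y' (a ++ b) = ∑ c, y (a ++ c :: b)) :
    V p q y' := by
  constructor
  · intro a b hab
    rcases Nat.lt_or_ge a.length p with hlt | hge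
    · obtain ⟨b1, b2, rfl, h1, h2⟩ := split0 (l := b) (i := p - a.length - 1) (j := q) (by omega)
      have : ∀ d, y' (a ++ d :: (b1 ++ b2)) = ∑ c, y (a ++ d :: (b1 ++ c :: b2)) := by
        intro d
        have := e (a ++ d :: b1) b2 (by simp; omega) h2
        simpa using this
      simp only [this]
      rw [Finset.sum_comm]
      refine Finset.sum_eq_zero fun c _ => ?_
      exact h.cap a (b1 ++ c :: b2) (by simp at hab ⊢; omega) (by omega)
    · obtain ⟨a1, a2, rfl, h1, h2⟩ := split0 (l := a) (i := p) (j := a.length - p) (by omega)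
      have : ∀ d, y' ((a1 ++ a2) ++ d :: b) = ∑ c, y ((a1 ++ c :: a2) ++ d :: b) := by
        intro d
        have := e a1 (a2 ++ d :: b) h1 (by simp at hab ⊢; omega)
        simpa using this
      simp only [this]
      rw [Finset.sum_comm]
      refine Finset.sum_eq_zero fun c _ => ?_
      exact h.cap (a1 ++ c :: a2) b (by simp at hab ⊢; omega) (by simp; omega)
  · intro a c b hab hne
    rcases Nat.lt_or_ge a.length p with hlt | hge
    · obtain ⟨b1, b2, rfl, h1, h2⟩ := split0 (l := b) (i := p - a.length - 2) (j := q) (by omega)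
      have := e (a ++ c :: c :: b1) b2 (by simp; omega) h2
      have e2 : a ++ c :: c :: (b1 ++ b2) = (a ++ c :: c :: b1) ++ b2 := by simp
      rw [e2, this]
      refine Finset.sum_eq_zero fun d _ => ?_
      have := h.mrg a c (b1 ++ d :: b2) (by simp at hab ⊢; omega)
      simpa using this
    · obtain ⟨a1, a2, rfl, h1, h2⟩ := split0 (l := a) (i := p) (j := a.length - p) (by omega)
      have := e a1 (a2 ++ c :: c :: b) h1 (by simp at hab ⊢; omega)
      rw [List.append_assoc, this]
      refine Finset.sum_eq_zero fun d _ => ?_
      have := h.mrg (a1 ++ d :: a2) c b (by simp at hab ⊢; omega)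
      simpa using this

lemma V.toV' {p q : ℕ} {y y' : List ι → ℝ} (h : V (p + 1) (q + 1) y)
    (e : ∀ a c b, a.length = p → b.length = q → y' (a ++ c :: b) = y (a ++ c :: c :: b)) :
    V' p q y' := by
  constructor
  · intro a b hab hne
    rcases Nat.lt_or_ge a.length p with hlt | hge
    · obtain ⟨b1, x, b2, rfl, h1, h2⟩ := split1 (l := b) (i := p - a.length - 1) (j := q) (by omega)
      have : ∀ d, y' (a ++ d :: (b1 ++ x :: b2)) = y (a ++ d :: (b1 ++ x :: x :: b2)) := by
        intro d
        have := e (a ++ d :: b1) x b2 (by simp; omega) h2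
        simpa using this
      simp only [this]
      exact h.cap a (b1 ++ x :: x :: b2) (by simp at hab ⊢; omega)
    · obtain ⟨a1, x, a2, rfl, h1, h2⟩ := split1 (l := a) (i := p) (j := a.length - p - 1) (by omega)
      have : ∀ d, y' ((a1 ++ x :: a2) ++ d :: b) = y ((a1 ++ x :: x :: a2) ++ d :: b) := by
        intro d
        have := e a1 x (a2 ++ d :: b) h1 (by simp at hab ⊢; omega)
        simpa using this
      simp only [this]
      exact h.cap (a1 ++ x :: x :: a2) b (by simp at hab ⊢; omega)
  · intro a c b hab
    rcases lt_trichotomy (a.length + 1) p with hlt | heq | hgt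
    · obtain ⟨b1, x, b2, rfl, h1, h2⟩ := split1 (l := b) (i := p - a.length - 2) (j := q) (by omega)
      have := e (a ++ c :: c :: b1) x b2 (by simp; omega) h2
      have e2 : a ++ c :: c :: (b1 ++ x :: b2) = (a ++ c :: c :: b1) ++ x :: b2 := by simp
      rw [e2, this]
      have := h.mrg a c (b1 ++ x :: x :: b2) (by simp at hab ⊢; omega) (by omega)
      simpa using this
    · have := e (a ++ [c]) c b (by simp; omega) (by omega)
      have e2 : a ++ c :: c :: b = (a ++ [c]) ++ c :: b := by simp
      rw [e2, this]
      have := h.mrg a c (c :: b) (by simp at hab ⊢; omega) (by omega)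
      simpa using this
    · rcases Nat.eq_or_lt_of_le (show p ≤ a.length by omega) with heq | hlt
      · have := e a c (c :: b) (by omega) (by simp; omega)
        rw [this]
        have := h.mrg (a ++ [c]) c b (by simp at hab ⊢; omega) (by simp; omega)
        simpa using this
      · obtain ⟨a1, x, a2, rfl, h1, h2⟩ :=
          split1 (l := a) (i := p) (j := a.length - p - 1) (by omega)
        have := e a1 x (a2 ++ c :: c :: b) h1 (by simp at hab ⊢; omega)
        rw [List.append_assoc, List.cons_append, this]
        have := h.mrg (a1 ++ x :: x :: a2) c b (by simp at hab ⊢; omega) (by simp; omega)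
        simpa using this

lemma S_ins {i j : ℕ} {f f' y : List ι → ℝ}
    (e : ∀ a c b, a.length = i → b.length = j → f' (a ++ c :: b) = f (a ++ b)) :
    S (i + j + 1) (fun l => f' l * y l) =
      S i (fun a => S j (fun b => f (a ++ b) * ∑ c, y (a ++ c :: b))) := by
  rw [show i + j + 1 = i + (j + 1) by ring, S_split]
  refine S_congr i fun a ha => ?_
  rw [S_succ, ← S_sum]
  refine S_congr j fun b hb => ?_
  rw [Finset.mul_sum]
  exact Finset.sum_congr rfl fun c _ => by rw [e a c b ha hb]

lemma S_dup [DecidableEq ι] {i j : ℕ} {f f' y : List ι → ℝ}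
    (e : ∀ a c d b, a.length = i → b.length = j →
        f' (a ++ c :: d :: b) = if c = d then f (a ++ d :: b) else 0) :
    S (i + j + 2) (fun l => f' l * y l) =
      S i (fun a => ∑ d, S j (fun b => f (a ++ d :: b) * y (a ++ d :: d :: b))) := by
  rw [show i + j + 2 = i + (j + 1 + 1) by ring, S_split]
  refine S_congr i fun a ha => ?_
  simp only [S_succ]
  refine Finset.sum_congr rfl fun c _ => ?_
  rw [Finset.sum_eq_single c]
  · exact S_congr j fun b hb => by rw [e a c c b ha hb, if_pos rfl]
  · intro d _ hd
    exact S_eq_zero j fun b hb => by rw [e a c d b ha hb, if_neg (Ne.symm hd), zero_mul]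
  · simp

theorem irr [DecidableEq ι] {k : ℕ} {f : List ι → ℝ} (h : Gen ℝ k f) :
    (∀ p q, k = p + q → ∃ c : ℝ, (p ≠ q → c = 0) ∧ ∀ y, V p q y →
      S k (fun l => f l * y l) = c * S p (fun a => y (a.reverse ++ a))) ∧
    (∀ p q, k = p + 1 + q → ∃ c : ℝ, (p ≠ q → c = 0) ∧ ∀ y, V' p q y →
      S k (fun l => f l * y l) = c * S p (fun a => ∑ x, y (a.reverse ++ x :: a))) := by
  induction h with
  | @one f =>
    constructor
    · intro p q hpq
      obtain rfl : p = 0 := by omega
      obtain rfl : q = 0 := by omega
      exact ⟨f [], by simp, fun y _ => by simp⟩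
    · intro p q hpq
      omega
  | @zero k f hz =>
    constructor
    · intro p q _
      refine ⟨0, fun _ => rfl, fun y _ => ?_⟩
      rw [zero_mul]
      exact S_eq_zero k fun l hl => by rw [hz l hl, zero_mul]
    · intro p q _
      refine ⟨0, fun _ => rfl, fun y _ => ?_⟩
      rw [zero_mul]
      exact S_eq_zero k fun l hl => by rw [hz l hl, zero_mul]
  | @add k f g _ _ ih1 ih2 =>
    constructor
    · intro p q hpq
      obtain ⟨c1, h1, h1'⟩ := ih1.1 p q hpq
      obtain ⟨c2, h2, h2'⟩ := ih2.1 p q hpq
      refine ⟨c1 + c2, fun hne => by rw [h1 hne, h2 hne, add_zero], fun y hy => ?_⟩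
      rw [add_mul, ← h1' y hy, ← h2' y hy, ← S_add]
      exact S_congr k fun l _ => by ring
    · intro p q hpq
      obtain ⟨c1, h1, h1'⟩ := ih1.2 p q hpq
      obtain ⟨c2, h2, h2'⟩ := ih2.2 p q hpq
      refine ⟨c1 + c2, fun hne => by rw [h1 hne, h2 hne, add_zero], fun y hy => ?_⟩
      rw [add_mul, ← h1' y hy, ← h2' y hy, ← S_add]
      exact S_congr k fun l _ => by ring
  | @smul k f r _ ih =>
    constructor
    · intro p q hpq
      obtain ⟨c1, h1, h1'⟩ := ih.1 p q hpq
      refine ⟨r * c1, fun hne => by rw [h1 hne, mul_zero], fun y hy => ?_⟩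
      rw [mul_assoc, ← h1' y hy, ← S_mul_left]
      exact S_congr k fun l _ => by ring
    · intro p q hpq
      obtain ⟨c1, h1, h1'⟩ := ih.2 p q hpq
      refine ⟨r * c1, fun hne => by rw [h1 hne, mul_zero], fun y hy => ?_⟩
      rw [mul_assoc, ← h1' y hy, ← S_mul_left]
      exact S_congr k fun l _ => by ring
  | @congr k f g _ e ih =>
    constructor
    · intro p q hpq
      obtain ⟨c1, h1, h1'⟩ := ih.1 p q hpq
      refine ⟨c1, h1, fun y hy => ?_⟩
      rw [← h1' y hy]
      exact S_congr k fun l hl => by rw [e l hl]
    · intro p q hpq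
      obtain ⟨c1, h1, h1'⟩ := ih.2 p q hpq
      refine ⟨c1, h1, fun y hy => ?_⟩
      rw [← h1' y hy]
      exact S_congr k fun l hl => by rw [e l hl]
  | @ins i j f f' _ e ih =>
    constructor
    · intro p q hpq
      refine ⟨0, fun _ => rfl, fun y hy => ?_⟩
      rw [zero_mul, S_ins e]
      refine S_eq_zero i fun a ha => S_eq_zero j fun b hb => ?_
      rw [hy.cap a b (by omega), mul_zero]
    · intro p q hpq
      by_cases hip : i = p
      · subst hip
        obtain rfl : j = q := by omega
        obtain ⟨c1, h1, h1'⟩ := ih.1 i j rfl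
        refine ⟨c1, h1, fun y hy => ?_⟩
        set y' : List ι → ℝ := fun l => ∑ c, y (l.take i ++ c :: l.drop i) with hy'
        have ey : ∀ a b : List ι, a.length = i → b.length = j →
            y' (a ++ b) = ∑ c, y (a ++ c :: b) := by
          intro a b ha _
          simp only [hy', List.take_left' ha, List.drop_left' ha]
        have h2 := h1' y' (hy.toV ey)
        rw [S_ins e]
        have h3 : S i (fun a => S j (fun b => f (a ++ b) * ∑ c, y (a ++ c :: b)))
            = S (i + j) (fun l => f l * y' l) := by
          rw [S_split]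
          exact S_congr i fun a ha => S_congr j fun b hb => by rw [ey a b ha hb]
        rw [h3, h2]
        by_cases hij : i = j
        · subst hij
          congr 1
          exact S_congr i fun a ha => by rw [ey _ _ (by simp [ha]) ha]
        · rw [h1 hij, zero_mul, zero_mul]
      · refine ⟨0, fun _ => rfl, fun y hy => ?_⟩
        rw [zero_mul, S_ins e]
        refine S_eq_zero i fun a ha => S_eq_zero j fun b hb => ?_
        rw [hy.cap a b (by omega) (by omega), mul_zero]
  | @dup i j f f' _ e ih =>
    constructor
    · intro p q hpq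
      by_cases hip : i + 1 = p
      · subst hip
        obtain rfl : j + 1 = q := by omega
        obtain ⟨c1, h1, h1'⟩ := ih.2 i j (by ring)
        refine ⟨c1, fun hne => h1 (by omega), fun y hy => ?_⟩
        set y' : List ι → ℝ := fun l => y (l.take (i + 1) ++ l.drop i) with hy'
        have ey : ∀ (a : List ι) (c : ι) (b : List ι), a.length = i → b.length = j →
            y' (a ++ c :: b) = y (a ++ c :: c :: b) := by
          intro a c b ha _
          have e1 : (a ++ c :: b).take (i + 1) = a ++ [c] := by
            rw [show a ++ c :: b = (a ++ [c]) ++ b by simp]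
            exact List.take_left' (by simp [ha])
          simp only [hy', e1, List.drop_left' ha]
          simp
        have h2 := h1' y' (hy.toV' ey)
        rw [S_dup e]
        have h3 : S i (fun a => ∑ d, S j (fun b => f (a ++ d :: b) * y (a ++ d :: d :: b)))
            = S (i + j + 1) (fun l => f l * y' l) := by
          rw [show i + j + 1 = i + (j + 1) by ring, S_split]
          refine S_congr i fun a ha => ?_
          rw [S_succ]
          refine Finset.sum_congr rfl fun d _ => ?_
          exact S_congr j fun b hb => by rw [ey a d b ha hb]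
        rw [h3, h2]
        by_cases hij : i = j
        · subst hij
          congr 1
          rw [S_succ, ← S_sum]
          refine S_congr i fun a ha => Finset.sum_congr rfl fun x _ => ?_
          rw [ey _ _ _ (by simp [ha]) ha]
          simp
        · rw [h1 hij, zero_mul, zero_mul]
      · refine ⟨0, fun _ => rfl, fun y hy => ?_⟩
        rw [zero_mul, S_dup e]
        refine S_eq_zero i fun a ha => Finset.sum_eq_zero fun d _ => S_eq_zero j fun b hb => ?_
        rw [hy.mrg a d b (by omega) (by omega), mul_zero]
    · intro p q hpq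
      refine ⟨0, fun _ => rfl, fun y hy => ?_⟩
      rw [zero_mul, S_dup e]
      refine S_eq_zero i fun a ha => Finset.sum_eq_zero fun d _ => S_eq_zero j fun b hb => ?_
      rw [hy.mrg a d b (by omega), mul_zero]

end H72QP
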