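import Pool.Agent.H72.QP.Types

/-! The model, eigenvectors, expansions. -/

namespace H72QP

open Finset

variable {N : ℕ}

lemma sum_I {E : Type*} [AddCommMonoid E] (f : I N → E) :
    ∑ i, f i = f (Sum.inl (true, true)) + f (Sum.inl (true, false)) +
      (f (Sum.inl (false, true)) + f (Sum.inl (false, false))) + ∑ c, f (Sum.inr c) := by
  rw [Fintype.sum_sum_type, Fintype.sum_prod_type]
  simp

/-- the vector `e_{b,false} - e_{b,true}`. -/
def yv (b : Bool) : I N → ℝ := fun i =>
  if i = Sum.inl (b, false) then 1 else if i = Sum.inl (b, true) then -1 else 0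

/-- the vector `e_{b,false} + e_{b,true}`. -/
def onev (b : Bool) : I N → ℝ := fun i =>
  if i = Sum.inl (b, false) then 1 else if i = Sum.inl (b, true) then 1 else 0

/-- basis vectors of further letters. -/
def ev (c : Fin N) : I N → ℝ := fun i => if i = Sum.inr c then 1 else 0

/-- coefficient functional. -/
noncomputable def cf (b : Bool) (x : I N → ℝ) : ℝ := (x (Sum.inl (b, false)) - x (Sum.inl (b, true))) / 2

/-- the projection onto the fixed line of the reflection. -/
noncomputable def pp (b : Bool) : Matrix (Fin 2) (Fin 2) ℝ := (1/2 : ℝ) • (1 + refl b)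

/-- the complementary projection. -/
noncomputable def qq (b : Bool) : Matrix (Fin 2) (Fin 2) ℝ := (1/2 : ℝ) • (1 - refl b)

/-- the model: `M_p ⊕ M_q ⊕ 1`. -/
noncomputable def U : I N → I N → Matrix (Fin 2) (Fin 2) ℝ
  | Sum.inl (b, s), Sum.inl (b', s') =>
    if b = b' then (if s = s' then pp b else qq b) else 0
  | Sum.inr c, Sum.inr c' => if c = c' then 1 else 0
  | _, _ => 0

lemma U_symm (i j : I N) : U i j = U j i := by
  match i, j with
  | Sum.inl (b, s), Sum.inl (b', s') =>
    simp only [U]
    by_cases h : b = b'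
    · subst h
      simp only [if_true]
      by_cases h' : s = s'
      · subst h'; rfl
      · rw [if_neg h', if_neg (Ne.symm h')]
    · rw [if_neg h, if_neg (Ne.symm h)]
  | Sum.inr c, Sum.inr c' =>
    simp only [U]
    by_cases h : c = c'
    · subst h; rfl
    · rw [if_neg h, if_neg (Ne.symm h)]
  | Sum.inl (b, s), Sum.inr c' => rfl
  | Sum.inr c, Sum.inl (b, s) => rfl

lemma refl_transpose (b : Bool) : (refl b).transpose = refl b := by
  cases b <;>
  · ext i j
    fin_cases i <;> fin_cases j <;> simp [refl]

lemma pp_transpose (b : Bool) : (pp b).transpose = pp b := by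
  simp [pp, refl_transpose]

lemma qq_transpose (b : Bool) : (qq b).transpose = qq b := by
  simp [qq, refl_transpose]

lemma U_transpose (i j : I N) : (U i j).transpose = U i j := by
  match i, j with
  | Sum.inl (b, s), Sum.inl (b', s') =>
    simp only [U]
    split_ifs <;> simp [pp_transpose, qq_transpose]
  | Sum.inr c, Sum.inr c' =>
    simp only [U]
    split_ifs <;> simp
  | Sum.inl (b, s), Sum.inr c' => simp [U]
  | Sum.inr c, Sum.inl (b, s) => simp [U]

lemma p_sq (b : Bool) : pp b * pp b = pp b := by
  have h : (1 + refl b) * (1 + refl b) = (2 : ℝ) • (1 + refl b) := by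
    rw [add_mul, mul_add, mul_add, refl_sq, two_smul]
    simp only [mul_one, one_mul]
    abel
  rw [pp, smul_mul_smul_comm, h, smul_smul]
  norm_num

lemma q_sq (b : Bool) : qq b * qq b = qq b := by
  have h : (1 - refl b) * (1 - refl b) = (2 : ℝ) • (1 - refl b) := by
    rw [sub_mul, mul_sub, mul_sub, refl_sq, two_smul]
    simp only [mul_one, one_mul]
    abel
  rw [qq, smul_mul_smul_comm, h, smul_smul]
  norm_num

lemma pq (b : Bool) : pp b * qq b = 0 := by
  rw [pp, qq, smul_mul_smul_comm, add_mul, mul_sub, mul_sub, refl_sq]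
  simp

lemma qp (b : Bool) : qq b * pp b = 0 := by
  rw [pp, qq, smul_mul_smul_comm, sub_mul, mul_add, mul_add, refl_sq]
  simp only [one_mul, mul_one]
  rw [add_comm (refl b) 1, sub_self, smul_zero]

lemma magic_U : Magic (U (N := N)) := by
  have hrow : ∀ i j k : I N, U i j * U i k = if j = k then U i j else 0 := by
    intro i j k
    match i, j, k with
    | Sum.inl (b, s), Sum.inl (b', s'), Sum.inl (b'', s'') =>
      simp only [U]
      by_cases h1 : b = b'
      · subst h1
        by_cases h2 : b = b''
        · subst h2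
          simp only [if_true, Sum.inl.injEq, Prod.mk.injEq, true_and]
          cases s <;> cases s' <;> cases s'' <;> simp [p_sq, q_sq, pq, qp]
        · have h3 : ¬ ((Sum.inl (b, s') : I N) = Sum.inl (b'', s'')) := by
            simp [h2]
          rw [if_neg h2, if_neg h3, mul_zero]
      · rw [if_neg h1, zero_mul]
        split_ifs <;> rfl
    | Sum.inr c, Sum.inr c', Sum.inr c'' =>
      simp only [U]
      by_cases h1 : c = c'
      · subst h1
        simp
      · simp [h1]
    | Sum.inl (b, s), Sum.inr c', k => simp [U]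
    | Sum.inl (b, s), Sum.inl (b', s'), Sum.inr c => simp [U]
    | Sum.inr c, Sum.inl (b, s), k => simp [U]
    | Sum.inr c, Sum.inr c', Sum.inl (b, s) => simp [U]
  have hsum : ∀ i : I N, ∑ j, U i j = 1 := by
    intro i
    rw [sum_I]
    match i with
    | Sum.inl (b, s) =>
      cases b <;> cases s <;> simp [U] <;>
      · rw [pp, qq]; module
    | Sum.inr c => simp [U]
  constructor
  · exact hrow
  · intro i j k
    rw [U_symm j i, U_symm k i]
    exact hrow i j k
  · exact hsum
  · intro j
    rw [← hsum j]
    exact Finset.sum_congr rfl fun i _ => U_symm i j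

/-- eigenvectors of the model. -/
def HasTy (x : I N → ℝ) (t : Ty) : Prop := ∀ j, ∑ i, x i • U i j = x j • wt t

lemma hasTy_yv (b : Bool) : HasTy (N := N) (yv b) (some b) := by
  intro j
  rw [sum_I]
  match j with
  | Sum.inr c => simp [U, yv]
  | Sum.inl (b', s) =>
    cases b <;> cases b' <;> cases s <;> simp [U, yv, wt] <;>
    · rw [pp, qq]
      module

lemma hasTy_triv {x : I N → ℝ} (h : ∀ b, cf b x = 0) : HasTy x none := by
  intro j
  rw [sum_I]
  have h1 : ∀ b, x (Sum.inl (b, false)) = x (Sum.inl (b, true)) := by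
    intro b
    have := h b
    simp only [cf] at this
    linarith
  rw [h1 true, h1 false]
  match j with
  | Sum.inr c => simp [U, wt]
  | Sum.inl (b', s) =>
    cases b' <;> cases s <;> simp [U, wt, h1] <;>
    · rw [pp, qq]
      module

lemma HasTy.smul {x : I N → ℝ} {t : Ty} (h : HasTy x t) (r : ℝ) : HasTy (r • x) t := by
  intro j
  simp only [Pi.smul_apply, smul_eq_mul, mul_smul, ← Finset.smul_sum, h j]

end H72QP
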