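import Pool.Agent.H72.QP.Expand

/-! The odd case: the contraction with the alternating tensor vanishes. -/

namespace H72QP

open Finset

variable {N : ℕ}

/-- contraction of the first `m` letters with the alternating tensor. -/
def Hw (m : ℕ) (h : List (I N) → ℝ) : List (I N) → ℝ :=
  fun l' => ext (Y 0 m) (fun l => h (l.reverse ++ l'))

lemma ext_Hw (m : ℕ) (h : List (I N) → ℝ) (zs : List (I N → ℝ)) :
    ext zs (Hw m h) = E2 h (Y 0 m) zs := by
  unfold Hw E2
  rw [ext_comm]

/-- prefix contraction. -/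
def Hp (P : List (I N → ℝ)) (H : List (I N) → ℝ) : List (I N) → ℝ :=
  fun l' => ext P (fun l => H (l ++ l'))

lemma ext_Hp (P zs : List (I N → ℝ)) (H : List (I N) → ℝ) :
    ext zs (Hp P H) = ext (P ++ zs) H := by
  rw [ext_append]
  unfold Hp
  rw [ext_comm]

section Odd

variable {m : ℕ} {h : List (I N) → ℝ}

lemma Hw_typed (hf : Fix (U (N := N)) (m + (m + 1)) h) {xs : List (I N → ℝ)} {τ : List Ty}
    (hx : List.Forall₂ HasTy xs τ) (hl : xs.length = m + 1)
    (hW : W τ ≠ W ((seg 0 m).map some)) : ext xs (Hw m h) = 0 := by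
  rw [ext_Hw]
  exact E2_vanish hf (forall_Y 0 m) hx (by simp [hl]) hW.symm

lemma Hw_one (hf : Fix (U (N := N)) (m + (m + 1)) h) (p r : ℕ) (hm : m = p + r)
    (z : I N → ℝ) (zs : List (I N → ℝ)) (hzs : zs.length = r) :
    ext (Y 0 p ++ z :: zs) (Hw m h) = cf (L p) z * ext (Y 0 (p + 1) ++ zs) (Hw m h) +
      prodc (seg p r) zs * ext (Y 0 p ++ comp0 z :: Y p r) (Hw m h) := by
  subst hm
  have hseg : seg 0 (p + r) = seg 0 p ++ seg p r := by
    rw [seg_append, Nat.zero_add]
  have h3 : ext (Y 0 p ++ yv (!L p) :: zs) (Hw (p + r) h) = 0 := by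
    have e : Y 0 p ++ yv (!L p) :: zs = (Y (N := N) 0 p ++ [yv (!L p)]) ++ zs := by simp
    rw [e, ← ext_Hp]
    refine E0 r _ (fun xs τ hx hl => ?_) zs hzs
    rw [ext_Hp]
    refine Hw_typed hf (τ := ((seg 0 p).map some ++ [some (!L p)]) ++ τ)
      (List.rel_append (List.rel_append (forall_Y 0 p)
        (List.Forall₂.cons (hasTy_yv _) List.Forall₂.nil)) hx) (by simp [hl]; ring) ?_
    intro hW
    rw [hseg, List.map_append] at hW
    simp only [W_append, mul_assoc] at hW
    have h1 := W_cancel _ hW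
    rw [W_cons, W_nil, mul_one] at h1
    have h2 : W τ = W (((!L p) :: seg p r).map some) := by
      rw [List.map_cons, W_cons, ← h1, ← mul_assoc, wt_sq, one_mul]
    refine W_ne_of_lt (alt_not_seg p r) ?_ h2
    have := hx.length_eq
    simp
    omega
  have h1 : ext (Y 0 p ++ comp0 z :: zs) (Hw (p + r) h) =
      prodc (seg p r) zs * ext (Y 0 p ++ comp0 z :: Y p r) (Hw (p + r) h) := by
    have key : Only (seg p r) (Hp (Y 0 p ++ [comp0 z]) (Hw (p + r) h)) := ?_
    · have := E1 key zs (by simp [hzs])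
      rw [ext_Hp, ext_Hp] at this
      simpa [Y] using this
    intro xs τ hx hl hne
    rw [ext_Hp]
    refine Hw_typed hf (τ := ((seg 0 p).map some ++ [none]) ++ τ)
      (List.rel_append (List.rel_append (forall_Y 0 p)
        (List.Forall₂.cons (hasTy_comp0 _) List.Forall₂.nil)) hx)
      (by simp at hl; simp [hl]; ring) ?_
    intro hW
    rw [hseg, List.map_append] at hW
    simp only [W_append, mul_assoc] at hW
    have h1 := W_cancel _ hW
    rw [W_cons, W_nil, mul_one] at h1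
    simp only [wt, one_mul] at h1
    exact hne (eq_of_W_eq (alt_seg p r) (by rw [← hx.length_eq, hl]) h1)
  rw [ext_comp (Y 0 p) zs z _ (L p), h3, h1, mul_zero, add_zero]
  have e : Y 0 p ++ yv (L p) :: zs = Y (N := N) 0 (p + 1) ++ zs := by
    rw [Y_snoc, Nat.zero_add]; simp
  rw [e]
  ring

/-- the full alternating tensor of length `m + 1` is killed. -/
lemma Hw_full (hf : Fix (U (N := N)) (m + (m + 1)) h) : ext (Y 0 (m + 1)) (Hw m h) = 0 := by
  refine Hw_typed hf (forall_Y 0 (m + 1)) (by simp) ?_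
  exact fun h => W_ne_of_lt (alt_seg 0 (m + 1)) (by simp) h.symm

lemma ext_ins (A B : List (I N → ℝ)) (θ : I N → ℝ) (H : List (I N) → ℝ) (p : ℕ)
    (hp : A.length = p) :
    ext (A ++ θ :: B) H = ext (A ++ B) (fun l => ∑ i, θ i • H (l.take p ++ i :: l.drop p)) := by
  rw [ext_append, ext_append]
  refine ext_congr A fun a ha => ?_
  rw [ext_cons']
  refine ext_congr B fun b _ => ?_
  refine Finset.sum_congr rfl fun i _ => ?_
  rw [List.take_left' (by omega), List.drop_left' (by omega)]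

lemma Hw_ins (hf : Fix (U (N := N)) (m + (m + 1)) h) (p r : ℕ) (hm : m = p + r)
    (A B : List (I N → ℝ)) (hA : A.length = p) (hB : B.length = r)
    (θ : I N → ℝ) (hθ : HasTy θ none) :
    ext (A ++ θ :: B) (Hw m h) =
      prodc (seg 0 m) (A ++ B) * ext (Y 0 p ++ θ :: Y p r) (Hw m h) := by
  subst hm
  rw [ext_ins A B θ _ p hA, ext_ins (Y 0 p) (Y p r) θ _ p (by simp)]
  have e : Y 0 p ++ Y p r = Y (N := N) 0 (p + r) := by rw [Y_append, Nat.zero_add]
  rw [e]
  refine E1 ?_ _ (by simp [hA, hB])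
  intro xs τ hx hl hne
  rw [seg_length] at hl
  obtain ⟨x1, x2, rfl, h1, h2⟩ := split0 hl
  rw [← ext_ins x1 x2 θ _ p h1]
  have hτ := List.take_append_drop p τ
  refine Hw_typed hf (τ := τ.take p ++ none :: τ.drop p)
    (List.rel_append ?_ (List.Forall₂.cons hθ ?_)) (by simp; omega) ?_
  · have := List.forall₂_take p hx
    rwa [List.take_left' h1] at this
  · have := List.forall₂_drop p hx
    rwa [List.drop_left' h1] at this
  · intro hW
    rw [W_append, W_cons] at hW
    simp only [wt, one_mul] at hW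
    rw [← W_append, hτ] at hW
    exact hne (eq_of_W_eq (alt_seg 0 (p + r)) (by rw [← hx.length_eq]; simp; omega) hW)

/-- the key equivariance. -/
lemma Hw_gact {h : List (I N) → ℝ} (hh : IsG (U (N := N)) (m + (m + 1)) h)
    (σ : Equiv.Perm (I N)) (hσ : ∀ i, σ (σ i) = i) {zs : List (I N → ℝ)} {τ : List Ty}
    (hz : List.Forall₂ HasTy zs τ) (hl : zs.length = m + 1)
    (hW : W τ = W ((seg 0 m).map some)) :
    ext (gact σ zs) (Hw m h) = prodc (seg 0 m) (gact σ (Y 0 m)) * ext zs (Hw m h) := by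
  rw [ext_Hw, ext_Hw, E2_gact_left hh σ hσ _ _ (by simp [hl])]
  unfold E2
  refine E1 (ω := seg 0 m) ?_ _ (by simp)
  intro xs σs hx hl' hne
  refine E2_vanish hh.fix hx hz (by simp at hl'; omega) ?_
  rw [hW]
  intro hW'
  exact hne (eq_of_W_eq (alt_seg 0 m) (by rw [← hx.length_eq, hl']) hW')

lemma Hw_gact_zero {h : List (I N) → ℝ} (hh : IsG (U (N := N)) (m + (m + 1)) h)
    (σ : Equiv.Perm (I N)) (hσ : ∀ i, σ (σ i) = i) (ω : List Bool) (hω : Alt ω)
    (hl : ω.length = m + 1) : ext (gact σ (ω.map yv)) (Hw m h) = 0 := by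
  rw [ext_Hw, E2_gact_left hh σ hσ _ _ (by simp [hl])]
  unfold E2
  refine E0 m _ ?_ _ (by simp)
  intro xs σs hx hl'
  refine E2_vanish hh.fix hx (forall_yv ω) (by simp [hl, hl']) ?_
  exact W_ne_of_lt hω (by rw [← hx.length_eq]; omega)

lemma Hw_cap (hV : V 0 (m + (m + 1)) h) (P R : List (I N → ℝ)) (hl : P.length + R.length = m) :
    ext (P ++ (fun _ => 1) :: R) (Hw m h) = 0 := by
  rw [ext_mid]
  simp only [one_smul]
  rw [← ext_sum]
  refine ext_eq_zero P fun l hl1 => ?_
  rw [← ext_sum]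
  refine ext_eq_zero R fun l' hl2 => ?_
  unfold Hw
  rw [← ext_sum]
  refine ext_eq_zero _ fun a ha => ?_
  rw [Y_length] at ha
  have := hV.cap (a.reverse ++ l) l' (by simp; omega)
  simpa using this

lemma Hw_diag (hV : V 0 (m + (m + 1)) h) (P R : List (I N → ℝ))
    (hl : P.length + R.length + 1 = m) (i : I N) :
    ext P (fun l => ext R (fun l' => (Hw m h) (l ++ i :: i :: l'))) = 0 := by
  refine ext_eq_zero P fun l hl1 => ?_
  refine ext_eq_zero R fun l' hl2 => ?_
  unfold Hw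
  refine ext_eq_zero _ fun a ha => ?_
  rw [Y_length] at ha
  have := hV.mrg (a.reverse ++ l) i l' (by simp; omega) (by omega)
  simpa using this

lemma Hw_merge (hV : V 0 (m + (m + 1)) h) (P R : List (I N → ℝ))
    (hl : P.length + R.length + 1 = m) (u v u' v' : I N → ℝ)
    (huv : ∀ i j, i ≠ j → u i * v j + u' i * v' j = 0) :
    ext (P ++ u :: v :: R) (Hw m h) + ext (P ++ u' :: v' :: R) (Hw m h) = 0 := by
  rw [ext_two, ext_two, ← Finset.sum_add_distrib]
  refine Finset.sum_eq_zero fun i _ => ?_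
  rw [← Finset.sum_add_distrib]
  refine Finset.sum_eq_zero fun j _ => ?_
  rw [← add_smul]
  by_cases hij : i = j
  · subst hij
    rw [Hw_diag hV P R hl, smul_zero]
  · rw [huv i j hij, zero_smul]

/-- the functional `F`. -/
def F (m p r : ℕ) (h : List (I N) → ℝ) (x : I N → ℝ) : ℝ := ext (Y 0 p ++ x :: Y p r) (Hw m h)

lemma F_add (m p r : ℕ) (h : List (I N) → ℝ) (x y : I N → ℝ) :
    F m p r h (x + y) = F m p r h x + F m p r h y := ext_mid_add _ _ _ _ _

lemma F_smul (m p r : ℕ) (h : List (I N) → ℝ) (c : ℝ) (x : I N → ℝ) :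
    F m p r h (c • x) = c * F m p r h x := ext_mid_smul _ _ _ _ _

lemma F_sum (m p r : ℕ) (h : List (I N) → ℝ) {κ : Type*} (s : Finset κ) (x : κ → I N → ℝ) :
    F m p r h (∑ c ∈ s, x c) = ∑ c ∈ s, F m p r h (x c) := ext_mid_sum _ _ _ _ _

lemma one_eq : (fun _ => 1 : I N → ℝ) = onev true + onev false + ∑ c, ev c := by
  funext i
  match i with
  | Sum.inl (b, s) => cases b <;> cases s <;> simp [onev, ev]
  | Sum.inr c => simp [onev, ev]

lemma F_R1 (hV : V 0 (m + (m + 1)) h) (p r : ℕ) (hm : m = p + r) (b : Bool) :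
    F m p r h (onev b) + F m p r h (onev (!b)) + ∑ c, F m p r h (ev c) = 0 := by
  have h1 : F m p r h (fun _ => 1) = 0 := Hw_cap hV _ _ (by simp [hm])
  rw [one_eq, F_add, F_add, F_sum] at h1
  cases b
  · simp only [Bool.not_false]
    rw [← h1]; ring
  · simp only [Bool.not_true]
    rw [← h1]

lemma yv_onev (b : Bool) (i j : I N) (hij : i ≠ j) :
    yv b i * onev b j + onev b i * yv b j = 0 := by
  unfold yv onev
  by_cases h1 : i = Sum.inl (b, false) <;> by_cases h2 : i = Sum.inl (b, true) <;>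
    by_cases h3 : j = Sum.inl (b, false) <;> by_cases h4 : j = Sum.inl (b, true) <;>
    simp_all

lemma F_left (m p r : ℕ) (h : List (I N) → ℝ) (x : I N → ℝ) :
    F m p (r + 1) h x = ext (Y 0 p ++ x :: yv (L p) :: Y (p + 1) r) (Hw m h) := by
  unfold F
  rw [Y_succ]

lemma F_right (m p r : ℕ) (h : List (I N) → ℝ) (x : I N → ℝ) :
    F m (p + 1) r h x = ext (Y 0 p ++ yv (L p) :: x :: Y (p + 1) r) (Hw m h) := by
  unfold F
  rw [Y_snoc, Nat.zero_add]
  simp

lemma F_R2 (hV : V 0 (m + (m + 1)) h) (p r : ℕ) (hm : m = p + r + 1) :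
    F m (p + 1) r h (onev (L p)) = - F m p (r + 1) h (onev (L p)) := by
  rw [F_left, F_right]
  have := Hw_merge hV (Y 0 p) (Y (p + 1) r) (by simp [hm]) (yv (L p)) (onev (L p)) (onev (L p))
    (yv (L p)) (fun i j hij => yv_onev (L p) i j hij)
  linarith

end Odd

end H72QP
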