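import Pool.Agent.H72.QP.Odd

/-! The odd case: relations between the functionals. -/

namespace H72QP

open Finset

variable {N : ℕ}

/-- the vector `e_c - (e_{b,false} + e_{b,true}) / 2`. -/
noncomputable def th (b : Bool) (c : Fin N) : I N → ℝ := ev c + (-(1/2 : ℝ)) • onev b

/-- the transposition of `(b, false)` and `c`. -/
def gs (b : Bool) (c : Fin N) : Equiv.Perm (I N) := Equiv.swap (Sum.inl (b, false)) (Sum.inr c)

lemma gs_gs (b : Bool) (c : Fin N) (i : I N) : gs b c (gs b c i) = i := by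
  simp [gs]

lemma yv_gs (b : Bool) (c : Fin N) :
    (fun i => yv b (gs b c i)) = (1/2 : ℝ) • yv b + th b c := by
  funext i
  simp only [gs, Pi.add_apply, Pi.smul_apply, smul_eq_mul, th, Equiv.swap_apply_def, yv, onev, ev]
  match i with
  | Sum.inl (b', s) => cases b <;> cases b' <;> cases s <;> simp <;> norm_num
  | Sum.inr c' =>
    by_cases h : c' = c
    · subst h; simp
    · have h2 : ¬ (c = c') := fun e => h e.symm
      simp [h]

lemma yv_gs_ne (b : Bool) (c : Fin N) :
    (fun i => yv (!b) (gs b c i)) = yv (!b) := by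
  funext i
  simp only [gs, Equiv.swap_apply_def, yv]
  match i with
  | Sum.inl (b', s) => cases b <;> cases b' <;> cases s <;> simp
  | Sum.inr c' =>
    by_cases h : c' = c
    · subst h; cases b <;> simp
    · simp [h]

lemma cf_onev (b b' : Bool) : cf b (onev (N := N) b') = 0 := by
  cases b <;> cases b' <;> simp [cf, onev]

lemma cf_ev (b : Bool) (c : Fin N) : cf b (ev c) = 0 := by
  simp [cf, ev]

lemma cf_th (b b' : Bool) (c : Fin N) : cf b (th b' c) = 0 := by
  rw [th, cf_add, cf_smul, cf_onev, cf_ev]; simp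

lemma hasTy_th (b : Bool) (c : Fin N) : HasTy (th b c) none := hasTy_triv fun b' => cf_th b' b c

lemma comp0_of_cf {x : I N → ℝ} (h : ∀ b, cf b x = 0) : comp0 x = x := by
  rw [comp0, h, h]; simp

lemma comp0_add (x y : I N → ℝ) : comp0 (x + y) = comp0 x + comp0 y := by
  rw [comp0, comp0, comp0]
  simp only [cf_add, neg_add, add_smul]
  abel

lemma comp0_smul (r : ℝ) (x : I N → ℝ) : comp0 (r • x) = r • comp0 x := by
  rw [comp0, comp0]
  simp only [cf_smul]
  module

lemma comp0_yv (b : Bool) : comp0 (yv (N := N) b) = 0 := by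
  rw [comp0]
  cases b <;> simp [cf_yv]

lemma comp0_gs (b : Bool) (c : Fin N) : comp0 (fun i => yv b (gs b c i)) = th b c := by
  rw [yv_gs, comp0_add, comp0_smul, comp0_yv, comp0_of_cf fun b' => cf_th b' b c]
  simp

lemma cf_gs (b : Bool) (c : Fin N) : cf b (fun i => yv b (gs b c i)) = 1 / 2 := by
  rw [yv_gs, cf_add, cf_smul, cf_yv, cf_th]; simp

lemma cf_gs_not (b : Bool) (c : Fin N) : cf (!b) (fun i => yv b (gs b c i)) = 0 := by
  rw [yv_gs, cf_add, cf_smul, cf_yv, cf_th]; simp

lemma cf_gs_ne (b : Bool) (c : Fin N) : cf (!b) (fun i => yv (!b) (gs b c i)) = 1 := by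
  rw [yv_gs_ne, cf_yv]; simp

lemma cf_gs_ne' (b : Bool) (c : Fin N) : cf b (fun i => yv (!b) (gs b c i)) = 0 := by
  rw [yv_gs_ne, cf_yv]; simp

lemma cf_gs_pos (b b' : Bool) (c : Fin N) : 0 < cf b' (fun i => yv b' (gs b c i)) := by
  by_cases h : b' = b
  · subst h; rw [cf_gs]; norm_num
  · have : b' = !b := by cases b <;> cases b' <;> simp_all
    subst this
    rw [cf_gs_ne]; norm_num

lemma cf_gs_opp (b b' : Bool) (c : Fin N) : cf (!b') (fun i => yv b' (gs b c i)) = 0 := by
  by_cases h : b' = b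
  · subst h; rw [cf_gs_not]
  · have : b' = !b := by cases b <;> cases b' <;> simp_all
    subst this
    rw [Bool.not_not, cf_gs_ne']

lemma prodc_pos (σ : Equiv.Perm (I N)) (hσ : ∀ b, 0 < cf b (fun i => yv b (σ i)))
    (ω : List Bool) : 0 < prodc ω (gact σ (ω.map yv)) := by
  induction ω with
  | nil => simp
  | cons b ω ih =>
    simp only [List.map_cons, gact_cons, prodc_cons]
    exact mul_pos (hσ b) ih

section Odd

variable {m : ℕ} {h : List (I N) → ℝ}

lemma W_mid_none (u v : List Ty) : W (u ++ none :: v) = W (u ++ v) := by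
  simp [wt]

lemma F_R3 (hh : IsG (U (N := N)) (m + (m + 1)) h) (p r : ℕ)
    (hm : m = p + r + 1) (c : Fin N) :
    F m (p + 1) r h (th (L p) c) = F m p (r + 1) h (th (L p) c) := by
  rw [F_left, F_right]
  set b := L p with hb
  set σ := gs b c with hσdef
  set θ := th b c with hθ
  set P : List (I N → ℝ) := Y 0 p with hP
  set R : List (I N → ℝ) := Y (p + 1) r with hR
  have hσ : ∀ i, σ (σ i) = i := gs_gs b c
  have hpos := prodc_pos σ (fun b' => cf_gs_pos b b' c)
  have hseg : seg 0 m = seg 0 p ++ (b :: seg (p + 1) r) := by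
    rw [hm, show p + r + 1 = p + (r + 1) by ring, seg_append, Nat.zero_add, seg_succ]
  -- equivariance
  have t1 : List.Forall₂ HasTy (P ++ yv b :: θ :: R)
      ((seg 0 p).map some ++ some b :: none :: (seg (p + 1) r).map some) :=
    List.rel_append (forall_Y 0 p) (List.Forall₂.cons (hasTy_yv b)
      (List.Forall₂.cons (hasTy_th b c) (forall_Y (p + 1) r)))
  have t2 : List.Forall₂ HasTy (P ++ θ :: yv b :: R)
      ((seg 0 p).map some ++ none :: some b :: (seg (p + 1) r).map some) :=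
    List.rel_append (forall_Y 0 p) (List.Forall₂.cons (hasTy_th b c)
      (List.Forall₂.cons (hasTy_yv b) (forall_Y (p + 1) r)))
  have e1 := Hw_gact hh σ hσ t1 (by simp [hP, hR, hm]; ring) (by
    rw [hseg]
    simp [wt])
  have e2 := Hw_gact hh σ hσ t2 (by simp [hP, hR, hm]; ring) (by
    rw [hseg]
    simp [wt])
  set κ := prodc (seg 0 m) (gact σ (Y 0 m)) with hκ
  have hκpos : 0 < κ := hpos (seg 0 m)
  -- the antisymmetric identity
  have e3 : ext (gact σ (P ++ yv b :: θ :: R)) (Hw m h) - ext (gact σ (P ++ θ :: yv b :: R)) (Hw m h)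
      + (ext (gact σ P ++ yv b :: θ :: gact σ R) (Hw m h) -
        ext (gact σ P ++ θ :: yv b :: gact σ R) (Hw m h)) = 0 := by
    simp only [gact_append, gact_cons]
    rw [ext_two, ext_two, ext_two, ext_two]
    simp only [← Finset.sum_sub_distrib, ← Finset.sum_add_distrib, ← sub_smul, ← add_smul]
    refine Finset.sum_eq_zero fun i _ => Finset.sum_eq_zero fun j _ => ?_
    have key : yv b (σ i) * θ (σ j) - θ (σ i) * yv b (σ j) + (yv b i * θ j - θ i * yv b j) = 0 := by
      have h1 : ∀ i, yv b (σ i) = (1/2 : ℝ) * yv b i + θ i := fun i => congrFun (yv_gs b c) i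
      have h2 : ∀ i, θ (σ i) = (3/4 : ℝ) * yv b i - (1/2 : ℝ) * θ i := by
        intro i
        have := h1 (σ i)
        rw [hσ, h1 i] at this
        linarith
      rw [h1, h1, h2, h2]
      ring
    rw [key, zero_smul]
  -- insertion
  have e4 := Hw_ins hh.fix (p + 1) r (by omega) (gact σ P ++ [yv b]) (gact σ R)
    (by simp [hP]) (by simp [hR]) θ (hasTy_th b c)
  have e5 := Hw_ins hh.fix p (r + 1) (by omega) (gact σ P) (yv b :: gact σ R)
    (by simp [hP]) (by simp [hR]) θ (hasTy_th b c)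
  have e6 : gact σ P ++ [yv b] ++ θ :: gact σ R = gact σ P ++ yv b :: θ :: gact σ R := by simp
  have e7 : gact σ P ++ [yv b] ++ gact σ R = gact σ P ++ yv b :: gact σ R := by simp
  rw [e6, e7] at e4
  have e8 : Y (N := N) 0 (p + 1) ++ θ :: Y (p + 1) r = P ++ yv b :: θ :: R := by
    rw [Y_snoc, Nat.zero_add]; simp [hP, hR, hb]
  have e9 : Y (N := N) 0 p ++ θ :: Y p (r + 1) = P ++ θ :: yv b :: R := by
    rw [Y_succ]
  rw [e8] at e4
  rw [e9] at e5
  set κ' := prodc (seg 0 m) (gact σ P ++ yv b :: gact σ R) with hκ'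
  have hκ'pos : 0 < κ' := by
    rw [hκ', hseg, prodc_append _ _ _ _ (by simp [hP]), prodc_cons, cf_yv, if_pos rfl, one_mul]
    exact mul_pos (hpos _) (hpos _)
  rw [e1, e2, e4, e5] at e3
  have : (κ + κ') * (ext (P ++ yv b :: θ :: R) (Hw m h) - ext (P ++ θ :: yv b :: R) (Hw m h)) = 0 := by
    linarith
  rcases mul_eq_zero.1 this with h1 | h1
  · linarith
  · linarith

lemma F_R4 (hh : IsG (U (N := N)) (m + (m + 1)) h) (c : Fin N) :
    F m 0 m h (th (!L 0) c) = 0 := by
  set b := !L 0 with hb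
  set σ := gs b c with hσdef
  have hσ : ∀ i, σ (σ i) = i := gs_gs b c
  have hpos := prodc_pos σ (fun b' => cf_gs_pos b b' c)
  have h0 := Hw_gact_zero hh σ hσ (b :: seg 0 m) (alt_not_seg 0 m) (by simp)
  have h1 := Hw_one hh.fix 0 m (by simp) (fun i => yv b (σ i)) (gact σ (Y 0 m)) (by simp)
  have e : Y 0 0 ++ (fun i => yv b (σ i)) :: gact σ (Y 0 m) =
    gact σ ((b :: seg 0 m).map (yv (N := N))) := rfl
  rw [e, h0] at h1
  have h2 : cf (L 0) (fun i => yv b (σ i)) = 0 := by
    have := cf_gs_opp b b c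
    rwa [hb, Bool.not_not] at this
  rw [h2, zero_mul, zero_add, comp0_gs] at h1
  rcases mul_eq_zero.1 h1.symm with h3 | h3
  · exact absurd h3 (hpos _).ne'
  · exact h3

lemma F_R5 (hh : IsG (U (N := N)) (m + (m + 1)) h) (c : Fin N) :
    F m m 0 h (th (L m) c) = 0 := by
  set b := L m with hb
  set σ := gs b c with hσdef
  have hσ : ∀ i, σ (σ i) = i := gs_gs b c
  have claim : ∀ r p, m = p + r → ∃ κ : ℝ, 0 < κ ∧
      ext (Y 0 p ++ gact σ (Y p (r + 1))) (Hw m h) = κ * F m m 0 h (th (L m) c) := by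
    intro r
    induction r with
    | zero =>
      intro p hp
      obtain rfl : m = p := by omega
      refine ⟨1, one_pos, ?_⟩
      have hY0 : Y (N := N) (m + 1) 0 = [] := rfl
      rw [Y_succ, hY0, gact_cons, gact_nil,
        Hw_one hh.fix m 0 (by simp) _ [] rfl]
      have : Y 0 (m + 1) ++ [] = Y (N := N) 0 (m + 1) := by simp
      rw [this, Hw_full hh.fix, ← hb, comp0_gs]
      simp only [mul_zero, zero_add, seg_zero, prodc_nil, F]
    | succ r ih =>
      intro p hp
      obtain ⟨κ, hκ, h1⟩ := ih (p + 1) (by omega)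
      rw [Y_succ, gact_cons, Hw_one hh.fix p (r + 1) (by omega) _ _ (by simp), h1]
      have h2 : prodc (seg p (r + 1)) (gact σ (Y (N := N) (p + 1) (r + 1))) = 0 := by
        rw [seg_succ, Y_succ, gact_cons, prodc_cons]
        have := cf_gs_opp b (L (p + 1)) c
        rw [L_succ, Bool.not_not] at this
        rw [L_succ, this, zero_mul]
      rw [h2, zero_mul, add_zero]
      exact ⟨_, mul_pos (cf_gs_pos b (L p) c) hκ, by rw [mul_assoc]⟩
  obtain ⟨κ, hκ, h1⟩ := claim m 0 (by simp)
  have h0 := Hw_gact_zero hh σ hσ (seg 0 (m + 1)) (alt_seg 0 (m + 1)) (by simp)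
  have e : Y 0 0 ++ gact σ (Y 0 (m + 1)) = gact σ ((seg 0 (m + 1)).map (yv (N := N))) := rfl
  rw [e, h0] at h1
  rcases mul_eq_zero.1 h1.symm with h3 | h3
  · exact absurd h3 hκ.ne'
  · exact h3

end Odd

end H72QP
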