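import Pool.Agent.H72.QP.Odd2

/-! The odd case: conclusion. -/

namespace H72QP

open Finset

variable {N : ℕ}

lemma triv_decomp {x : I N → ℝ} (h : ∀ b, cf b x = 0) :
    x = x (Sum.inl (true, false)) • onev true + x (Sum.inl (false, false)) • onev false +
      ∑ c, x (Sum.inr c) • ev c := by
  have h1 : ∀ b, x (Sum.inl (b, false)) = x (Sum.inl (b, true)) := by
    intro b
    have := h b
    simp only [cf] at this
    linarith
  funext i
  match i with
  | Sum.inl (b, s) => cases b <;> cases s <;> simp [onev, ev, h1]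
  | Sum.inr c => simp [onev, ev]

lemma cf_of_hasTy {x : I N → ℝ} (h : HasTy x none) (b : Bool) : cf b x = 0 := by
  have h1 := h (Sum.inl (b, false))
  rw [sum_I] at h1
  have h2 := congrFun (congrFun h1 0) 0
  cases b
  · simp [U, wt, pp, qq, refl] at h2
    simp only [cf]
    linarith
  · simp [U, wt, pp, qq, refl] at h2
    simp only [cf]
    linarith

section Odd

variable {m : ℕ} {h : List (I N) → ℝ}

lemma F_zero_of_basis (p r : ℕ) (h1 : ∀ b, F m p r h (onev b) = 0)
    (h2 : ∀ c, F m p r h (ev c) = 0) {x : I N → ℝ} (hx : ∀ b, cf b x = 0) :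
    F m p r h x = 0 := by
  rw [triv_decomp hx, F_add, F_add, F_smul, F_smul, F_sum, h1, h1]
  simp only [F_smul, h2]
  simp

theorem F_zero_pos (hh : IsG (U (N := N)) (m + (m + 1)) h) (hV : V 0 (m + (m + 1)) h)
    (c0 : Fin N) (p r : ℕ) (hm : m = p + r) {x : I N → ℝ} (hx : ∀ b, cf b x = 0) :
    F m p r h x = 0 := by
  obtain ⟨γ, hγ⟩ : ∃ γ, γ = (1/2) * F m 0 m h (onev (!L 0)) := ⟨_, rfl⟩
  have claim : ∀ p r, m = p + r → ∃ G V : ℝ, 1 ≤ G ∧ 0 ≤ V ∧
      (∀ c, F m p r h (ev c) = G * γ) ∧ F m p r h (onev (!L p)) = V * γ ∧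
      F m p r h (onev (L p)) = -(V + N * G) * γ := by
    intro p
    induction p with
    | zero =>
      intro r hr
      obtain rfl : m = r := by omega
      have hc : ∀ c, F m 0 m h (ev c) = γ := by
        intro c
        have := F_R4 hh c
        rw [th, F_add, F_smul] at this
        rw [hγ]; linarith
      have h2 : F m 0 m h (onev (!L 0)) = 2 * γ := by rw [hγ]; ring
      refine ⟨1, 2, le_refl _, by norm_num, fun c => by rw [hc, one_mul], h2, ?_⟩
      have h1 := F_R1 hV 0 m (by simp) (L 0)
      rw [h2] at h1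
      simp only [hc, Finset.sum_const, Finset.card_univ, Fintype.card_fin, nsmul_eq_mul] at h1
      linarith
    | succ p ih =>
      intro r hr
      obtain ⟨G, V, hG, hVn, h1, h2, h3⟩ := ih (r + 1) (by omega)
      have hR2 := F_R2 hV p r (by omega)
      have hR3 := F_R3 hh p r (by omega)
      have hN : (0 : ℝ) ≤ N := Nat.cast_nonneg N
      have e1 : F m (p + 1) r h (onev (!L (p + 1))) = (V + N * G) * γ := by
        rw [L_succ, Bool.not_not, hR2, h3]; ring
      have e2 : ∀ c, F m (p + 1) r h (ev c) = (G + (V + N * G)) * γ := by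
        intro c
        have := hR3 c
        rw [th, F_add, F_smul, F_add, F_smul, hR2, h3, h1 c] at this
        linarith
      have hNG : 0 ≤ (N : ℝ) * G := mul_nonneg hN (by linarith)
      refine ⟨G + (V + N * G), V + N * G, by linarith, by linarith, e2, e1, ?_⟩
      have h4 := F_R1 hV (p + 1) r (by omega) (L (p + 1))
      rw [e1] at h4
      simp only [e2, Finset.sum_const, Finset.card_univ, Fintype.card_fin, nsmul_eq_mul] at h4
      linarith
  have hγ0 : γ = 0 := by
    obtain ⟨G, V, hG, hVn, h1, h2, h3⟩ := claim m 0 (by simp)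
    have := F_R5 hh c0
    rw [th, F_add, F_smul, h1 c0, h3] at this
    have hN : (0 : ℝ) ≤ N := Nat.cast_nonneg N
    have hNG : 0 ≤ (N : ℝ) * G := mul_nonneg hN (by linarith)
    have h5 : (G + (1/2) * (V + N * G)) * γ = 0 := by linarith
    rcases mul_eq_zero.1 h5 with h6 | h6
    · linarith
    · exact h6
  obtain ⟨G, V, _, _, h1, h2, h3⟩ := claim p r hm
  rw [hγ0, mul_zero] at h2 h3
  refine F_zero_of_basis p r ?_ (fun c => by rw [h1 c, hγ0, mul_zero]) hx
  intro b
  by_cases hb : b = L p
  · rw [hb]; exact h3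
  · have : b = !L p := by
      cases b <;> cases hLp : L p <;> simp_all
    rw [this]; exact h2

/-- the transposition mixing the two pairs. -/
def g0 : Equiv.Perm (I N) := Equiv.swap (Sum.inl (false, true)) (Sum.inl (true, false))

lemma g0_g0 (i : I N) : g0 (g0 i) = i := by simp [g0]

lemma yv_g0 (b : Bool) : (fun i => yv (N := N) b (g0 i)) =
    (1/2 : ℝ) • yv b + (-(1/2 : ℝ)) • yv (!b) + ((1/2 : ℝ) • onev false + (-(1/2 : ℝ)) • onev true) := by
  funext i
  simp only [g0, Equiv.swap_apply_def, yv, onev, Pi.add_apply, Pi.smul_apply, smul_eq_mul]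
  match i with
  | Sum.inl (b', s) => cases b <;> cases b' <;> cases s <;> simp <;> norm_num
  | Sum.inr c' => simp

lemma cf_g0 (b : Bool) : cf b (fun i => yv (N := N) b (g0 i)) = 1 / 2 := by
  rw [yv_g0]
  simp only [cf_add, cf_smul, cf_yv, cf_onev]
  simp

lemma cf_g0_not (b : Bool) : cf (!b) (fun i => yv (N := N) b (g0 i)) = -(1 / 2) := by
  rw [yv_g0]
  simp only [cf_add, cf_smul, cf_yv, cf_onev]
  simp

lemma comp0_g0 (b : Bool) : comp0 (fun i => yv (N := N) b (g0 i)) =
    ((1/2 : ℝ) • onev false + (-(1/2 : ℝ)) • onev true) := by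
  rw [yv_g0, comp0_add, comp0_add, comp0_smul, comp0_smul, comp0_yv, comp0_yv,
    comp0_of_cf (x := (1/2 : ℝ) • onev false + (-(1/2 : ℝ)) • onev true)]
  · simp
  · intro b'
    simp only [cf_add, cf_smul, cf_onev]
    simp

/-- sign of a letter. -/
def sg (b : Bool) : ℝ := if b then 1 else -1

lemma sg_not (b : Bool) : sg (!b) = - sg b := by cases b <;> simp [sg]

theorem F_zero_nil {h : List (I 0) → ℝ} (hh : IsG (U (N := 0)) (m + (m + 1)) h)
    (hV : V 0 (m + (m + 1)) h)
    (p r : ℕ) (hm : m = p + r) {x : I 0 → ℝ} (hx : ∀ b, cf b x = 0) :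
    F m p r h x = 0 := by
  obtain ⟨v, hv⟩ : ∃ v, v = F m 0 m h (onev (!L 0)) := ⟨_, rfl⟩
  have hA : ∀ p r, m = p + r → F m p r h (onev (!L p)) = v ∧ F m p r h (onev (L p)) = -v := by
    intro p
    induction p with
    | zero =>
      intro r hr
      obtain rfl : m = r := by omega
      have h1 := F_R1 hV 0 m (by simp) (L 0)
      simp only [Finset.univ_eq_empty, Finset.sum_empty, add_zero] at h1
      rw [← hv] at h1
      exact ⟨hv.symm, by linarith⟩
    | succ p ih =>
      intro r hr
      obtain ⟨h1, h2⟩ := ih (r + 1) (by omega)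
      have hR2 := F_R2 hV p r (by omega)
      have h3 : F m (p + 1) r h (onev (!L (p + 1))) = v := by
        rw [L_succ, Bool.not_not, hR2, h2, neg_neg]
      have h4 := F_R1 hV (p + 1) r (by omega) (L (p + 1))
      simp only [Finset.univ_eq_empty, Finset.sum_empty, add_zero] at h4
      exact ⟨h3, by linarith⟩
  have hB : ∀ p r, m = p + r →
      F m p r h ((1/2 : ℝ) • onev false + (-(1/2 : ℝ)) • onev true) = sg (L p) * v := by
    intro p r hr
    obtain ⟨h1, h2⟩ := hA p r hr
    rw [F_add, F_smul, F_smul]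
    cases hL : L p
    · rw [hL] at h1 h2
      simp only [Bool.not_false] at h1
      rw [h1, h2]
      simp [sg]; ring
    · rw [hL] at h1 h2
      simp only [Bool.not_true] at h1
      rw [h1, h2]
      simp [sg]; ring
  have hC : ∀ r p, m = p + r → ext (Y 0 p ++ gact g0 (Y p (r + 1))) (Hw m h) =
      (r + 1) * (1/2) ^ r * (sg (L m) * v) := by
    intro r
    induction r with
    | zero =>
      intro p hp
      obtain rfl : m = p := by omega
      have hY0 : Y (N := 0) (m + 1) 0 = [] := rfl
      rw [Y_succ, hY0, gact_cons, gact_nil, Hw_one hh.fix m 0 (by simp) _ [] rfl]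
      have : Y 0 (m + 1) ++ [] = Y (N := 0) 0 (m + 1) := by simp
      rw [this, Hw_full hh.fix, comp0_g0]
      have := hB m 0 (by simp)
      rw [F] at this
      rw [this]
      simp
    | succ r ih =>
      intro p hp
      have h1 := ih (p + 1) (by omega)
      rw [Y_succ, gact_cons, Hw_one hh.fix p (r + 1) (by omega) _ _ (by simp), h1, cf_g0,
        comp0_g0]
      have h2 : ∀ q i, prodc (seg i q) (gact g0 (Y (N := 0) (i + 1) q)) = (-(1/2)) ^ q := by
        intro q
        induction q with
        | zero => intro i; simp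
        | succ q ihq =>
          intro i
          rw [seg_succ, Y_succ, gact_cons, prodc_cons, ihq (i + 1)]
          have := cf_g0_not (N := 0) (L (i + 1))
          rw [L_succ, Bool.not_not] at this
          rw [L_succ, this, pow_succ]
          ring
      have h3 := hB p (r + 1) (by omega)
      rw [F] at h3
      rw [h3, h2]
      have h4 : ∀ q i, sg (L (i + q)) = (-1) ^ q * sg (L i) := by
        intro q
        induction q with
        | zero => intro i; simp
        | succ q ihq =>
          intro i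
          rw [← add_assoc, L_succ, sg_not, ihq i, pow_succ]; ring
      have h5 := h4 (r + 1) p
      rw [← hp] at h5
      rw [h5]
      have h6 : (-(1/2) : ℝ) ^ (r + 1) = (-1) ^ (r + 1) * (1/2) ^ (r + 1) := by
        rw [← mul_pow]; norm_num
      rw [h6]
      push_cast
      ring
  have hv0 : v = 0 := by
    have h1 := hC m 0 (by simp)
    have h0 := Hw_gact_zero hh g0 g0_g0 (seg 0 (m + 1)) (alt_seg 0 (m + 1)) (by simp)
    have e : Y 0 0 ++ gact g0 (Y 0 (m + 1)) = gact g0 ((seg 0 (m + 1)).map (yv (N := 0))) := rfl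
    rw [e, h0] at h1
    have h2 : (((m : ℝ) + 1) * (1/2) ^ m * sg (L m)) * v = 0 := by linarith
    rcases mul_eq_zero.1 h2 with h3 | h3
    · exfalso
      have h4 : ((m : ℝ) + 1) * (1/2) ^ m * sg (L m) ≠ 0 := by
        have : sg (L m) ≠ 0 := by cases L m <;> simp [sg]
        positivity
      exact h4 h3
    · exact h3
  obtain ⟨h1, h2⟩ := hA p r hm
  rw [hv0] at h1 h2
  refine F_zero_of_basis p r ?_ (fun c => c.elim0) hx
  intro b
  by_cases hb : b = L p
  · rw [hb, h2, neg_zero]
  · have : b = !L p := by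
      cases b <;> cases hLp : L p <;> simp_all
    rw [this]; exact h1

theorem F_zero (hh : IsG (U (N := N)) (m + (m + 1)) h) (hV : V 0 (m + (m + 1)) h)
    (p r : ℕ) (hm : m = p + r) {x : I N → ℝ} (hx : ∀ b, cf b x = 0) :
    F m p r h x = 0 := by
  rcases Nat.eq_zero_or_pos N with hN | hN
  · subst hN
    exact F_zero_nil hh hV p r hm hx
  · exact F_zero_pos hh hV ⟨0, hN⟩ p r hm hx

lemma forall2_split {α β : Type*} {R : α → β → Prop} {xs : List α} {τ1 τ2 : List β} {t : β}
    (h : List.Forall₂ R xs (τ1 ++ t :: τ2)) :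
    ∃ x1 x x2, xs = x1 ++ x :: x2 ∧ R x t := by
  induction τ1 generalizing xs with
  | nil =>
    match xs, h with
    | x :: xs, List.Forall₂.cons hx _ => exact ⟨[], x, xs, rfl, hx⟩
  | cons s τ1 ih =>
    match xs, h with
    | x :: xs, List.Forall₂.cons _ hxs =>
      obtain ⟨x1, y, x2, rfl, hy⟩ := ih hxs
      exact ⟨x :: x1, y, x2, rfl, hy⟩

theorem Hw_zero (hh : IsG (U (N := N)) (m + (m + 1)) h) (hV : V 0 (m + (m + 1)) h)
    (zs : List (I N → ℝ)) (hl : zs.length = m + 1) : ext zs (Hw m h) = 0 := by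
  refine E0 (m + 1) _ (fun xs τ hx hlx => ?_) zs hl
  by_cases hn : none ∈ τ
  · obtain ⟨τ1, τ2, rfl⟩ := List.append_of_mem hn
    obtain ⟨x1, x, x2, rfl, hxn⟩ := forall2_split hx
    have hlen : x1.length + x2.length = m := by simp at hlx; omega
    rw [Hw_ins hh.fix x1.length x2.length hlen.symm x1 x2 rfl rfl x hxn]
    have := F_zero hh hV x1.length x2.length hlen.symm (cf_of_hasTy hxn)
    rw [F] at this
    rw [this, mul_zero]
  · refine Hw_typed hh.fix hx hlx ?_
    intro hW
    have h1 := congrArg Matrix.det hW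
    rw [det_W τ hn, det_W _ (by simp), ← hx.length_eq, hlx] at h1
    simp only [List.length_map, seg_length] at h1
    rw [pow_succ] at h1
    have h2 : ((-1 : ℝ)) ^ m ≠ 0 := by positivity
    have h3 : (-1 : ℝ) ^ m * 2 = 0 := by linarith
    rcases mul_eq_zero.1 h3 with h4 | h4
    · exact h2 h4
    · norm_num at h4

end Odd

end H72QP
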