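import Pool.Agent.H72.QP.Irr

/-! Orthogonal projections of functions on words and the inductive step. -/

namespace H72QP

open Finset

variable {ι : Type*} [Fintype ι]

lemma S_two {R : Type*} [AddCommMonoid R] (p q : ℕ) (F : List ι → R) :
    S (p + q) F = S p (fun a => S q (fun b => F (a.reverse ++ b))) := by
  rw [S_split, ← S_reverse]

/-- lists from vectors. -/
noncomputable def toL (k : ℕ) (v : EuclideanSpace ℝ (Fin k → ι)) : List ι → ℝ := fun l =>
  if hl : l.length = k then v (fun i => l.get (i.cast hl.symm)) else 0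

noncomputable def ofL (k : ℕ) (f : List ι → ℝ) : EuclideanSpace ℝ (Fin k → ι) :=
  WithLp.toLp 2 (fun v => f (List.ofFn v))

lemma toL_ofL (k : ℕ) (f : List ι → ℝ) (l : List ι) (hl : l.length = k) :
    toL k (ofL k f) l = f l := by
  subst hl
  simp [toL, ofL]

lemma toL_ofFn (k : ℕ) (v : EuclideanSpace ℝ (Fin k → ι)) (w : Fin k → ι) :
    toL k v (List.ofFn w) = v w := by
  have : (List.ofFn w).length = k := by simp
  simp only [toL, this, dite_true]
  have e : (fun i : Fin k => (List.ofFn w).get (i.cast this.symm)) = w := by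
    funext i
    simp
  rw [e]

lemma inner_ofL (k : ℕ) (v : EuclideanSpace ℝ (Fin k → ι)) (g : EuclideanSpace ℝ (Fin k → ι)) :
    S k (fun l => toL k v l * toL k g l) = inner ℝ v g := by
  rw [S_ofFn, PiLp.inner_apply]
  refine Finset.sum_congr rfl fun w _ => ?_
  rw [toL_ofFn, toL_ofFn]
  simp [mul_comm]

theorem exists_proj (k : ℕ) (P : (List ι → ℝ) → Prop) (h0 : P (fun _ => 0))
    (hadd : ∀ f g, P f → P g → P (fun l => f l + g l))
    (hsmul : ∀ (c : ℝ) f, P f → P (fun l => c * f l))
    (hcongr : ∀ f g, P f → (∀ l, l.length = k → f l = g l) → P g) (h : List ι → ℝ) :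
    ∃ f g : List ι → ℝ, P f ∧ (∀ l, l.length = k → h l = f l + g l) ∧
      ∀ f', P f' → S k (fun l => f' l * g l) = 0 := by
  let W : Submodule ℝ (EuclideanSpace ℝ (Fin k → ι)) :=
    { carrier := {v | P (toL k v)}
      add_mem' := by
        intro a b ha hb
        refine hcongr _ _ (hadd _ _ ha hb) fun l hl => ?_
        simp [toL, hl]
      zero_mem' := by
        refine hcongr _ _ h0 fun l hl => ?_
        simp [toL]
      smul_mem' := by
        intro c a ha
        refine hcongr _ _ (hsmul c _ ha) fun l hl => ?_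
        simp [toL, hl] }
  obtain ⟨y, hy, z, hz, hyz⟩ := W.exists_add_mem_mem_orthogonal (ofL k h)
  refine ⟨toL k y, toL k z, hy, ?_, ?_⟩
  · intro l hl
    rw [← toL_ofL k h l hl, hyz]
    simp [toL, hl]
  · intro f' hf'
    have h1 : ofL k f' ∈ W := by
      refine hcongr _ _ hf' fun l hl => ?_
      rw [toL_ofL k f' l hl]
    have h2 := hz _ h1
    rw [← inner_ofL] at h2
    rw [← h2]
    exact S_congr k fun l hl => by rw [toL_ofL k f' l hl]

section IsG

variable [DecidableEq ι] {R : Type*} [Ring R] [Algebra ℝ R]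

/-- the permutation matrix. -/
def permM (K : Type*) [Zero K] [One K] (σ : Equiv.Perm ι) : ι → ι → K :=
  fun i j => if j = σ i then 1 else 0

lemma act_permM {K : Type*} [Semiring K] (σ : Equiv.Perm ι) (l : List ι) (h : List ι → K) :
    act (permM K σ) l h = h (l.map σ) := by
  induction l generalizing h with
  | nil => rfl
  | cons i l ih =>
    rw [act_cons]
    simp [permM, ih]

lemma magic_permM {K : Type*} [Ring K] (σ : Equiv.Perm ι) : Magic (permM K σ) := by
  constructor
  · intro i j k
    simp only [permM]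
    by_cases h1 : j = σ i <;> by_cases h2 : k = σ i <;> simp [h1, h2]
    · intro h; exact absurd h.symm h2
  · intro i j k
    simp only [permM]
    by_cases h1 : i = σ j <;> by_cases h2 : i = σ k
    · have : j = k := σ.injective (h1.symm.trans h2)
      subst this
      simp [h1]
    · have : j ≠ k := by rintro rfl; exact h2 h1
      simp [h2, this]
    · simp [h1]
    · simp [h1]
  · intro i
    simp [permM]
  · intro j
    simp only [permM]
    rw [Finset.sum_eq_single (σ.symm j)]
    · simp
    · intro b _ hb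
      rw [if_neg]
      rintro rfl
      exact hb (by simp)
    · simp

/-- fixed by the model `M` and by all permutations. -/
structure IsG (M : ι → ι → R) (k : ℕ) (h : List ι → ℝ) : Prop where
  fix : Fix M k h
  inv : ∀ σ : Equiv.Perm ι, Fix (permM ℝ σ) k h

variable {M : ι → ι → R}

lemma fix_permM_iff {k : ℕ} {h : List ι → ℝ} (σ : Equiv.Perm ι) :
    Fix (permM ℝ σ) k h ↔ ∀ l, l.length = k → h (l.map σ) = h l := by
  simp [Fix, act_permM]

lemma IsG.perm {k : ℕ} {h : List ι → ℝ} (hh : IsG M k h) (σ : Equiv.Perm ι) (l : List ι)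
    (hl : l.length = k) : h (l.map σ) = h l :=
  (fix_permM_iff σ).1 (hh.inv σ) l hl

lemma IsG.congr {k : ℕ} {h h' : List ι → ℝ} (hf : IsG M k h)
    (e : ∀ l, l.length = k → h l = h' l) : IsG M k h' :=
  ⟨hf.fix.congr e, fun σ => (hf.inv σ).congr e⟩

lemma IsG.add {k : ℕ} {h h' : List ι → ℝ} (hf : IsG M k h) (hf' : IsG M k h') :
    IsG M k (fun l => h l + h' l) :=
  ⟨hf.fix.add hf'.fix, fun σ => (hf.inv σ).add (hf'.inv σ)⟩

lemma IsG.smul {k : ℕ} {h : List ι → ℝ} (hf : IsG M k h) (c : ℝ) :
    IsG M k (fun l => c * h l) :=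
  ⟨hf.fix.smul c, fun σ => (hf.inv σ).smul c⟩

lemma Gen.isG (hM : Magic M) {k : ℕ} {h : List ι → ℝ} (hf : Gen ℝ k h) : IsG M k h :=
  ⟨hf.fix hM, fun σ => hf.fix (magic_permM σ)⟩

theorem decomp (hM : Magic M) (k : ℕ) (prev : ∀ h : List ι → ℝ, IsG M k h → Gen ℝ k h)
    (h : List ι → ℝ) (hh : IsG M (k + 1) h) :
    ∃ f g : List ι → ℝ, Gen ℝ (k + 1) f ∧ IsG M (k + 1) g ∧ V 0 (k + 1) g ∧
      ∀ l, l.length = k + 1 → h l = f l + g l := by
  obtain ⟨f, g, hf, hfg, hg⟩ := exists_proj (k + 1) (Gen ℝ (k + 1)) (Gen.zero fun _ _ => rfl)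
    (fun _ _ h1 h2 => h1.add h2) (fun c _ h1 => h1.smul c) (fun _ _ h1 e => h1.congr e) h
  have hgG : IsG M (k + 1) g := by
    refine (hh.add ((Gen.isG hM hf).smul (-1))).congr fun l hl => ?_
    rw [hfg l hl]; ring
  have hgV : V 0 (k + 1) g := by
    constructor
    · intro a b hab
      obtain ⟨i, hi⟩ : ∃ i, a.length = i := ⟨_, rfl⟩
      obtain ⟨j, hj⟩ : ∃ j, b.length = j := ⟨_, rfl⟩
      obtain rfl : k = i + j := by omega
      set s : List ι → ℝ := fun l => ∑ c, g (l.take i ++ c :: l.drop i) with hs
      have es : ∀ a b : List ι, a.length = i → b.length = j →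
          s (a ++ b) = ∑ c, g (a ++ c :: b) := by
        intro a b ha _
        simp only [hs, List.take_left' ha, List.drop_left' ha]
      have hsG : IsG M (i + j) s :=
        ⟨hgG.fix.cap hM es, fun σ => (hgG.inv σ).cap (magic_permM σ) es⟩
      have hs' := prev s hsG
      have hf' : Gen ℝ (i + j + 1) (fun l => s (l.take i ++ l.drop (i + 1))) := by
        refine Gen.ins i j hs' fun a c b ha hb => ?_
        rw [List.take_left' ha, show a ++ c :: b = (a ++ [c]) ++ b by simp,
          List.drop_left' (by simp [ha])]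
      have h0 := hg _ hf'
      rw [S_ins (f := s) (i := i) (j := j)] at h0
      · have h1 : S i (fun a => S j (fun b => s (a ++ b) * s (a ++ b))) = 0 := by
          rw [← h0]
          exact S_congr i fun a ha => S_congr j fun b hb => by rw [es a b ha hb]
        have h2 := S_eq_zero_iff_of_nonneg i
          (fun a _ => S_nonneg j fun b _ => mul_self_nonneg _) h1 a hi
        have h3 := S_eq_zero_iff_of_nonneg j (fun b _ => mul_self_nonneg _) h2 b hj
        rw [← es a b hi hj]
        simpa using h3
      · intro a c b ha hb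
        rw [List.take_left' ha, show a ++ c :: b = (a ++ [c]) ++ b by simp,
          List.drop_left' (by simp [ha])]
    · intro a c b hab _
      obtain ⟨i, hi⟩ : ∃ i, a.length = i := ⟨_, rfl⟩
      obtain ⟨j, hj⟩ : ∃ j, b.length = j := ⟨_, rfl⟩
      obtain rfl : k = i + j + 1 := by omega
      set s : List ι → ℝ := fun l => g (l.take (i + 1) ++ l.drop i) with hs
      have es : ∀ (a : List ι) (c : ι) (b : List ι), a.length = i → b.length = j →
          s (a ++ c :: b) = g (a ++ c :: c :: b) := by
        intro a c b ha _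
        have e1 : (a ++ c :: b).take (i + 1) = a ++ [c] := by
          rw [show a ++ c :: b = (a ++ [c]) ++ b by simp]
          exact List.take_left' (by simp [ha])
        simp only [hs, e1, List.drop_left' ha]
        simp
      have hsG : IsG M (i + j + 1) s :=
        ⟨Fix.merge hM hgG.fix es, fun σ => Fix.merge (magic_permM σ) (hgG.inv σ) es⟩
      have hs' := prev s hsG
      obtain ⟨f2, hf2⟩ : ∃ f2 : List ι → ℝ, f2 = fun l : List ι =>
        if l[i]? = l[i+1]? then s (l.take i ++ l.drop (i + 1)) else 0 := ⟨_, rfl⟩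
      have e' : ∀ a c d b, a.length = i → b.length = j →
          f2 (a ++ c :: d :: b) = if c = d then s (a ++ d :: b) else 0 := by
        intro a c d b ha hb
        have e1 : (a ++ c :: d :: b)[i]? = some c := by
          rw [← ha]; simp
        have e2 : (a ++ c :: d :: b)[i+1]? = some d := by
          rw [← ha, List.getElem?_append_right (by omega)]; simp
        have e3 : (a ++ c :: d :: b).drop (i + 1) = d :: b := by
          rw [show a ++ c :: d :: b = (a ++ [c]) ++ d :: b by simp]
          exact List.drop_left' (by simp [ha])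
        simp only [hf2, e1, e2, e3, List.take_left' ha, Option.some.injEq]
      have hf' := Gen.dup i j hs' e'
      have h0 := hg _ hf'
      rw [S_dup e'] at h0
      have h1 : S i (fun a => ∑ d, S j (fun b => s (a ++ d :: b) * s (a ++ d :: b))) = 0 := by
        rw [← h0]
        refine S_congr i fun a ha => Finset.sum_congr rfl fun d _ => S_congr j fun b hb => ?_
        rw [es a d b ha hb]
      have h2 := S_eq_zero_iff_of_nonneg i (fun a _ => Finset.sum_nonneg fun d _ =>
        S_nonneg j fun b _ => mul_self_nonneg _) h1 a hi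
      rw [Finset.sum_eq_zero_iff_of_nonneg
        (fun d _ => S_nonneg j fun b _ => mul_self_nonneg _)] at h2
      have h3 := S_eq_zero_iff_of_nonneg j (fun b _ => mul_self_nonneg _) (h2 c (by simp)) b hj
      rw [← es a c b hi hj]
      simpa using h3
  exact ⟨f, g, hf, hgG, hgV, hfg⟩

theorem gen_step (hM : Magic M) (k : ℕ) (prev : ∀ h : List ι → ℝ, IsG M k h → Gen ℝ k h)
    (main : ∀ h : List ι → ℝ, IsG M (k + 1) h → V 0 (k + 1) h →
      ∀ l, l.length = k + 1 → h l = 0) :
    ∀ h : List ι → ℝ, IsG M (k + 1) h → Gen ℝ (k + 1) h := by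
  intro h hh
  obtain ⟨f, g, hf, hgG, hgV, hfg⟩ := decomp hM k prev h hh
  have hg0 := main g hgG hgV
  exact hf.congr fun l hl => by rw [hfg l hl, hg0 l hl, add_zero]

end IsG

end H72QP
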