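import Pool.Agent.H72.QP.Proj

/-! The two-reflection model and its weights. -/

namespace H72QP

open Finset

/-- the letters: two pairs, indexed by `Bool × Bool`, and `N` further letters. -/
abbrev I (N : ℕ) := (Bool × Bool) ⊕ Fin N

/-- types of eigenvectors: `none` is the trivial type. -/
abbrev Ty := Option Bool

section Model

/-- the two reflections. -/
noncomputable def refl : Bool → Matrix (Fin 2) (Fin 2) ℝ
  | true => !![3/5, -4/5; -4/5, -3/5]
  | false => !![3/5, 4/5; 4/5, -3/5]

lemma refl_sq (b : Bool) : refl b * refl b = 1 := by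
  cases b <;>
  · ext i j
    fin_cases i <;> fin_cases j <;> simp [refl, Matrix.mul_apply, Fin.sum_univ_two] <;> norm_num

/-- the weight of a type. -/
noncomputable def wt : Ty → Matrix (Fin 2) (Fin 2) ℝ
  | none => 1
  | some b => refl b

lemma wt_sq (t : Ty) : wt t * wt t = 1 := by
  cases t with
  | none => simp [wt]
  | some b => exact refl_sq b

/-- the weight of a list of types. -/
noncomputable def W (τ : List Ty) : Matrix (Fin 2) (Fin 2) ℝ := (τ.map wt).prod

@[simp] lemma W_nil : W [] = 1 := rfl

@[simp] lemma W_cons (t : Ty) (τ : List Ty) : W (t :: τ) = wt t * W τ := by simp [W]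

@[simp] lemma W_append (σ τ : List Ty) : W (σ ++ τ) = W σ * W τ := by simp [W]

lemma W_mul_reverse (σ : List Ty) : W σ * W σ.reverse = 1 := by
  induction σ with
  | nil => simp
  | cons s σ ih =>
    rw [List.reverse_cons, W_cons, W_append, W_cons, W_nil, mul_one]
    calc wt s * W σ * (W σ.reverse * wt s) = wt s * (W σ * W σ.reverse) * wt s := by
          simp only [mul_assoc]
      _ = 1 := by rw [ih, mul_one, wt_sq]

lemma wt_cancel (t : Ty) {X Y : Matrix (Fin 2) (Fin 2) ℝ} (h : wt t * X = wt t * Y) : X = Y := by
  have := congrArg (fun Z => wt t * Z) h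
  simpa [← mul_assoc, wt_sq] using this

lemma W_cancel (σ : List Ty) {X Y : Matrix (Fin 2) (Fin 2) ℝ} (h : W σ * X = W σ * Y) : X = Y := by
  induction σ with
  | nil => simpa using h
  | cons s σ ih =>
    rw [W_cons, mul_assoc, mul_assoc] at h
    exact ih (wt_cancel s h)

/-- integer form of the first column of `5 ^ |τ| • W τ`. -/
def col : List Ty → ℤ × ℤ
  | [] => (1, 0)
  | none :: τ => (5 * (col τ).1, 5 * (col τ).2)
  | some true :: τ => (3 * (col τ).1 - 4 * (col τ).2, -4 * (col τ).1 - 3 * (col τ).2)
  | some false :: τ => (3 * (col τ).1 + 4 * (col τ).2, 4 * (col τ).1 - 3 * (col τ).2)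

lemma W_col (τ : List Ty) : 5 ^ τ.length * (W τ) 0 0 = (col τ).1 ∧
    5 ^ τ.length * (W τ) 1 0 = (col τ).2 := by
  induction τ with
  | nil => simp [col]
  | cons t τ ih =>
    obtain ⟨h1, h2⟩ := ih
    rw [W_cons, List.length_cons, pow_succ]
    match t with
    | none =>
      simp only [wt, one_mul, col]
      push_cast
      rw [← h1, ← h2]
      constructor <;> ring
    | some true =>
      simp only [wt, refl, col, Matrix.mul_apply, Fin.sum_univ_two]
      push_cast
      rw [← h1, ← h2]
      constructor <;> (simp; ring)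
    | some false =>
      simp only [wt, refl, col, Matrix.mul_apply, Fin.sum_univ_two]
      push_cast
      rw [← h1, ← h2]
      constructor <;> (simp; ring)

/-- alternating words. -/
def Alt : List Bool → Prop
  | [] => True
  | [_] => True
  | a :: b :: l => a ≠ b ∧ Alt (b :: l)

lemma Alt.tail {b : Bool} {l : List Bool} (h : Alt (b :: l)) : Alt l := by
  match l with
  | [] => trivial
  | c :: l => exact h.2

lemma col_alt (b : Bool) (l : List Bool) (h : Alt (b :: l)) :
    (col ((b :: l).map some)).1 % 5 = 3 ∧
    (col ((b :: l).map some)).2 % 5 = if b then 1 else 4 := by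
  induction l generalizing b with
  | nil => cases b <;> simp [col]
  | cons c l ih =>
    obtain ⟨hbc, hc⟩ := h
    obtain ⟨h1, h2⟩ := ih c hc
    simp only [List.map_cons] at h1 h2 ⊢
    cases b <;> cases c
    · exact absurd rfl hbc
    · simp only [col] at h1 h2 ⊢
      simp only [if_true] at h2
      constructor
      · omega
      · simp only [Bool.false_eq_true, if_false]
        omega
    · simp only [col] at h1 h2 ⊢
      simp only [Bool.false_eq_true, if_false] at h2
      constructor
      · omega
      · simp only [if_true]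
        omega
    · exact absurd rfl hbc

lemma W_ne_of_lt {τ : List Ty} {ω : List Bool} (hω : Alt ω) (hlt : τ.length < ω.length) :
    W τ ≠ W (ω.map some) := by
  intro h
  match ω, hω, hlt, h with
  | b :: l, hω, hlt, h =>
    have h1 := (W_col τ).1
    have h2 := (W_col ((b :: l).map some)).1
    rw [← h] at h2
    obtain ⟨d, hd⟩ := Nat.exists_eq_add_of_lt hlt
    have h3 : ((b :: l).map some).length = τ.length + d + 1 := by simpa using hd
    rw [h3, pow_succ, pow_add] at h2
    have h4 : (col ((b :: l).map some)).1 = 5 * (5 ^ d * (col τ).1) := by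
      have : ((col ((b :: l).map some)).1 : ℝ) = ((5 * (5 ^ d * (col τ).1) : ℤ) : ℝ) := by
        rw [← h2]
        push_cast
        rw [← h1]
        ring
      exact_mod_cast this
    have h5 := (col_alt b l hω).1
    omega

lemma eq_of_W_eq {τ : List Ty} {ω : List Bool} (hω : Alt ω) (hl : τ.length = ω.length)
    (h : W τ = W (ω.map some)) : τ = ω.map some := by
  induction ω generalizing τ with
  | nil => simpa using hl
  | cons b ω ih =>
    match τ, hl, h with
    | none :: τ, hl, h =>
      exfalso
      rw [W_cons] at h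
      simp only [wt, one_mul] at h
      exact W_ne_of_lt hω (by simp at hl ⊢; omega) h
    | some c :: τ, hl, h =>
      by_cases hcb : c = b
      · subst hcb
        rw [List.map_cons, W_cons, W_cons] at h
        rw [ih hω.tail (by simpa using hl) (wt_cancel _ h), List.map_cons]
      · exfalso
        have h' : W τ = W ((c :: b :: ω).map some) := by
          have : wt (some c) * (wt (some c) * W τ) = wt (some c) * W ((b :: ω).map some) := by
            rw [← h, W_cons]
          rw [← mul_assoc, wt_sq, one_mul] at this
          rw [this]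
          simp
        have hω' : Alt (c :: b :: ω) := ⟨hcb, hω⟩
        exact W_ne_of_lt hω' (by simp at hl ⊢; omega) h'

lemma det_W (τ : List Ty) (h : none ∉ τ) : (W τ).det = (-1) ^ τ.length := by
  induction τ with
  | nil => simp
  | cons t τ ih =>
    have h1 : none ∉ τ := fun hh => h (List.mem_cons_of_mem _ hh)
    match t, h with
    | none, h => exact absurd (List.mem_cons_self ..) h
    | some b, _ =>
      rw [W_cons, Matrix.det_mul, ih h1, List.length_cons, pow_succ]
      have : (wt (some b)).det = -1 := by
        cases b <;> (simp [wt, refl, Matrix.det_fin_two]; norm_num)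
      rw [this]
      ring

end Model

section Ext

variable {ι : Type*} [Fintype ι] {E : Type*} [AddCommGroup E] [Module ℝ E]

/-- multilinear extension of a function on words. -/
def ext : List (ι → ℝ) → (List ι → E) → E
  | [], h => h []
  | x :: xs, h => ∑ i, x i • ext xs (fun l => h (i :: l))

@[simp] lemma ext_nil (h : List ι → E) : ext [] h = h [] := rfl

lemma ext_cons (x : ι → ℝ) (xs : List (ι → ℝ)) (h : List ι → E) :
    ext (x :: xs) h = ∑ i, x i • ext xs (fun l => h (i :: l)) := rfl

lemma ext_congr (xs : List (ι → ℝ)) {h h' : List ι → E}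
    (e : ∀ l, l.length = xs.length → h l = h' l) : ext xs h = ext xs h' := by
  induction xs generalizing h h' with
  | nil => exact e [] rfl
  | cons x xs ih =>
    simp only [ext_cons]
    refine Finset.sum_congr rfl fun i _ => ?_
    rw [ih]
    exact fun l hl => e _ (by simp [hl])

lemma ext_zero (xs : List (ι → ℝ)) : ext xs (fun _ => (0 : E)) = 0 := by
  induction xs with
  | nil => rfl
  | cons x xs ih => simp [ext_cons, ih]

lemma ext_eq_zero (xs : List (ι → ℝ)) {h : List ι → E}
    (e : ∀ l, l.length = xs.length → h l = 0) : ext xs h = 0 := by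
  rw [ext_congr xs e, ext_zero]

lemma ext_add (xs : List (ι → ℝ)) (h h' : List ι → E) :
    ext xs (fun l => h l + h' l) = ext xs h + ext xs h' := by
  induction xs generalizing h h' with
  | nil => rfl
  | cons x xs ih => simp [ext_cons, ih, Finset.sum_add_distrib]

lemma ext_smul (xs : List (ι → ℝ)) (r : ℝ) (h : List ι → E) :
    ext xs (fun l => r • h l) = r • ext xs h := by
  induction xs generalizing h with
  | nil => rfl
  | cons x xs ih =>
    simp only [ext_cons, ih, Finset.smul_sum]
    exact Finset.sum_congr rfl fun i _ => smul_comm _ _ _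

lemma ext_sum (xs : List (ι → ℝ)) {κ : Type*} (s : Finset κ) (h : κ → List ι → E) :
    ext xs (fun l => ∑ i ∈ s, h i l) = ∑ i ∈ s, ext xs (h i) := by
  induction xs generalizing h with
  | nil => rfl
  | cons x xs ih =>
    simp only [ext_cons, ih, Finset.smul_sum]
    rw [Finset.sum_comm]

lemma ext_map {E' : Type*} [AddCommGroup E'] [Module ℝ E'] (φ : E →ₗ[ℝ] E')
    (xs : List (ι → ℝ)) (h : List ι → E) : φ (ext xs h) = ext xs (fun l => φ (h l)) := by
  induction xs generalizing h with
  | nil => rfl
  | cons x xs ih => simp [ext_cons, ih]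

lemma ext_append (xs ys : List (ι → ℝ)) (h : List ι → E) :
    ext (xs ++ ys) h = ext xs (fun l => ext ys (fun l' => h (l ++ l'))) := by
  induction xs generalizing h with
  | nil => rfl
  | cons x xs ih => simp [ext_cons, ih]

lemma ext_cons' (x : ι → ℝ) (xs : List (ι → ℝ)) (h : List ι → E) :
    ext (x :: xs) h = ext xs (fun l => ∑ i, x i • h (i :: l)) := by
  rw [ext_sum, ext_cons]
  exact Finset.sum_congr rfl fun i _ => (ext_smul _ _ _).symm

lemma ext_comm (xs ys : List (ι → ℝ)) (h : List ι → List ι → E) :
    ext xs (fun l => ext ys (fun l' => h l l')) = ext ys (fun l' => ext xs (fun l => h l l')) := by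
  induction xs generalizing h with
  | nil => rfl
  | cons x xs ih =>
    simp only [ext_cons]
    rw [ext_sum]
    refine Finset.sum_congr rfl fun i _ => ?_
    rw [ext_smul, ih]

lemma ext_reverse (xs : List (ι → ℝ)) (h : List ι → E) :
    ext xs.reverse h = ext xs (fun l => h l.reverse) := by
  induction xs generalizing h with
  | nil => rfl
  | cons x xs ih =>
    rw [List.reverse_cons, ext_append, ih, ext_cons']
    refine ext_congr xs fun l _ => ?_
    simp [ext_cons]

/-- expansion of a middle slot. -/
lemma ext_mid (P Q : List (ι → ℝ)) (x : ι → ℝ) (h : List ι → E) :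
    ext (P ++ x :: Q) h = ∑ i, x i • ext P (fun l => ext Q (fun l' => h (l ++ i :: l'))) := by
  rw [ext_append]
  simp only [ext_cons]
  rw [ext_sum]
  exact Finset.sum_congr rfl fun i _ => ext_smul _ _ _

lemma ext_two (P Q : List (ι → ℝ)) (x y : ι → ℝ) (h : List ι → E) :
    ext (P ++ x :: y :: Q) h =
      ∑ i, ∑ j, (x i * y j) • ext P (fun l => ext Q (fun l' => h (l ++ i :: j :: l'))) := by
  rw [ext_mid]
  refine Finset.sum_congr rfl fun i _ => ?_
  simp only [ext_cons]
  rw [ext_sum, Finset.smul_sum]
  refine Finset.sum_congr rfl fun j _ => ?_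
  rw [ext_smul, smul_smul]

lemma ext_mid_add (P Q : List (ι → ℝ)) (x y : ι → ℝ) (h : List ι → E) :
    ext (P ++ (x + y) :: Q) h = ext (P ++ x :: Q) h + ext (P ++ y :: Q) h := by
  simp only [ext_mid, Pi.add_apply, add_smul, Finset.sum_add_distrib]

lemma ext_mid_smul (P Q : List (ι → ℝ)) (r : ℝ) (x : ι → ℝ) (h : List ι → E) :
    ext (P ++ (r • x) :: Q) h = r • ext (P ++ x :: Q) h := by
  simp only [ext_mid, Pi.smul_apply, smul_eq_mul, mul_smul, Finset.smul_sum]

lemma ext_mid_sum (P Q : List (ι → ℝ)) {κ : Type*} (s : Finset κ) (x : κ → ι → ℝ)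
    (h : List ι → E) :
    ext (P ++ (∑ c ∈ s, x c) :: Q) h = ∑ c ∈ s, ext (P ++ x c :: Q) h := by
  simp only [ext_mid, Finset.sum_apply, Finset.sum_smul]
  rw [Finset.sum_comm]

lemma ext_perm (σ : Equiv.Perm ι) (xs : List (ι → ℝ)) (h : List ι → E) :
    ext (xs.map (fun x i => x (σ i))) h = ext xs (fun l => h (l.map σ.symm)) := by
  induction xs generalizing h with
  | nil => rfl
  | cons x xs ih =>
    rw [List.map_cons, ext_cons, ext_cons, ← Equiv.sum_comp σ.symm]
    refine Finset.sum_congr rfl fun i _ => ?_
    rw [ih]
    simp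

end Ext

end H72QP
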