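import Pool.Agent.H72.QP.GenAll
import Pool.Agent.H72.QP.Bicomm

/-! Products of matrix entries along words. -/

namespace H72QP

open Finset

section MW

variable {ι : Type*} [Fintype ι] {R : Type*} [Semiring R]

/-- `M_{l₁l'₁} ⋯ M_{l_kl'_k}`. -/
def mw (M : ι → ι → R) : List ι → List ι → R
  | [], [] => 1
  | i :: l, j :: l' => M i j * mw M l l'
  | _, _ => 0

omit [Fintype ι] in
@[simp] lemma mw_nil (M : ι → ι → R) : mw M [] [] = 1 := rfl

omit [Fintype ι] in
@[simp] lemma mw_cons (M : ι → ι → R) (i j : ι) (l l' : List ι) :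
    mw M (i :: l) (j :: l') = M i j * mw M l l' := rfl

omit [Fintype ι] in
lemma mw_append (M : ι → ι → R) (a b a' b' : List ι) (h : a.length = a'.length) :
    mw M (a ++ b) (a' ++ b') = mw M a a' * mw M b b' := by
  induction a generalizing a' with
  | nil =>
    have : a' = [] := by simpa using h.symm
    subst this
    simp
  | cons i a ih =>
    match a', h with
    | j :: a', h =>
      simp only [List.cons_append, mw_cons]
      rw [ih a' (by simpa using h), mul_assoc]

lemma act_eq_S (M : ι → ι → R) (l : List ι) (h : List ι → R) :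
    act M l h = S l.length (fun l' => mw M l l' * h l') := by
  induction l generalizing h with
  | nil => simp
  | cons i l ih =>
    rw [act_cons, List.length_cons, S_succ]
    refine Finset.sum_congr rfl fun j _ => ?_
    rw [ih, ← S_mul_left]
    exact S_congr _ fun l' _ => by simp [mul_assoc]

omit [Fintype ι] in
lemma mw_map {R' : Type*} [Semiring R'] {F : Type*} [FunLike F R R'] [RingHomClass F R R'] (φ : F)
    (M : ι → ι → R) (l l' : List ι) : φ (mw M l l') = mw (fun i j => φ (M i j)) l l' := by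
  induction l generalizing l' with
  | nil =>
    match l' with
    | [] => simp
    | _ :: _ => simp [mw]
  | cons i l ih =>
    match l' with
    | [] => simp [mw]
    | j :: l' => simp [ih]

omit [Fintype ι] in
lemma mw_swap (M : ι → ι → R) (l l' : List ι) : mw (fun i j => M j i) l l' = mw M l' l := by
  induction l generalizing l' with
  | nil =>
    match l' with
    | [] => simp
    | _ :: _ => simp [mw]
  | cons i l ih =>
    match l' with
    | [] => simp [mw]
    | j :: l' => simp [ih]

lemma Magic.map {R' : Type*} [Semiring R'] (φ : R →+* R') {M : ι → ι → R}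
    [DecidableEq ι] (hM : Magic M) : Magic (fun i j => φ (M i j)) := by
  constructor
  · intro i j k
    rw [← map_mul, hM.row]
    split_ifs <;> simp
  · intro i j k
    rw [← map_mul, hM.col]
    split_ifs <;> simp
  · intro i
    rw [← map_sum, hM.rowsum, map_one]
  · intro j
    rw [← map_sum, hM.colsum, map_one]

lemma Magic.pi {κ : Type*} {R : κ → Type*} [∀ o, Semiring (R o)] [DecidableEq ι]
    {M : ι → ι → ∀ o, R o} (hM : ∀ o, Magic (fun i j => M i j o)) : Magic M := by
  constructor
  · intro i j k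
    funext o
    have := (hM o).row i j k
    rw [Pi.mul_apply, this]
    split_ifs <;> rfl
  · intro i j k
    funext o
    have := (hM o).col i j k
    rw [Pi.mul_apply, this]
    split_ifs <;> rfl
  · intro i
    funext o
    rw [Finset.sum_apply]
    exact (hM o).rowsum i
  · intro j
    funext o
    rw [Finset.sum_apply]
    exact (hM o).colsum j

omit [Fintype ι] in
lemma mw_permM {K : Type*} [Semiring K] [DecidableEq ι] (σ : Equiv.Perm ι) (l l' : List ι)
    (h : l.length = l'.length) :
    mw (permM K σ) l l' = if l' = l.map σ then 1 else 0 := by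
  induction l generalizing l' with
  | nil =>
    have : l' = [] := by simpa using h.symm
    subst this
    simp
  | cons i l ih =>
    match l', h with
    | j :: l', h =>
      rw [mw_cons, ih l' (by simpa using h), List.map_cons]
      simp only [permM, List.cons.injEq]
      by_cases h1 : j = σ i <;> by_cases h2 : l' = l.map σ <;> simp [h1, h2]

end MW

section Model4

variable {n : ℕ}

/-- the four-dimensional magic matrix, before reindexing. -/
noncomputable def fam (M : Fin n → Fin n → Matrix (Fin 2) (Fin 2) ℝ) (σ1 σ2 : Equiv.Perm (Fin n))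
    (i j : Fin n) : Fin 2 → Matrix (Fin 2) (Fin 2) ℂ :=
  fun o => if o = 0 then (algebraMap ℝ ℂ).mapMatrix (M i j) else
    Matrix.diagonalRingHom (Fin 2) ℂ (fun s => if s = 0 then permM ℂ σ1 i j else permM ℂ σ2 i j)

/-- the indexing of the four rows. -/
def e4 : Fin 2 × Fin 2 ≃ Fin 4 := finProdFinEquiv

/-- the embedding of blocks. -/
noncomputable def Phi : (Fin 2 → Matrix (Fin 2) (Fin 2) ℂ) →+* Matrix (Fin 4) (Fin 4) ℂ :=
  (Matrix.reindexAlgEquiv ℂ ℂ e4).toRingEquiv.toRingHom.comp
    (Matrix.blockDiagonalRingHom (Fin 2) (Fin 2) ℂ)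

lemma Phi_apply (X : Fin 2 → Matrix (Fin 2) (Fin 2) ℂ) (s t o : Fin 2) :
    Phi X (e4 (s, o)) (e4 (t, o)) = X o s t := by
  simp [Phi, Matrix.blockDiagonal_apply]

lemma Phi_conj (X : Fin 2 → Matrix (Fin 2) (Fin 2) ℂ) (hX : ∀ o, (X o).conjTranspose = X o) :
    (Phi X).IsHermitian := by
  unfold Matrix.IsHermitian
  change (Matrix.reindex e4 e4 (Matrix.blockDiagonal X)).conjTranspose =
    Matrix.reindex e4 e4 (Matrix.blockDiagonal X)
  rw [Matrix.conjTranspose_reindex, Matrix.blockDiagonal_conjTranspose]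
  congr 2
  funext o
  exact hX o

lemma magic_fam {M : Fin n → Fin n → Matrix (Fin 2) (Fin 2) ℝ} (hM : Magic M)
    (σ1 σ2 : Equiv.Perm (Fin n)) : Magic (fam M σ1 σ2) := by
  refine Magic.pi fun o => ?_
  by_cases ho : o = 0
  · subst ho
    exact hM.map (algebraMap ℝ ℂ).mapMatrix
  · have h1 : Magic (fun i j : Fin n => (fun s : Fin 2 =>
        if s = 0 then permM ℂ σ1 i j else permM ℂ σ2 i j)) := by
      refine Magic.pi fun s => ?_
      by_cases hs : s = 0
      · simp only [hs, if_true]
        exact magic_permM σ1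
      · simp only [hs, if_false]
        exact magic_permM σ2
    have h2 := h1.map (Matrix.diagonalRingHom (Fin 2) ℂ)
    simpa only [fam, ho, if_false] using h2

/-- the four-dimensional magic matrix. -/
noncomputable def m4 (M : Fin n → Fin n → Matrix (Fin 2) (Fin 2) ℝ) (σ1 σ2 : Equiv.Perm (Fin n))
    (i j : Fin n) : Matrix (Fin 4) (Fin 4) ℂ := Phi (fam M σ1 σ2 i j)

lemma magic_m4 {M : Fin n → Fin n → Matrix (Fin 2) (Fin 2) ℝ} (hM : Magic M)
    (σ1 σ2 : Equiv.Perm (Fin n)) : Magic (m4 M σ1 σ2) := (magic_fam hM σ1 σ2).map Phi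

lemma herm_m4 {M : Fin n → Fin n → Matrix (Fin 2) (Fin 2) ℝ}
    (hM : ∀ i j, (M i j).transpose = M i j) (σ1 σ2 : Equiv.Perm (Fin n)) (i j : Fin n) :
    (m4 M σ1 σ2 i j).IsHermitian := by
  refine Phi_conj _ fun o => ?_
  by_cases ho : o = 0
  · subst ho
    simp only [fam, if_true]
    ext s t
    have := congrFun (congrFun (hM i j) s) t
    simp only [Matrix.transpose_apply] at this
    simp [this]
  · simp only [fam, ho, if_false]
    ext s t
    simp only [Matrix.diagonalRingHom_apply, Matrix.conjTranspose_apply]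
    by_cases hst : s = t
    · subst hst
      rw [Matrix.diagonal_apply_eq]
      simp only [permM]
      split_ifs <;> simp
    · rw [Matrix.diagonal_apply_ne _ (Ne.symm hst), Matrix.diagonal_apply_ne _ hst, star_zero]

lemma m4_entry0 (M : Fin n → Fin n → Matrix (Fin 2) (Fin 2) ℝ) (σ1 σ2 : Equiv.Perm (Fin n))
    (l l' : List (Fin n)) (s t : Fin 2) :
    mw (m4 M σ1 σ2) l l' (e4 (s, 0)) (e4 (t, 0)) =
      ((mw M l l' s t : ℝ) : ℂ) := by
  have h1 : mw (m4 M σ1 σ2) l l' = Phi (mw (fam M σ1 σ2) l l') := (mw_map Phi _ _ _).symm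
  rw [h1, Phi_apply]
  have h2 : (mw (fam M σ1 σ2) l l') 0 = mw (fun i j => fam M σ1 σ2 i j 0) l l' :=
    mw_map (Pi.evalRingHom (fun _ : Fin 2 => Matrix (Fin 2) (Fin 2) ℂ) 0) _ _ _
  rw [h2]
  have h3 : (fun i j => fam M σ1 σ2 i j 0) = fun i j => (algebraMap ℝ ℂ).mapMatrix (M i j) := rfl
  rw [h3, ← mw_map]
  simp

lemma m4_entry1 (M : Fin n → Fin n → Matrix (Fin 2) (Fin 2) ℝ) (σ1 σ2 : Equiv.Perm (Fin n))
    (l l' : List (Fin n)) (s : Fin 2) :
    mw (m4 M σ1 σ2) l l' (e4 (s, 1)) (e4 (s, 1)) =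
      if s = 0 then mw (permM ℂ σ1) l l' else mw (permM ℂ σ2) l l' := by
  have h1 : mw (m4 M σ1 σ2) l l' = Phi (mw (fam M σ1 σ2) l l') := (mw_map Phi _ _ _).symm
  rw [h1, Phi_apply]
  have h2 : (mw (fam M σ1 σ2) l l') 1 = mw (fun i j => fam M σ1 σ2 i j 1) l l' :=
    mw_map (Pi.evalRingHom (fun _ : Fin 2 => Matrix (Fin 2) (Fin 2) ℂ) 1) _ _ _
  rw [h2]
  have h3 : (fun i j => fam M σ1 σ2 i j 1) = fun i j => Matrix.diagonalRingHom (Fin 2) ℂ
    (fun s => if s = 0 then permM ℂ σ1 i j else permM ℂ σ2 i j) := rfl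
  rw [h3, ← mw_map, Matrix.diagonalRingHom_apply, Matrix.diagonal_apply_eq]
  have h4 := mw_map (Pi.evalRingHom (fun _ : Fin 2 => ℂ) s)
    (fun i j => (fun s : Fin 2 => if s = 0 then permM ℂ σ1 i j else permM ℂ σ2 i j)) l l'
  simp only [Pi.evalRingHom_apply] at h4
  rw [h4]
  by_cases hs : s = 0
  · simp only [hs, if_true]
  · simp only [hs, if_false]

end Model4

end H72QP
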